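import Mathlib

set_option autoImplicit false
set_option linter.all false

open MeasureTheory Set Filter Topology

namespace AM287

/-! ### Defs -/

/-- clamped half-angle sine -/
noncomputable def sg (θ : ℝ) : ℝ := Real.sin (min θ Real.pi / 2)

/-- the density of the metric `|d log tanh(ζ/4)|^2`, clamped at height `π` -/
noncomputable def Ph (s θ : ℝ) : ℝ := 1 / (4 * (Real.sinh (s / 2) ^ 2 + sg θ ^ 2))

noncomputable def kap (s : ℝ) : ℝ := 1 / (4 * Real.cosh (s / 2) ^ 2)

/-- half of the `y`-variation of the closed curve where `x > s` -/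
noncomputable def TQ (x dy : ℝ → ℝ) (s : ℝ) : ℝ :=
  (1 / 2) * ∫ α in (0 : ℝ)..(2 * Real.pi), if s < x α then dy α else 0

noncomputable def KK (s θ : ℝ) : ℝ :=
  Real.pi / 2 + Complex.arg (⟨sg θ, -Real.sinh (s / 2)⟩ : ℂ)

noncomputable def KKs (s θ : ℝ) : ℝ :=
  -(1 / 2) * Real.cosh (s / 2) * sg θ / (Real.sinh (s / 2) ^ 2 + sg θ ^ 2)

noncomputable def KKt (s θ : ℝ) : ℝ :=
  (1 / 2) * Real.cos (min θ Real.pi / 2) * Real.sinh (s / 2) / (Real.sinh (s / 2) ^ 2 + sg θ ^ 2)

def UU : Set (ℝ × ℝ) := {z | z.1 ≠ 0 ∨ 0 < z.2}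

noncomputable def xx (G : ℂ → ℂ) (t α : ℝ) : ℝ := (G (circleMap 0 t α)).re

noncomputable def WW (G : ℂ → ℂ) (t α : ℝ) : ℂ := circleMap 0 t α * deriv G (circleMap 0 t α)

noncomputable def TT (G : ℂ → ℂ) (t s : ℝ) : ℝ := TQ (xx G t) (fun α => (WW G t α).re) s

noncomputable def AA (G : ℂ → ℂ) (F : ℝ → ℝ) (r : ℝ) : ℝ :=
  ∫ α in (0 : ℝ)..(2 * Real.pi), F (xx G r α) * ‖WW G r α‖ ^ 2

/-- height of the disc `|tanh(ζ/4)| < c` over `s` -/
noncomputable def tau (c s : ℝ) : ℝ := 2 * Real.arccos ((1 - c ^ 2) / (1 + c ^ 2) * Real.cosh (s / 2))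

/-- areal mean condition -/
def AMC (f : ℂ → ℂ) : Prop := ∀ R : ℝ, 0 < R →
  (∫⁻ w in Metric.ball (0 : ℂ) R,
    ENat.toENNReal (Set.encard {z : ℂ | z ∈ Metric.ball (0 : ℂ) 1 ∧ f z = w}))
    ≤ ENNReal.ofReal (Real.pi * R ^ 2)

/-! ### KK1 -/

theorem sg_hasDerivAt (θ : ℝ) : HasDerivAt sg ((1 / 2) * Real.cos (min θ Real.pi / 2)) θ := by
  have hL : ∀ x ∈ Iic Real.pi, sg x = Real.sin (x / 2) := by
    intro x hx
    unfold sg
    rw [min_eq_left hx]
  have hR : ∀ x ∈ Ici Real.pi, sg x = 1 := by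
    intro x hx
    unfold sg
    rw [min_eq_right hx, Real.sin_pi_div_two]
  have dsin : ∀ x : ℝ, HasDerivAt (fun x : ℝ => Real.sin (x / 2)) ((1 / 2) * Real.cos (x / 2)) x := by
    intro x
    have := (Real.hasDerivAt_sin (x / 2)).comp x ((hasDerivAt_id x).div_const 2)
    refine this.congr_deriv ?_
    ring
  rcases lt_trichotomy θ Real.pi with h | h | h
  · rw [min_eq_left h.le]
    refine (dsin θ).congr_of_eventuallyEq ?_
    filter_upwards [Iio_mem_nhds h] with x hx
    exact hL x (Set.mem_Iic.mpr (le_of_lt (Set.mem_Iio.mp hx)))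
  · subst h
    rw [min_self, Real.cos_pi_div_two, mul_zero]
    rw [← hasDerivWithinAt_univ, ← Iic_union_Ici (a := Real.pi)]
    refine HasDerivWithinAt.union ?_ ?_
    · have h1 := (dsin Real.pi).hasDerivWithinAt (s := Iic Real.pi)
      rw [Real.cos_pi_div_two, mul_zero] at h1
      exact h1.congr hL (hL _ self_mem_Iic)
    · exact (hasDerivWithinAt_const Real.pi (Ici Real.pi) (1 : ℝ)).congr hR (hR _ self_mem_Ici)
  · rw [min_eq_right h.le, Real.cos_pi_div_two, mul_zero]
    refine (hasDerivAt_const θ (1 : ℝ)).congr_of_eventuallyEq ?_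
    filter_upwards [Ioi_mem_nhds h] with x hx
    exact hR x (Set.mem_Ici.mpr (le_of_lt (Set.mem_Ioi.mp hx)))

theorem KK_fderiv (z : ℝ × ℝ) (hz : z ∈ UU) :
    HasFDerivAt (fun w : ℝ × ℝ => KK w.1 w.2)
      (KKs z.1 z.2 • ContinuousLinearMap.fst ℝ ℝ ℝ + KKt z.1 z.2 • ContinuousLinearMap.snd ℝ ℝ ℝ)
      z := by
  obtain ⟨s, θ⟩ := z
  simp only
  have hslit : (⟨sg θ, -Real.sinh (s / 2)⟩ : ℂ) ∈ Complex.slitPlane := by
    rw [Complex.mem_slitPlane_iff]
    rcases hz with h | h
    · right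
      simp only [ne_eq, neg_eq_zero, Real.sinh_eq_zero]
      intro h'
      exact h (by simp only; linarith)
    · left
      simp only at h ⊢
      unfold sg
      refine Real.sin_pos_of_pos_of_lt_pi ?_ ?_
      · have := lt_min h Real.pi_pos
        linarith
      · have := min_le_right θ Real.pi
        linarith [Real.pi_pos]
  have h1 : HasFDerivAt (fun w : ℝ × ℝ => sg w.2)
      (((1 / 2) * Real.cos (min θ Real.pi / 2)) • ContinuousLinearMap.snd ℝ ℝ ℝ) (s, θ) := by
    have h0 := sg_hasDerivAt θ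
    generalize sg = q at h0 ⊢
    exact HasDerivAt.comp_hasFDerivAt (f := (Prod.snd : ℝ × ℝ → ℝ)) (s, θ) h0 hasFDerivAt_snd
  have h2 : HasFDerivAt (fun w : ℝ × ℝ => -Real.sinh (w.1 / 2))
      ((-(Real.cosh (s / 2) * (1 / 2))) • ContinuousLinearMap.fst ℝ ℝ ℝ) (s, θ) := by
    have h0 : HasDerivAt (fun x : ℝ => -Real.sinh (x / 2)) (-(Real.cosh (s / 2) * (1 / 2))) s := by
      have := ((Real.hasDerivAt_sinh (s / 2)).comp s ((hasDerivAt_id s).div_const 2)).neg
      exact this
    exact HasDerivAt.comp_hasFDerivAt (h₂ := fun x : ℝ => -Real.sinh (x / 2))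
      (f := (Prod.fst : ℝ × ℝ → ℝ)) (s, θ) h0 hasFDerivAt_fst
  have h3 : HasFDerivAt (fun w : ℝ × ℝ => (⟨sg w.2, -Real.sinh (w.1 / 2)⟩ : ℂ))
      ((Complex.equivRealProdCLM.symm : ℝ × ℝ →L[ℝ] ℂ).comp
        ((((1 / 2) * Real.cos (min θ Real.pi / 2)) • ContinuousLinearMap.snd ℝ ℝ ℝ).prod
          ((-(Real.cosh (s / 2) * (1 / 2))) • ContinuousLinearMap.fst ℝ ℝ ℝ))) (s, θ) := by
    have := (Complex.equivRealProdCLM.symm : ℝ × ℝ →L[ℝ] ℂ).hasFDerivAt.comp (s, θ) (h1.prodMk h2)
    refine this.congr_of_eventuallyEq (Filter.Eventually.of_forall fun w => ?_)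
    apply Complex.ext <;> simp
  have h4 : HasFDerivAt (fun u : ℂ => Complex.log u)
      ((ContinuousLinearMap.toSpanSingleton ℂ
        ((⟨sg θ, -Real.sinh (s / 2)⟩ : ℂ)⁻¹) : ℂ →L[ℂ] ℂ).restrictScalars ℝ)
      (⟨sg θ, -Real.sinh (s / 2)⟩ : ℂ) :=
    (Complex.hasStrictDerivAt_log hslit).hasDerivAt.hasFDerivAt.restrictScalars ℝ
  have h5 := (Complex.imCLM.hasFDerivAt.comp (s, θ) (h4.comp (s, θ) h3)).const_add (Real.pi / 2)
  have h6 : (fun w : ℝ × ℝ => KK w.1 w.2) = fun w : ℝ × ℝ => Real.pi / 2 +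
      (⇑Complex.imCLM ∘ (fun u : ℂ => Complex.log u) ∘
        fun w : ℝ × ℝ => (⟨sg w.2, -Real.sinh (w.1 / 2)⟩ : ℂ)) w := by
    funext w
    unfold KK
    simp only [Function.comp_apply, Complex.imCLM_apply, Complex.log_im]
  rw [h6]
  refine h5.congr_fderiv ?_
  have hns : Complex.normSq (⟨sg θ, -Real.sinh (s / 2)⟩ : ℂ) =
      Real.sinh (s / 2) ^ 2 + sg θ ^ 2 := by
    rw [Complex.normSq_mk]; ring
  refine ContinuousLinearMap.ext fun v => ?_
  obtain ⟨v1, v2⟩ := v
  simp only [ContinuousLinearMap.comp_apply, ContinuousLinearMap.coe_restrictScalars',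
    ContinuousLinearMap.toSpanSingleton_apply, ContinuousLinearMap.prod_apply,
    ContinuousLinearMap.smul_apply, ContinuousLinearMap.coe_fst', ContinuousLinearMap.coe_snd',
    ContinuousLinearMap.add_apply, Complex.imCLM_apply, smul_eq_mul, Complex.mul_im,
    Complex.inv_re, Complex.inv_im, hns, ContinuousLinearEquiv.coe_coe]
  simp only [Complex.equivRealProdCLM_symm_apply_re, Complex.equivRealProdCLM_symm_apply_im]
  unfold KKs KKt
  ring

/-! ### KK2 -/

theorem KK2_sg_cont : Continuous sg := by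
  unfold sg
  exact Real.continuous_sin.comp ((continuous_id.min continuous_const).div_const _)

theorem KK2_sg_pos {θ : ℝ} (h : 0 < θ) : 0 < sg θ := by
  unfold sg
  have hpi := Real.pi_pos
  apply Real.sin_pos_of_pos_of_lt_pi
  · have : 0 < min θ Real.pi := lt_min h hpi
    linarith
  · have : min θ Real.pi ≤ Real.pi := min_le_right _ _
    linarith

theorem KK2_den_pos {w : ℝ × ℝ} (hw : w ∈ UU) : 0 < Real.sinh (w.1 / 2) ^ 2 + sg w.2 ^ 2 := by
  rcases hw with h | h
  · have h1 : Real.sinh (w.1 / 2) ≠ 0 := by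
      rw [Ne, Real.sinh_eq_zero]
      intro h2
      exact h (by linarith)
    have h2 : 0 < Real.sinh (w.1 / 2) ^ 2 := by positivity
    have h3 : 0 ≤ sg w.2 ^ 2 := sq_nonneg _
    linarith
  · have h1 := KK2_sg_pos h
    have h2 : 0 < sg w.2 ^ 2 := by positivity
    have h3 : 0 ≤ Real.sinh (w.1 / 2) ^ 2 := sq_nonneg _
    linarith

theorem KK2_den_cont : Continuous (fun w : ℝ × ℝ => Real.sinh (w.1 / 2) ^ 2 + sg w.2 ^ 2) :=
  ((Real.continuous_sinh.comp (continuous_fst.div_const _)).pow 2).add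
    ((KK2_sg_cont.comp continuous_snd).pow 2)

theorem KKs_cont : ContinuousOn (fun w : ℝ × ℝ => KKs w.1 w.2) UU := by
  unfold KKs
  refine ContinuousOn.div ?_ KK2_den_cont.continuousOn (fun w hw => (KK2_den_pos hw).ne')
  exact ((continuous_const.mul (Real.continuous_cosh.comp (continuous_fst.div_const _))).mul
    (KK2_sg_cont.comp continuous_snd)).continuousOn

theorem KKt_cont : ContinuousOn (fun w : ℝ × ℝ => KKt w.1 w.2) UU := by
  unfold KKt
  refine ContinuousOn.div ?_ KK2_den_cont.continuousOn (fun w hw => (KK2_den_pos hw).ne')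
  exact ((continuous_const.mul (Real.continuous_cos.comp
    ((continuous_snd.min continuous_const).div_const _))).mul
    (Real.continuous_sinh.comp (continuous_fst.div_const _))).continuousOn

theorem Ph_cont : ContinuousOn (fun w : ℝ × ℝ => Ph w.1 w.2) UU := by
  unfold Ph
  refine ContinuousOn.div continuousOn_const (continuous_const.mul KK2_den_cont).continuousOn
    (fun w hw => mul_ne_zero (by norm_num) (KK2_den_pos hw).ne')

/-! ### KK3 -/

lemma AM_sg_zero : sg 0 = 0 := by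
  unfold sg
  rw [min_eq_left Real.pi_pos.le]
  simp

lemma AM_sg_nonneg (u : ℝ) (hu : 0 ≤ u) : 0 ≤ sg u := by
  unfold sg
  apply Real.sin_nonneg_of_nonneg_of_le_pi
  · have : 0 ≤ min u Real.pi := le_min hu Real.pi_pos.le
    linarith
  · have : min u Real.pi ≤ Real.pi := min_le_right _ _
    linarith [Real.pi_pos]

lemma AM_sg_pos (u : ℝ) (hu : 0 < u) : 0 < sg u := by
  unfold sg
  apply Real.sin_pos_of_pos_of_lt_pi
  · have : 0 < min u Real.pi := lt_min hu Real.pi_pos
    linarith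
  · have : min u Real.pi ≤ Real.pi := min_le_right _ _
    linarith [Real.pi_pos]

lemma AM_sg_mono (u v : ℝ) (hu : 0 ≤ u) (huv : u ≤ v) : sg u ≤ sg v := by
  unfold sg
  have h1 : 0 ≤ min u Real.pi := le_min hu Real.pi_pos.le
  have h2 : min v Real.pi ≤ Real.pi := min_le_right _ _
  have h3 : min u Real.pi ≤ min v Real.pi := min_le_min_right _ huv
  apply Real.sin_le_sin_of_le_of_le_pi_div_two
  · linarith [Real.pi_pos]
  · linarith
  · linarith

lemma AM_den (s u : ℝ) (h : s ≠ 0 ∨ 0 < u) : 0 < Real.sinh (s / 2) ^ 2 + sg u ^ 2 := by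
  rcases h with h | h
  · have : Real.sinh (s / 2) ≠ 0 := by
      intro h1
      rw [Real.sinh_eq_zero] at h1
      exact h (by linarith)
    positivity
  · have := AM_sg_pos u h
    positivity

theorem KK_pos (s : ℝ) (hs : 0 < s) : KK s 0 = 0 := by
  unfold KK
  rw [AM_sg_zero]
  have h1 : 0 < Real.sinh (s / 2) := Real.sinh_pos_iff.2 (by linarith)
  rw [Complex.arg_eq_neg_pi_div_two_iff.2 ⟨rfl, by show -Real.sinh (s / 2) < 0; linarith⟩]
  ring

theorem KK_neg (s : ℝ) (hs : s < 0) : KK s 0 = Real.pi := by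
  unfold KK
  rw [AM_sg_zero]
  have h1 : Real.sinh (s / 2) < 0 := Real.sinh_neg_iff.2 (by linarith)
  rw [Complex.arg_eq_pi_div_two_iff.2 ⟨rfl, by show 0 < -Real.sinh (s / 2); linarith⟩]
  ring

theorem KK_sq (s θ : ℝ) (h : (s, θ) ∈ UU) : KKs s θ ^ 2 + KKt s θ ^ 2 = Ph s θ := by
  have hd := AM_den s θ h
  unfold KKs KKt Ph
  have hc : Real.cosh (s / 2) ^ 2 = 1 + Real.sinh (s / 2) ^ 2 := by
    have := Real.cosh_sq (s / 2); linarith
  have hs : Real.cos (min θ Real.pi / 2) ^ 2 = 1 - sg θ ^ 2 := by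
    unfold sg
    exact Real.cos_sq' _
  have hd' := hd.ne'
  rw [div_pow, div_pow, ← add_div]
  have e1 : (-(1 / 2) * Real.cosh (s / 2) * sg θ) ^ 2 +
      (1 / 2 * Real.cos (min θ Real.pi / 2) * Real.sinh (s / 2)) ^ 2 =
      (1 / 4) * (Real.sinh (s / 2) ^ 2 + sg θ ^ 2) := by
    have : (-(1 / 2) * Real.cosh (s / 2) * sg θ) ^ 2 +
      (1 / 2 * Real.cos (min θ Real.pi / 2) * Real.sinh (s / 2)) ^ 2 =
      (1 / 4) * (Real.cosh (s / 2) ^ 2 * sg θ ^ 2 + Real.cos (min θ Real.pi / 2) ^ 2 *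
        Real.sinh (s / 2) ^ 2) := by ring
    rw [this, hc, hs]; ring
  rw [e1]
  field_simp

theorem Ph_anti (s u v : ℝ) (hu : 0 ≤ u) (huv : u ≤ v) (h : s ≠ 0 ∨ 0 < u) : Ph s v ≤ Ph s u := by
  have hd := AM_den s u h
  unfold Ph
  apply one_div_le_one_div_of_le (by positivity)
  have h1 := AM_sg_mono u v hu huv
  have h2 := AM_sg_nonneg u hu
  have h3 : sg u ^ 2 ≤ sg v ^ 2 := pow_le_pow_left₀ h2 h1 2
  linarith

theorem kap_le_Ph (s u : ℝ) (h : (s, u) ∈ UU) : kap s ≤ Ph s u := by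
  have hd := AM_den s u h
  unfold kap Ph
  apply one_div_le_one_div_of_le (by positivity)
  have hc := Real.cosh_sq (s / 2)
  have h1 : sg u ^ 2 ≤ 1 := by unfold sg; exact Real.sin_sq_le_one _
  rw [hc]
  linarith

theorem Ph_eq_kap (s u : ℝ) (h : Real.pi ≤ u) : Ph s u = kap s := by
  have h1 : sg u = 1 := by
    unfold sg
    rw [min_eq_right h, Real.sin_pi_div_two]
  unfold Ph kap
  rw [h1, Real.cosh_sq (s / 2)]
  ring

/-! ### Phi2 -/

theorem Ph_ii (s p q : ℝ) (h : s ≠ 0 ∨ (0 < p ∧ 0 < q)) :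
    IntervalIntegrable (fun u => Ph s u) volume p q := by
  apply ContinuousOn.intervalIntegrable
  refine Ph_cont.comp (f := fun u : ℝ => ((s, u) : ℝ × ℝ)) (by fun_prop) ?_
  intro u hu
  rcases h with h | ⟨h1, h2⟩
  · exact Or.inl h
  · right
    have h3 : min p q ≤ u := hu.1
    exact lt_of_lt_of_le (lt_min h1 h2) h3

theorem inner_cont (p q : ℝ → ℝ) (hp : Continuous p) (hq : Continuous q) (hp0 : 0 < p 0)
    (hq0 : 0 < q 0) : Continuous (fun s => ∫ u in (p s)..(q s), Ph s u) := by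
  set H : ℝ → ℝ → ℝ := fun s v => (q s - p s) * Ph s (p s + (q s - p s) * max 0 (min v 1)) with hH
  have hHc : Continuous (Function.uncurry H) := by
    have h1 : Continuous (fun z : ℝ × ℝ => Ph z.1 (p z.1 + (q z.1 - p z.1) * max 0 (min z.2 1))) := by
      have h2 : Continuous (fun z : ℝ × ℝ =>
          ((z.1, p z.1 + (q z.1 - p z.1) * max 0 (min z.2 1)) : ℝ × ℝ)) := by fun_prop
      rw [← continuousOn_univ]
      refine Ph_cont.comp (f := fun z : ℝ × ℝ =>
          ((z.1, p z.1 + (q z.1 - p z.1) * max 0 (min z.2 1)) : ℝ × ℝ)) h2.continuousOn ?_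
      rintro ⟨s, v⟩ -
      by_cases hs : s = 0
      · right
        subst hs
        simp only
        have c0 : 0 ≤ max 0 (min v 1) := le_max_left _ _
        have c1 : max 0 (min v 1) ≤ 1 := max_le zero_le_one (min_le_right _ _)
        have e : p 0 + (q 0 - p 0) * max 0 (min v 1) =
            (1 - max 0 (min v 1)) * p 0 + max 0 (min v 1) * q 0 := by ring
        rw [e]
        rcases eq_or_lt_of_le c0 with h0 | h0
        · rw [← h0]; simpa using hp0
        · have h3 : 0 < max 0 (min v 1) * q 0 := mul_pos h0 hq0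
          have h4 : 0 ≤ (1 - max 0 (min v 1)) * p 0 := mul_nonneg (by linarith) hp0.le
          linarith
      · exact Or.inl hs
    have h5 : Continuous (fun z : ℝ × ℝ => q z.1 - p z.1) := by fun_prop
    exact h5.mul h1
  have hfin := intervalIntegral.continuous_parametric_intervalIntegral_of_continuous' (μ := volume)
    hHc 0 1
  refine hfin.congr fun s => ?_
  have h1 : ∫ v in (0:ℝ)..1, H s v =
      ∫ v in (0:ℝ)..1, (q s - p s) * Ph s (p s + (q s - p s) * v) := by
    apply intervalIntegral.integral_congr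
    intro v hv
    rw [uIcc_of_le zero_le_one] at hv
    simp only [hH]
    rw [min_eq_left hv.2, max_eq_right hv.1]
  rw [h1, intervalIntegral.integral_const_mul]
  have h2 := intervalIntegral.smul_integral_comp_add_mul (a := 0) (b := 1) (Ph s) (q s - p s) (p s)
  rw [smul_eq_mul] at h2
  rw [h2]
  congr 1
  · ring
  · ring

/-! ### Chain -/

theorem chain_glue (Φ m : ℝ → ℝ) (p q : ℝ) (hpq : p ≤ q)
    (hloc : ∀ ε : ℝ, 0 < ε → ∀ s0 : ℝ, s0 ∈ Icc p q → ∃ δ : ℝ, 0 < δ ∧ ∀ u v : ℝ, u ∈ Icc p q →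
      v ∈ Icc p q → u ≤ v → |u - s0| < δ → |v - s0| < δ → |Φ v - Φ u| ≤ ε * (m v - m u)) :
    Φ q = Φ p := by
  have key : ∀ ε : ℝ, 0 < ε → |Φ q - Φ p| ≤ ε * (m q - m p) := by
    intro ε hε
    have h1 := hloc ε hε
    choose! δ hδ hδ' using h1
    obtain ⟨t, ht0, htm, ⟨N, hN⟩, ht⟩ := exists_monotone_Icc_subset_open_cover_Icc hpq
      (c := fun s0 : Icc p q => {s : Icc p q | |(s : ℝ) - s0| < δ s0})
      (fun i => isOpen_lt (by fun_prop) continuous_const)
      (fun s _ => mem_iUnion.mpr ⟨s, by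
        show |(s : ℝ) - s| < δ s
        rw [sub_self, abs_zero]
        exact hδ s s.2⟩)
    have hstep : ∀ n, |Φ (t n) - Φ p| ≤ ε * (m (t n) - m p) := by
      intro n
      induction n with
      | zero => rw [ht0]; simp
      | succ n ih =>
        obtain ⟨s0, hs0⟩ := ht n
        have h1 := hs0 (left_mem_Icc.mpr (htm n.le_succ))
        have h2 := hs0 (right_mem_Icc.mpr (htm n.le_succ))
        have h3 := hδ' s0 s0.2 (t n) (t (n+1)) (t n).2 (t (n+1)).2 (htm n.le_succ) h1 h2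
        calc |Φ (t (n+1)) - Φ p| ≤ |Φ (t (n+1)) - Φ (t n)| + |Φ (t n) - Φ p| := abs_sub_le _ _ _
          _ ≤ ε * (m (t (n+1)) - m (t n)) + ε * (m (t n) - m p) := add_le_add h3 ih
          _ = ε * (m (t (n+1)) - m p) := by ring
    have := hstep N
    rw [hN N le_rfl] at this
    exact this
  by_contra hne
  have h0 : 0 < |Φ q - Φ p| := abs_pos.mpr (sub_ne_zero.mpr hne)
  have hM : 0 ≤ m q - m p := by
    have := key 1 one_pos
    linarith [abs_nonneg (Φ q - Φ p)]
  set A := |Φ q - Φ p| with hA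
  set M := m q - m p with hMdef
  have h1 := key (A / (2 * (M + 1))) (by positivity)
  rw [div_mul_eq_mul_div, le_div_iff₀ (by positivity)] at h1
  nlinarith

noncomputable def Jx (x g : ℝ → ℝ) (s : ℝ) : ℝ :=
  ∫ α in (0 : ℝ)..(2 * Real.pi), if x α ≤ s then g α else 0

theorem ii_ite {x g : ℝ → ℝ} (hx : Continuous x) (hg : Continuous g) (P : ℝ → Prop)
    [DecidablePred P] (hS : MeasurableSet {s | P s}) (a b : ℝ) :
    IntervalIntegrable (fun α => if P (x α) then g α else 0) volume a b := by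
  have : (fun α => if P (x α) then g α else 0) = (x ⁻¹' {s | P s}).indicator g := by
    ext α
    by_cases h : P (x α)
    · rw [if_pos h, indicator_of_mem (show α ∈ x ⁻¹' {s | P s} from h)]
    · rw [if_neg h, indicator_of_notMem (show α ∉ x ⁻¹' {s | P s} from h)]
  rw [this, intervalIntegrable_iff]
  exact Integrable.indicator ((hg.intervalIntegrable a b).def') (hx.measurable hS)

theorem Jx_sub {x g : ℝ → ℝ} (hx : Continuous x) (hg : Continuous g) {u v : ℝ} (huv : u ≤ v) :
    Jx x g v - Jx x g u =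
      ∫ α in (0 : ℝ)..(2 * Real.pi), if u < x α ∧ x α ≤ v then g α else 0 := by
  unfold Jx
  rw [← intervalIntegral.integral_sub (ii_ite hx hg (fun s => s ≤ v) measurableSet_Iic _ _)
    (ii_ite hx hg (fun s => s ≤ u) measurableSet_Iic _ _)]
  congr 1
  ext α
  by_cases h1 : x α ≤ u
  · rw [if_pos (h1.trans huv), if_pos h1, if_neg (fun h => absurd h1 (not_le.mpr h.1)), sub_self]
  · by_cases h2 : x α ≤ v
    · rw [if_pos h2, if_neg h1, if_pos ⟨not_le.mp h1, h2⟩, sub_zero]
    · rw [if_neg h2, if_neg h1, if_neg (fun h => h2 h.2), sub_zero]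

theorem TQ_sub {x dy : ℝ → ℝ} (hx : Continuous x) (hg : Continuous dy) {u v : ℝ} (huv : u ≤ v) :
    TQ x dy v - TQ x dy u =
      -(1 / 2) * ∫ α in (0 : ℝ)..(2 * Real.pi), if u < x α ∧ x α ≤ v then dy α else 0 := by
  unfold TQ
  rw [← mul_sub, ← intervalIntegral.integral_sub
    (ii_ite hx hg (fun s => v < s) measurableSet_Ioi _ _)
    (ii_ite hx hg (fun s => u < s) measurableSet_Ioi _ _), neg_mul, ← mul_neg,
    ← intervalIntegral.integral_neg]
  congr 2
  ext α
  by_cases h1 : u < x α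
  · by_cases h2 : v < x α
    · rw [if_pos h2, if_pos h1, if_neg (fun h => absurd h.2 (not_le.mpr h2))]; simp
    · rw [if_neg h2, if_pos h1, if_pos ⟨h1, not_lt.mp h2⟩]; simp
  · rw [if_neg h1, if_neg (fun h => h1 (lt_of_le_of_lt huv h)), if_neg (fun h => h1 h.1)]; simp

theorem chain_TQ (x dy : ℝ → ℝ) (hx : Continuous x) (hdy : Continuous dy)
    (hT : Continuous (TQ x dy)) (p q : ℝ) (hpq : p < q) (hxr : ∀ α, p < x α ∧ x α < q)
    (K Ks Kt : ℝ → ℝ → ℝ) (U : Set (ℝ × ℝ)) (hU : IsOpen U)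
    (hmem : ∀ s ∈ Icc p q, (s, TQ x dy s) ∈ U)
    (hK : ∀ z ∈ U, HasFDerivAt (fun w : ℝ × ℝ => K w.1 w.2)
      (Ks z.1 z.2 • ContinuousLinearMap.fst ℝ ℝ ℝ + Kt z.1 z.2 • ContinuousLinearMap.snd ℝ ℝ ℝ) z)
    (hKs : ContinuousOn (fun w : ℝ × ℝ => Ks w.1 w.2) U)
    (hKt : ContinuousOn (fun w : ℝ × ℝ => Kt w.1 w.2) U) :
    K q (TQ x dy q) - K p (TQ x dy p) = (∫ s in p..q, Ks s (TQ x dy s))
      - (1 / 2) * ∫ α in (0 : ℝ)..(2 * Real.pi), Kt (x α) (TQ x dy (x α)) * dy α := by
  have hTd : ∀ u v : ℝ, u ≤ v → TQ x dy v - TQ x dy u =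
      -(1 / 2) * ∫ α in (0 : ℝ)..(2 * Real.pi), if u < x α ∧ x α ≤ v then dy α else 0 :=
    fun u v h => TQ_sub hx hdy h
  set T := TQ x dy with hTdef
  have hpi : (0:ℝ) ≤ 2 * Real.pi := by positivity
  have hTK : ∀ s ∈ Icc p q, ContinuousAt (fun r => Kt r (T r)) s := fun s hs =>
    ContinuousAt.comp (f := fun r => (r, T r)) (g := fun w : ℝ × ℝ => Kt w.1 w.2)
      (hKt.continuousAt (hU.mem_nhds (hmem s hs)))
      (by fun_prop : Continuous (fun r => (r, T r))).continuousAt
  have hTS : ∀ s ∈ Icc p q, ContinuousAt (fun r => Ks r (T r)) s := fun s hs =>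
    ContinuousAt.comp (f := fun r => (r, T r)) (g := fun w : ℝ × ℝ => Ks w.1 w.2)
      (hKs.continuousAt (hU.mem_nhds (hmem s hs)))
      (by fun_prop : Continuous (fun r => (r, T r))).continuousAt
  let F : ℝ → ℝ := fun α => Kt (x α) (T (x α)) * dy α
  have hF : Continuous F := by
    apply Continuous.mul _ hdy
    rw [continuous_iff_continuousAt]
    intro α
    exact ContinuousAt.comp (f := x) (g := fun r => Kt r (T r))
      (hTK (x α) ⟨(hxr α).1.le, (hxr α).2.le⟩) hx.continuousAt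
  have hTSi : ∀ u v : ℝ, u ∈ Icc p q → v ∈ Icc p q →
      IntervalIntegrable (fun r => Ks r (T r)) volume u v := by
    intro u v hu hv
    apply ContinuousOn.intervalIntegrable
    intro r hr
    apply ContinuousAt.continuousWithinAt
    apply hTS
    exact (uIcc_subset_Icc hu hv) hr
  let Φ : ℝ → ℝ := fun s => K s (T s) - (∫ r in p..s, Ks r (T r)) + (1/2) * Jx x F s
  let m : ℝ → ℝ := fun s => s + Jx x (fun α => |dy α|) s
  have hloc : ∀ ε : ℝ, 0 < ε → ∀ s0 : ℝ, s0 ∈ Icc p q → ∃ δ : ℝ, 0 < δ ∧ ∀ u v : ℝ, u ∈ Icc p q →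
      v ∈ Icc p q → u ≤ v → |u - s0| < δ → |v - s0| < δ → |Φ v - Φ u| ≤ ε * (m v - m u) := by
    intro ε hε s0 hs0
    set a0 := Ks s0 (T s0) with ha0
    set b0 := Kt s0 (T s0) with hb0
    have hη : 0 < ε / 2 := by positivity
    set η := ε / 2 with hηdef
    have hstr : HasStrictFDerivAt (fun w : ℝ × ℝ => K w.1 w.2)
        (a0 • ContinuousLinearMap.fst ℝ ℝ ℝ + b0 • ContinuousLinearMap.snd ℝ ℝ ℝ) (s0, T s0) := by
      have hUn := hU.mem_nhds (hmem s0 hs0)
      have hA : ∀ᶠ z in 𝓝 (s0, T s0), HasFDerivAt (fun w : ℝ × ℝ => K w.1 w.2)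
          ((fun z : ℝ × ℝ => Ks z.1 z.2 • ContinuousLinearMap.fst ℝ ℝ ℝ +
          Kt z.1 z.2 • ContinuousLinearMap.snd ℝ ℝ ℝ) z) z := by
        filter_upwards [hUn] with z hz
        exact hK z hz
      have hB : ContinuousAt (fun z : ℝ × ℝ => Ks z.1 z.2 • ContinuousLinearMap.fst ℝ ℝ ℝ +
          Kt z.1 z.2 • ContinuousLinearMap.snd ℝ ℝ ℝ) (s0, T s0) :=
        ((hKs.continuousAt hUn).smul continuousAt_const).add
          ((hKt.continuousAt hUn).smul continuousAt_const)
      exact hasStrictFDerivAt_of_hasFDerivAt_of_continuousAt hA hB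
    have h1 := hstr.isLittleO.def hη
    have hmap : Tendsto (fun w : ℝ × ℝ => (((w.1, T w.1), (w.2, T w.2)) : (ℝ × ℝ) × (ℝ × ℝ)))
        (𝓝 (s0, s0)) (𝓝 ((s0, T s0), (s0, T s0))) := by
      have : Continuous (fun w : ℝ × ℝ => (((w.1, T w.1), (w.2, T w.2)) : (ℝ × ℝ) × (ℝ × ℝ))) := by
        fun_prop
      exact this.tendsto (s0, s0)
    have h1' := hmap.eventually h1
    rw [Metric.eventually_nhds_iff] at h1'
    obtain ⟨δ1, hδ1, h1''⟩ := h1'
    have h2 : ∀ᶠ r in 𝓝 s0, dist (Ks r (T r)) a0 < η := (hTS s0 hs0).eventually (Metric.ball_mem_nhds _ hη)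
    have h3 : ∀ᶠ r in 𝓝 s0, dist (Kt r (T r)) b0 < η := (hTK s0 hs0).eventually (Metric.ball_mem_nhds _ hη)
    rw [Metric.eventually_nhds_iff] at h2 h3
    obtain ⟨δ2, hδ2, h2'⟩ := h2
    obtain ⟨δ3, hδ3, h3'⟩ := h3
    refine ⟨min δ1 (min δ2 δ3), by positivity, ?_⟩
    intro u v hu hv huv hus hvs
    have hus1 := lt_of_lt_of_le hus (min_le_left _ _)
    have hvs1 := lt_of_lt_of_le hvs (min_le_left _ _)
    have hus2 := lt_of_lt_of_le hus ((min_le_right _ _).trans (min_le_left _ _))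
    have hvs2 := lt_of_lt_of_le hvs ((min_le_right _ _).trans (min_le_left _ _))
    have hus3 := lt_of_lt_of_le hus ((min_le_right _ _).trans (min_le_right _ _))
    have hvs3 := lt_of_lt_of_le hvs ((min_le_right _ _).trans (min_le_right _ _))
    have hbetween : ∀ r δ : ℝ, u ≤ r → r ≤ v → |u - s0| < δ → |v - s0| < δ → dist r s0 < δ := by
      intro r δ h1 h2 h3 h4
      rw [Real.dist_eq, abs_lt]
      rw [abs_lt] at h3 h4
      constructor <;> linarith
    -- first estimate
    have e1 : |K v (T v) - K u (T u) - (a0 * (v - u) + b0 * (T v - T u))| ≤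
        η * ((v - u) + |T v - T u|) := by
      have := h1'' (y := (v, u)) (by
        rw [Prod.dist_eq]
        exact max_lt hvs1 hus1)
      simp only [ContinuousLinearMap.add_apply, ContinuousLinearMap.smul_apply,
        ContinuousLinearMap.coe_fst', ContinuousLinearMap.coe_snd', Prod.fst_sub, Prod.snd_sub,
        smul_eq_mul, Real.norm_eq_abs, Prod.norm_def] at this
      refine this.trans (mul_le_mul_of_nonneg_left ?_ hη.le)
      rw [abs_of_nonneg (sub_nonneg.mpr huv)]
      apply max_le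
      · linarith [abs_nonneg (T v - T u)]
      · linarith
    -- second estimate
    have e2 : |(∫ r in p..v, Ks r (T r)) - (∫ r in p..u, Ks r (T r)) - a0 * (v - u)| ≤
        η * (v - u) := by
      rw [intervalIntegral.integral_interval_sub_left (hTSi p v (left_mem_Icc.mpr hpq.le) hv)
        (hTSi p u (left_mem_Icc.mpr hpq.le) hu)]
      have : (∫ r in u..v, Ks r (T r)) - a0 * (v - u) = ∫ r in u..v, (Ks r (T r) - a0) := by
        rw [intervalIntegral.integral_sub (hTSi u v hu hv) intervalIntegrable_const,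
          intervalIntegral.integral_const, smul_eq_mul]
        ring
      rw [this]
      have h4 := intervalIntegral.norm_integral_le_of_norm_le_const (a := u) (b := v) (C := η)
        (f := fun r => Ks r (T r) - a0) (by
          intro r hr
          rw [uIoc_of_le huv] at hr
          have := h2' (hbetween r δ2 hr.1.le hr.2 hus2 hvs2)
          rw [Real.dist_eq] at this
          exact this.le)
      rwa [abs_of_nonneg (sub_nonneg.mpr huv)] at h4
    set V := ∫ α in (0 : ℝ)..(2 * Real.pi), (if u < x α ∧ x α ≤ v then |dy α| else 0) with hV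
    have hVint : IntervalIntegrable (fun α => if u < x α ∧ x α ≤ v then |dy α| else 0) volume 0
        (2 * Real.pi) := ii_ite hx hdy.abs (fun s => u < s ∧ s ≤ v) measurableSet_Ioc _ _
    have hdint : IntervalIntegrable (fun α => if u < x α ∧ x α ≤ v then dy α else 0) volume 0
        (2 * Real.pi) := ii_ite hx hdy (fun s => u < s ∧ s ≤ v) measurableSet_Ioc _ _
    have hFint : IntervalIntegrable (fun α => if u < x α ∧ x α ≤ v then F α else 0) volume 0
        (2 * Real.pi) := ii_ite hx hF (fun s => u < s ∧ s ≤ v) measurableSet_Ioc _ _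
    have hmV : m v - m u = (v - u) + V := by
      have := Jx_sub hx hdy.abs huv
      show v + Jx x (fun α => |dy α|) v - (u + Jx x (fun α => |dy α|) u) = _
      rw [hV, ← this]
      ring
    have hTV : |T v - T u| ≤ 1 / 2 * V := by
      rw [hTd u v huv, abs_mul]
      have h5 : |(-(1/2) : ℝ)| = 1 / 2 := by norm_num
      rw [h5]
      apply mul_le_mul_of_nonneg_left _ (by norm_num)
      rw [← Real.norm_eq_abs, hV]
      apply intervalIntegral.norm_integral_le_of_norm_le hpi _ hVint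
      apply Eventually.of_forall
      intro α _
      by_cases h : u < x α ∧ x α ≤ v
      · rw [if_pos h, if_pos h, Real.norm_eq_abs]
      · rw [if_neg h, if_neg h, norm_zero]
    have e3 : |(Jx x F v - Jx x F u) + 2 * b0 * (T v - T u)| ≤ η * V := by
      rw [Jx_sub hx hF huv, hTd u v huv]
      have : (∫ α in (0 : ℝ)..(2 * Real.pi), if u < x α ∧ x α ≤ v then F α else 0) +
          2 * b0 * (-(1 / 2) * ∫ α in (0 : ℝ)..(2 * Real.pi), if u < x α ∧ x α ≤ v then dy α else 0)
          = ∫ α in (0 : ℝ)..(2 * Real.pi), ((if u < x α ∧ x α ≤ v then F α else 0) -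
            b0 * (if u < x α ∧ x α ≤ v then dy α else 0)) := by
        rw [intervalIntegral.integral_sub hFint (hdint.const_mul b0),
          intervalIntegral.integral_const_mul]
        ring
      rw [this, hV, ← intervalIntegral.integral_const_mul, ← Real.norm_eq_abs]
      apply intervalIntegral.norm_integral_le_of_norm_le hpi _ (hVint.const_mul η)
      apply Eventually.of_forall
      intro α _
      by_cases h : u < x α ∧ x α ≤ v
      · rw [if_pos h, if_pos h, if_pos h, Real.norm_eq_abs]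
        have h6 : F α - b0 * dy α = (Kt (x α) (T (x α)) - b0) * dy α := by
          show Kt (x α) (T (x α)) * dy α - b0 * dy α = _
          ring
        rw [h6, abs_mul]
        apply mul_le_mul_of_nonneg_right _ (abs_nonneg _)
        have := h3' (hbetween (x α) δ3 h.1.le h.2 hus3 hvs3)
        rw [Real.dist_eq] at this
        exact this.le
      · rw [if_neg h, if_neg h, if_neg h]; simp
    have hVn : 0 ≤ V := by
      have := abs_nonneg (T v - T u)
      linarith
    have hsum : Φ v - Φ u = (K v (T v) - K u (T u) - (a0 * (v - u) + b0 * (T v - T u))) -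
        ((∫ r in p..v, Ks r (T r)) - (∫ r in p..u, Ks r (T r)) - a0 * (v - u)) +
        (1/2) * ((Jx x F v - Jx x F u) + 2 * b0 * (T v - T u)) := by
      show (K v (T v) - (∫ r in p..v, Ks r (T r)) + (1/2) * Jx x F v) -
        (K u (T u) - (∫ r in p..u, Ks r (T r)) + (1/2) * Jx x F u) = _
      ring
    rw [hsum, hmV]
    have hε2 : ε = 2 * η := by rw [hηdef]; ring
    rw [hε2]
    have hη' := mul_le_mul_of_nonneg_left hTV hη.le
    rw [abs_le] at e1 e2 e3 ⊢
    have huv' : 0 ≤ η * V := mul_nonneg hη.le hVn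
    constructor <;> nlinarith
  have hmain := chain_glue Φ m p q hpq.le hloc
  have hJp : Jx x F p = 0 := by
    unfold Jx
    rw [intervalIntegral.integral_congr (g := fun _ => (0:ℝ))]
    · simp
    · intro α _
      exact if_neg (not_le.mpr (hxr α).1)
  have hJq : Jx x F q = ∫ α in (0 : ℝ)..(2 * Real.pi), F α := by
    unfold Jx
    apply intervalIntegral.integral_congr
    intro α _
    exact if_pos (hxr α).2.le
  have hq' : Φ q = K q (T q) - (∫ r in p..q, Ks r (T r)) + (1/2) * Jx x F q := rfl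
  have hp' : Φ p = K p (T p) - (∫ r in p..p, Ks r (T r)) + (1/2) * Jx x F p := rfl
  rw [hq', hp', hJp, hJq, intervalIntegral.integral_same] at hmain
  have hFF : ∫ α in (0 : ℝ)..(2 * Real.pi), F α =
    ∫ α in (0 : ℝ)..(2 * Real.pi), Kt (x α) (T (x α)) * dy α := rfl
  rw [hFF] at hmain
  linarith

/-! ### Twice -/

theorem twice_le (x dx F : ℝ → ℝ) (hx : ∀ α, HasDerivAt x (dx α) α) (hdx : Continuous dx)
    (hper : ∀ α, x (α + 2 * Real.pi) = x α) (hF : Continuous F) (hF0 : ∀ s, 0 ≤ F s) (a1 a2 : ℝ) :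
    2 * ∫ s in (x a1)..(x a2), F s ≤ ∫ α in (0 : ℝ)..(2 * Real.pi), F (x α) * |dx α| := by
  have hpi : 0 < 2 * Real.pi := by positivity
  have hxc : Continuous x := continuous_iff_continuousAt.mpr fun α => (hx α).continuousAt
  have hdper : ∀ α, dx (α + 2 * Real.pi) = dx α := by
    intro α
    have h1 : HasDerivAt (fun α => x (α + 2 * Real.pi)) (dx (α + 2 * Real.pi)) α :=
      HasDerivAt.comp_add_const α (2 * Real.pi) (hx (α + 2 * Real.pi))
    have h2 : (fun α => x (α + 2 * Real.pi)) = x := funext hper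
    rw [h2] at h1
    exact h1.unique (hx α)
  have hP : Continuous fun α => F (x α) * |dx α| := (hF.comp hxc).mul hdx.abs
  have hQ : Continuous fun α => F (x α) * dx α := (hF.comp hxc).mul hdx
  have hPper : Function.Periodic (fun α => F (x α) * |dx α|) (2 * Real.pi) := by
    intro α
    simp only [hper, hdper]
  have hshift := hPper.intervalIntegral_add_eq 0 a1
  rw [zero_add] at hshift
  rw [hshift]
  have hxper : Function.Periodic x (2 * Real.pi) := hper
  obtain ⟨b, hb, hxb⟩ := hxper.exists_mem_Ico hpi a2 a1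
  have hcv : ∀ a b : ℝ, ∫ α in a..b, F (x α) * dx α = ∫ s in (x a)..(x b), F s := fun a b =>
    intervalIntegral.integral_comp_mul_deriv (fun α _ => hx α) hdx.continuousOn hF
  have h1 : ∫ s in (x a1)..(x a2), F s ≤ ∫ α in a1..b, F (x α) * |dx α| := by
    rw [hxb, ← hcv]
    refine intervalIntegral.integral_mono_on hb.1 (hQ.intervalIntegrable _ _)
      (hP.intervalIntegrable _ _) fun α _ => ?_
    exact mul_le_mul_of_nonneg_left (le_abs_self _) (hF0 _)
  have h2 : ∫ s in (x a1)..(x a2), F s ≤ ∫ α in b..(a1 + 2 * Real.pi), F (x α) * |dx α| := by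
    have e : ∫ s in (x a1)..(x a2), F s =
        ∫ α in b..(a1 + 2 * Real.pi), -(F (x α) * dx α) := by
      rw [intervalIntegral.integral_neg, hcv, hper, ← hxb, ← intervalIntegral.integral_symm]
    rw [e]
    refine intervalIntegral.integral_mono_on hb.2.le (hQ.neg.intervalIntegrable _ _)
      (hP.intervalIntegrable _ _) fun α _ => ?_
    have h3 := mul_le_mul_of_nonneg_left (neg_abs_le (dx α)) (hF0 (x α))
    linarith
  have h3 : (∫ α in a1..b, F (x α) * |dx α|) + ∫ α in b..(a1 + 2 * Real.pi), F (x α) * |dx α| =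
      ∫ α in a1..(a1 + 2 * Real.pi), F (x α) * |dx α| :=
    intervalIntegral.integral_add_adjacent_intervals (hP.intervalIntegrable _ _)
      (hP.intervalIntegrable _ _)
  linarith

/-! ### Core -/

theorem core_UU_open : IsOpen UU := by
  have h1 : IsOpen {z : ℝ × ℝ | z.1 ≠ 0} := isOpen_ne_fun continuous_fst continuous_const
  have h2 : IsOpen {z : ℝ × ℝ | 0 < z.2} := isOpen_lt continuous_const continuous_snd
  exact h1.union h2

theorem core_sg_nonneg (θ : ℝ) (h : 0 ≤ θ) : 0 ≤ sg θ := by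
  unfold sg
  apply Real.sin_nonneg_of_nonneg_of_le_pi
  · have : 0 ≤ min θ Real.pi := le_min h Real.pi_pos.le
    linarith
  · have : min θ Real.pi ≤ Real.pi := min_le_right _ _
    linarith [Real.pi_pos]

theorem core_sg_zero : sg 0 = 0 := by
  unfold sg
  rw [min_eq_left Real.pi_pos.le]
  simp

theorem core_comp {K : ℝ → ℝ → ℝ} (hK : ContinuousOn (fun w : ℝ × ℝ => K w.1 w.2) UU)
    (T : ℝ → ℝ) (hT : Continuous T) (hmem : ∀ s, (s, T s) ∈ UU) :
    Continuous (fun s => K s (T s)) := by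
  have h1 : Continuous (fun s : ℝ => ((s, T s) : ℝ × ℝ)) := continuous_id.prodMk hT
  exact hK.comp_continuous h1 hmem

theorem core_circle (x dx dy : ℝ → ℝ) (hx : ∀ α, HasDerivAt x (dx α) α) (hdx : Continuous dx)
    (hdy : Continuous dy) (hper : ∀ α, x (α + 2 * Real.pi) = x α)
    (hdy0 : ∫ α in (0 : ℝ)..(2 * Real.pi), dy α = 0)
    (hT : Continuous (TQ x dy)) (hT0 : ∀ s, 0 ≤ TQ x dy s) (hTpos : 0 < TQ x dy 0) :
    2 * Real.pi ≤ ∫ α in (0 : ℝ)..(2 * Real.pi),
      Ph (x α) (TQ x dy (x α)) * (dx α ^ 2 + dy α ^ 2) := by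
  have hxc : Continuous x := continuous_iff_continuousAt.mpr fun α => (hx α).continuousAt
  have hpi : 0 < 2 * Real.pi := by linarith [Real.pi_pos]
  have hmem : ∀ s, (s, TQ x dy s) ∈ UU := by
    intro s
    by_cases h : s = 0
    · right
      subst h
      exact hTpos
    · left
      exact h
  have hsT : Continuous (fun s : ℝ => ((s, TQ x dy s) : ℝ × ℝ)) := continuous_id.prodMk hT
  have hKsc : Continuous (fun s : ℝ => KKs s (TQ x dy s)) := core_comp KKs_cont _ hT hmem
  have hKtc : Continuous (fun s : ℝ => KKt s (TQ x dy s)) := core_comp KKt_cont _ hT hmem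
  have hPhc : Continuous (fun s : ℝ => Ph s (TQ x dy s)) := core_comp Ph_cont _ hT hmem
  -- extrema
  have hP : Function.Periodic x (2 * Real.pi) := hper
  obtain ⟨a1, ha1, hmin0⟩ := isCompact_Icc.exists_isMinOn
    (⟨0, left_mem_Icc.mpr hpi.le⟩ : (Icc (0 : ℝ) (2 * Real.pi)).Nonempty) hxc.continuousOn
  obtain ⟨a2, ha2, hmax0⟩ := isCompact_Icc.exists_isMaxOn
    (⟨0, left_mem_Icc.mpr hpi.le⟩ : (Icc (0 : ℝ) (2 * Real.pi)).Nonempty) hxc.continuousOn
  have hmin : ∀ α, x a1 ≤ x α := by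
    intro α
    obtain ⟨β, hβ, he⟩ := hP.exists_mem_Ico₀ hpi α
    rw [he]
    exact hmin0 (Ico_subset_Icc_self hβ)
  have hmax : ∀ α, x α ≤ x a2 := by
    intro α
    obtain ⟨β, hβ, he⟩ := hP.exists_mem_Ico₀ hpi α
    rw [he]
    exact hmax0 (Ico_subset_Icc_self hβ)
  have hThi : ∀ s, x a2 ≤ s → TQ x dy s = 0 := by
    intro s hs
    unfold TQ
    have : ∀ α, (if s < x α then dy α else 0) = 0 := fun α =>
      if_neg (not_lt.mpr ((hmax α).trans hs))
    simp [this]
  have hTlo0 : ∀ s, s < x a1 → TQ x dy s = 0 := by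
    intro s hs
    unfold TQ
    have : ∀ α, (if s < x α then dy α else 0) = dy α := fun α =>
      if_pos (hs.trans_le (hmin α))
    simp only [this, hdy0, mul_zero]
  have hTlo : ∀ s, s ≤ x a1 → TQ x dy s = 0 := by
    intro s hs
    have h1 : EqOn (TQ x dy) (fun _ => (0 : ℝ)) (Iio (x a1)) := fun s hs => hTlo0 s hs
    have h2 := h1.closure hT continuous_const
    rw [closure_Iio] at h2
    exact h2 hs
  have hm : x a1 < 0 := by
    by_contra h
    have := hTlo 0 (not_lt.mp h)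
    linarith
  have hM : 0 < x a2 := by
    by_contra h
    have := hThi 0 (not_lt.mp h)
    linarith
  have hp0 : x a1 - 1 < 0 := by linarith
  have hq0 : 0 < x a2 + 1 := by linarith
  have hchain := chain_TQ x dy hxc hdy hT (x a1 - 1) (x a2 + 1) (by linarith)
    (fun α => ⟨by linarith [hmin α], by linarith [hmax α]⟩) KK KKs KKt UU core_UU_open
    (fun s _ => hmem s) KK_fderiv KKs_cont KKt_cont
  rw [hThi (x a2 + 1) (by linarith), hTlo (x a1 - 1) (by linarith), KK_pos _ hq0, KK_neg _ hp0]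
    at hchain
  -- the function F
  obtain ⟨F, hFdef⟩ : ∃ F : ℝ → ℝ, F = fun s => -KKs s (TQ x dy s) := ⟨_, rfl⟩
  have hFc : Continuous F := by rw [hFdef]; exact hKsc.neg
  have hF0 : ∀ s, 0 ≤ F s := by
    intro s
    rw [hFdef]
    simp only
    unfold KKs
    have h1 := core_sg_nonneg _ (hT0 s)
    have h2 := (Real.cosh_pos (s / 2)).le
    have h3 : 0 ≤ Real.sinh (s / 2) ^ 2 + sg (TQ x dy s) ^ 2 := by positivity
    have h4 : 0 ≤ (1 / 2 * Real.cosh (s / 2) * sg (TQ x dy s)) /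
        (Real.sinh (s / 2) ^ 2 + sg (TQ x dy s) ^ 2) := by positivity
    have h5 : -(-(1 / 2) * Real.cosh (s / 2) * sg (TQ x dy s) /
        (Real.sinh (s / 2) ^ 2 + sg (TQ x dy s) ^ 2)) =
        (1 / 2 * Real.cosh (s / 2) * sg (TQ x dy s)) /
        (Real.sinh (s / 2) ^ 2 + sg (TQ x dy s) ^ 2) := by ring
    rw [h5]
    exact h4
  have hFz : ∀ s, TQ x dy s = 0 → F s = 0 := by
    intro s hs
    rw [hFdef]
    simp only
    unfold KKs
    rw [hs, core_sg_zero]
    simp
  have hFlow : ∫ s in (x a1 - 1)..(x a1), F s = 0 := by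
    have h1 : ∫ s in (x a1 - 1)..(x a1), F s = ∫ s in (x a1 - 1)..(x a1), (0 : ℝ) := by
      apply intervalIntegral.integral_congr
      intro s hs
      rw [uIcc_of_le (by linarith)] at hs
      exact hFz s (hTlo s hs.2)
    rw [h1]
    simp
  have hFhigh : ∫ s in (x a2)..(x a2 + 1), F s = 0 := by
    have h1 : ∫ s in (x a2)..(x a2 + 1), F s = ∫ s in (x a2)..(x a2 + 1), (0 : ℝ) := by
      apply intervalIntegral.integral_congr
      intro s hs
      rw [uIcc_of_le (by linarith)] at hs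
      exact hFz s (hThi s hs.1)
    rw [h1]
    simp
  have hFi : ∀ a b, IntervalIntegrable F volume a b := fun a b => hFc.intervalIntegrable a b
  have hFsplit : ∫ s in (x a1 - 1)..(x a2 + 1), F s = ∫ s in (x a1)..(x a2), F s := by
    rw [← intervalIntegral.integral_add_adjacent_intervals (hFi (x a1 - 1) (x a1))
      (hFi (x a1) (x a2 + 1)),
      ← intervalIntegral.integral_add_adjacent_intervals (hFi (x a1) (x a2))
      (hFi (x a2) (x a2 + 1)), hFlow, hFhigh]
    ring
  have htw := twice_le x dx F hx hdx hper hFc hF0 a1 a2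
  have hneg : ∫ s in (x a1 - 1)..(x a2 + 1), KKs s (TQ x dy s) =
      -∫ s in (x a1 - 1)..(x a2 + 1), F s := by
    rw [← intervalIntegral.integral_neg]
    congr 1
    ext s
    rw [hFdef]
    simp
  rw [hneg, hFsplit] at hchain
  -- the pointwise estimate
  have hKtx : Continuous (fun α => KKt (x α) (TQ x dy (x α)) * dy α) :=
    (hKtc.comp hxc).mul hdy
  have hFx : Continuous (fun α => F (x α) * |dx α|) := (hFc.comp hxc).mul hdx.abs
  have hPx : Continuous (fun α => Ph (x α) (TQ x dy (x α)) * (dx α ^ 2 + dy α ^ 2)) :=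
    (hPhc.comp hxc).mul ((hdx.pow 2).add (hdy.pow 2))
  have hpt : ∀ α, 2 * (F (x α) * |dx α| + KKt (x α) (TQ x dy (x α)) * dy α) ≤
      1 + Ph (x α) (TQ x dy (x α)) * (dx α ^ 2 + dy α ^ 2) := by
    intro α
    have h1 := KK_sq (x α) (TQ x dy (x α)) (hmem (x α))
    have h2 : F (x α) ^ 2 + KKt (x α) (TQ x dy (x α)) ^ 2 = Ph (x α) (TQ x dy (x α)) := by
      rw [hFdef]
      simp only [neg_sq]
      exact h1
    rw [← h2]
    have h3 : |dx α| ^ 2 = dx α ^ 2 := sq_abs _
    rw [← h3]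
    nlinarith [sq_nonneg (F (x α) * dy α - KKt (x α) (TQ x dy (x α)) * |dx α|),
      sq_nonneg (F (x α) * |dx α| + KKt (x α) (TQ x dy (x α)) * dy α - 1)]
  have hle : ∫ α in (0 : ℝ)..(2 * Real.pi),
      2 * (F (x α) * |dx α| + KKt (x α) (TQ x dy (x α)) * dy α) ≤
      ∫ α in (0 : ℝ)..(2 * Real.pi),
      (1 + Ph (x α) (TQ x dy (x α)) * (dx α ^ 2 + dy α ^ 2)) :=
    intervalIntegral.integral_mono_on hpi.le
      ((hFx.add hKtx).const_mul 2 |>.intervalIntegrable _ _)
      ((continuous_const.add hPx).intervalIntegrable _ _) (fun α _ => hpt α)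
  rw [intervalIntegral.integral_const_mul, intervalIntegral.integral_add
    (hFx.intervalIntegrable _ _) (hKtx.intervalIntegrable _ _),
    intervalIntegral.integral_add (continuous_const.intervalIntegrable _ _)
    (hPx.intervalIntegrable _ _)] at hle
  simp only [intervalIntegral.integral_const, smul_eq_mul, mul_one, sub_zero] at hle
  linarith

/-! ### Subdiv -/

theorem subdiv (E : ℝ → ℝ) (c a b : ℝ) (ha : 0 < a) (hab : a ≤ b)
    (h : ∀ ε > 0, ∃ δ > 0, ∀ t1 ∈ Icc a b, ∀ t2 ∈ Icc a b, t1 ≤ t2 → t2 - t1 < δ →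
      (c - ε) * Real.log (t2 / t1) ≤ E t2 - E t1) :
    c * Real.log (b / a) ≤ E b - E a := by
  have key : ∀ ε > 0, (c - ε) * Real.log (b / a) ≤ E b - E a := by
    intro ε hε
    obtain ⟨δ, hδ, H⟩ := h ε hε
    have main : ∀ n : ℕ, ∀ t1 ∈ Icc a b, ∀ t2 ∈ Icc a b, t1 ≤ t2 → t2 - t1 < ((n : ℝ) + 1) * δ →
        (c - ε) * Real.log (t2 / t1) ≤ E t2 - E t1 := by
      intro n
      induction n with
      | zero =>
        intro t1 h1 t2 h2 h12 hd
        exact H t1 h1 t2 h2 h12 (by simpa using hd)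
      | succ n ih =>
        intro t1 h1 t2 h2 h12 hd
        push_cast at hd
        have hn1 : (0 : ℝ) < (n : ℝ) + 1 := by positivity
        have hn2 : (0 : ℝ) < (n : ℝ) + 1 + 1 := by positivity
        set t' := t2 - (t2 - t1) / ((n : ℝ) + 1 + 1) with ht'
        have e0 : 0 ≤ (t2 - t1) / ((n : ℝ) + 1 + 1) := div_nonneg (by linarith) hn2.le
        have e1 : (t2 - t1) / ((n : ℝ) + 1 + 1) < δ := by
          rw [div_lt_iff₀ hn2]; linarith
        have e2 : t' - t1 = (t2 - t1) / ((n : ℝ) + 1 + 1) * ((n : ℝ) + 1) := by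
          rw [ht']; field_simp; ring
        have e3 : t' - t1 < ((n : ℝ) + 1) * δ := by
          rw [e2]; nlinarith
        have e4 : t1 ≤ t' := by
          have : 0 ≤ t' - t1 := by rw [e2]; positivity
          linarith
        have e5 : t' ≤ t2 := by rw [ht']; linarith
        have ht'm : t' ∈ Icc a b := ⟨le_trans h1.1 e4, le_trans e5 h2.2⟩
        have f1 := ih t1 h1 t' ht'm e4 e3
        have f2 := H t' ht'm t2 h2 e5 (by rw [ht']; linarith)
        have p1 : 0 < t1 := lt_of_lt_of_le ha h1.1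
        have p' : 0 < t' := lt_of_lt_of_le p1 e4
        have p2 : 0 < t2 := lt_of_lt_of_le p' e5
        rw [Real.log_div p'.ne' p1.ne'] at f1
        rw [Real.log_div p2.ne' p'.ne'] at f2
        rw [Real.log_div p2.ne' p1.ne']
        linarith
    obtain ⟨n, hn⟩ := exists_nat_gt ((b - a) / δ)
    refine main n a ⟨le_refl _, hab⟩ b ⟨hab, le_refl _⟩ hab ?_
    rw [div_lt_iff₀ hδ] at hn
    linarith
  have hL : 0 ≤ Real.log (b / a) := Real.log_nonneg (by rw [le_div_iff₀ ha]; linarith)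
  apply le_of_forall_pos_le_add
  intro η hη
  have h1 := key (η / (Real.log (b / a) + 1)) (by positivity)
  have h2 : η / (Real.log (b / a) + 1) * Real.log (b / a) ≤ η := by
    rw [div_mul_eq_mul_div, div_le_iff₀ (by positivity)]
    nlinarith
  nlinarith

end AM287
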