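import Pool.Agent.Helper287.AM.Base

set_option autoImplicit false
set_option linter.all false

open MeasureTheory Set Filter Topology

namespace AM287

/-! ### CircA -/

section circ
variable (G : ℂ → ℂ) (hG : DifferentiableOn ℂ G (Metric.ball 0 1))
include hG

theorem circ_mem_aux (t α : ℝ) (ht : |t| < 1) :
    circleMap 0 t α ∈ Metric.ball (0:ℂ) 1 := by
  simpa [norm_circleMap_zero] using ht

theorem circ_deriv_aux (t : ℝ) (ht : |t| < 1) (α : ℝ) :
    HasDerivAt (fun α : ℝ => G (circleMap 0 t α)) (WW G t α * Complex.I) α := by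
  have h1 : HasDerivAt G (deriv G (circleMap 0 t α)) (circleMap 0 t α) :=
    (hG.differentiableAt (Metric.isOpen_ball.mem_nhds (circ_mem_aux G hG t α ht))).hasDerivAt
  have h2 := HasDerivAt.scomp α h1 (hasDerivAt_circleMap 0 t α)
  refine h2.congr_deriv ?_
  rw [smul_eq_mul, WW]
  ring

theorem xx_deriv (t : ℝ) (ht : |t| < 1) (α : ℝ) :
    HasDerivAt (xx G t) (-(WW G t α).im) α := by
  have h := Complex.reCLM.hasFDerivAt.comp_hasDerivAt α (circ_deriv_aux G hG t ht α)
  refine h.congr_deriv ?_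
  simp

theorem xx_cont : ContinuousOn (fun p : ℝ × ℝ => xx G p.1 p.2) (Ioo (-1 : ℝ) 1 ×ˢ univ) := by
  have hc : Continuous (fun p : ℝ × ℝ => circleMap 0 p.1 p.2) := by
    unfold circleMap; fun_prop
  have hm : MapsTo (fun p : ℝ × ℝ => circleMap 0 p.1 p.2) (Ioo (-1 : ℝ) 1 ×ˢ univ)
      (Metric.ball (0:ℂ) 1) := by
    rintro ⟨t, α⟩ ⟨h1, -⟩
    exact circ_mem_aux G hG t α (abs_lt.2 h1)
  exact Complex.continuous_re.comp_continuousOn (hG.continuousOn.comp hc.continuousOn hm)

theorem WW_cont : ContinuousOn (fun p : ℝ × ℝ => WW G p.1 p.2) (Ioo (-1 : ℝ) 1 ×ˢ univ) := by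
  have hc : Continuous (fun p : ℝ × ℝ => circleMap 0 p.1 p.2) := by
    unfold circleMap; fun_prop
  have hm : MapsTo (fun p : ℝ × ℝ => circleMap 0 p.1 p.2) (Ioo (-1 : ℝ) 1 ×ˢ univ)
      (Metric.ball (0:ℂ) 1) := by
    rintro ⟨t, α⟩ ⟨h1, -⟩
    exact circ_mem_aux G hG t α (abs_lt.2 h1)
  have hd : ContinuousOn (deriv G) (Metric.ball (0:ℂ) 1) :=
    (hG.deriv Metric.isOpen_ball).continuousOn
  exact hc.continuousOn.mul (hd.comp hc.continuousOn hm)

theorem WW_int (t : ℝ) (ht : |t| < 1) :
    ∫ α in (0 : ℝ)..(2 * Real.pi), (WW G t α).re = 0 := by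
  have hcont : Continuous (fun α : ℝ => WW G t α) := by
    have h := (WW_cont G hG).comp_continuous (f := fun α : ℝ => (t, α)) (by fun_prop)
      (fun α => ⟨abs_lt.1 ht, trivial⟩)
    exact h
  have hd : ∀ α : ℝ, HasDerivAt (fun α : ℝ => (G (circleMap 0 t α)).im) ((WW G t α).re) α := by
    intro α
    have h := Complex.imCLM.hasFDerivAt.comp_hasDerivAt α (circ_deriv_aux G hG t ht α)
    refine h.congr_deriv ?_
    simp
  rw [intervalIntegral.integral_eq_sub_of_hasDerivAt (fun α _ => hd α)
    ((Complex.continuous_re.comp hcont).intervalIntegrable _ _)]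
  have hp : circleMap 0 t (2 * Real.pi) = circleMap 0 t 0 := by
    have := periodic_circleMap 0 t 0
    simpa using this
  rw [hp, sub_self]

end circ

/-! ### CircB -/

section circ
variable (G : ℂ → ℂ) (hG : DifferentiableOn ℂ G (Metric.ball 0 1))
include hG

theorem xx_bdd (tb : ℝ) (h0 : 0 < tb) (h1 : tb < 1) :
    ∃ B0 : ℝ, ∀ t : ℝ, |t| ≤ tb → ∀ α, |xx G t α| < B0 := by
  have hc : ContinuousOn G (Metric.closedBall (0 : ℂ) tb) :=
    hG.continuousOn.mono (Metric.closedBall_subset_ball h1)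
  obtain ⟨C, hC⟩ := (isCompact_closedBall (0 : ℂ) tb).exists_bound_of_continuousOn hc
  refine ⟨C + 1, fun t ht α => ?_⟩
  have hm : circleMap 0 t α ∈ Metric.closedBall (0 : ℂ) tb := by
    rw [mem_closedBall_zero_iff, norm_circleMap_zero]
    exact ht
  have h2 := hC _ hm
  have h3 : |xx G t α| ≤ ‖G (circleMap 0 t α)‖ := Complex.abs_re_le_norm _
  linarith

theorem TT_hi (t s : ℝ) (ht : |t| < 1) (h : ∀ α, xx G t α ≤ s) : TT G t s = 0 := by
  unfold TT TQ
  have h1 : ∀ α, (if s < xx G t α then (WW G t α).re else 0) = 0 := by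
    intro α
    rw [if_neg (not_lt.mpr (h α))]
  simp [h1]

theorem TT_lo (t s : ℝ) (ht : |t| < 1) (h : ∀ α, s < xx G t α) : TT G t s = 0 := by
  unfold TT TQ
  have h1 : ∀ α, (if s < xx G t α then (WW G t α).re else 0) = (WW G t α).re := by
    intro α
    rw [if_pos (h α)]
  simp only [h1]
  rw [WW_int G hG t ht, mul_zero]

end circ

/-! ### CircC -/

section circ
variable (G : ℂ → ℂ) (hG : DifferentiableOn ℂ G (Metric.ball 0 1))
include hG

theorem AA_cont (F : ℝ → ℝ) (hF : Continuous F) :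
    ContinuousOn (fun r => AA G F r) (Ioo (-1 : ℝ) 1) := by
  intro r0 hr0
  obtain ⟨c, hc0, hc1⟩ : ∃ c, |r0| < c ∧ c < 1 := exists_between (abs_lt.mpr hr0)
  have hc : 0 < c := lt_of_le_of_lt (abs_nonneg _) hc0
  obtain ⟨φ, hφe⟩ : ∃ φ : ℝ → ℝ, φ = fun r => max (-c) (min c r) := ⟨_, rfl⟩
  have hφ : Continuous φ := by
    rw [hφe]
    exact continuous_const.max (continuous_const.min continuous_id)
  have hφm : ∀ r, φ r ∈ Ioo (-1 : ℝ) 1 := by
    intro r
    rw [hφe]
    constructor
    · exact lt_of_lt_of_le (by linarith) (le_max_left _ _)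
    · exact max_lt (by linarith) (lt_of_le_of_lt (min_le_left _ _) hc1)
  have hpair : Continuous (fun p : ℝ × ℝ => (φ p.1, p.2)) :=
    (hφ.comp continuous_fst).prodMk continuous_snd
  have hx : Continuous (fun p : ℝ × ℝ => xx G (φ p.1) p.2) :=
    (xx_cont G hG).comp_continuous hpair (fun p => ⟨hφm p.1, trivial⟩)
  have hW : Continuous (fun p : ℝ × ℝ => WW G (φ p.1) p.2) :=
    (WW_cont G hG).comp_continuous hpair (fun p => ⟨hφm p.1, trivial⟩)
  have hint : Continuous (fun r => ∫ α in (0 : ℝ)..(2 * Real.pi),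
      F (xx G (φ r) α) * ‖WW G (φ r) α‖ ^ 2) := by
    apply intervalIntegral.continuous_parametric_intervalIntegral_of_continuous'
    exact (hF.comp hx).mul (hW.norm.pow 2)
  have heq : (fun r => ∫ α in (0 : ℝ)..(2 * Real.pi),
      F (xx G (φ r) α) * ‖WW G (φ r) α‖ ^ 2) =ᶠ[𝓝 r0] fun r => AA G F r := by
    filter_upwards [isOpen_Ioo.mem_nhds (abs_lt.mp hc0)] with r hr
    have h1 : φ r = r := by
      rw [hφe]
      show max (-c) (min c r) = r
      rw [min_eq_right hr.2.le, max_eq_right hr.1.le]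
    rw [h1]
    rfl
  exact (hint.continuousAt.congr heq).continuousWithinAt

end circ

/-! ### Null -/

section circ
variable (G : ℂ → ℂ) (hG : DifferentiableOn ℂ G (Metric.ball 0 1))
include hG

theorem null_level (hd : deriv G 0 ≠ 0) (t : ℝ) (ht0 : 0 < t) (ht1 : t < 1) (s : ℝ) :
    ∀ᵐ α : ℝ, xx G t α ≠ s := by
  have habs : |t| < 1 := by rw [abs_of_pos ht0]; exact ht1
  have hmem : ∀ α : ℝ, circleMap 0 t α ∈ Metric.ball (0 : ℂ) 1 := by
    intro α
    rw [mem_ball_zero_iff, norm_circleMap_zero]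
    exact habs
  have han : AnalyticOnNhd ℝ (xx G t) Set.univ := by
    intro α _
    have h1 : AnalyticAt ℝ (circleMap 0 t) α := analyticOnNhd_circleMap 0 t α (Set.mem_univ _)
    have h2 : AnalyticAt ℂ G (circleMap 0 t α) :=
      hG.analyticAt (Metric.isOpen_ball.mem_nhds (hmem α))
    have h3 : AnalyticAt ℝ G (circleMap 0 t α) := h2.restrictScalars
    have h4 : AnalyticAt ℝ (fun z : ℂ => z.re) (G (circleMap 0 t α)) :=
      Complex.reCLM.analyticAt _
    have h5 : AnalyticAt ℝ (G ∘ circleMap 0 t) α := h3.comp h1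
    exact AnalyticAt.comp (g := fun z : ℂ => z.re) (f := G ∘ circleMap 0 t) h4 h5
  have hcst : AnalyticOnNhd ℝ (fun _ : ℝ => s) Set.univ := analyticOnNhd_const
  rcases han.eqOn_or_eventually_ne_of_preconnected hcst isPreconnected_univ with h | h
  · exfalso
    have hx : xx G t = fun _ => s := by
      funext α
      exact h (Set.mem_univ α)
    have him : ∀ α, (WW G t α).im = 0 := by
      intro α
      have h1 := xx_deriv G hG t habs α
      rw [hx] at h1
      have h2 := h1.unique (hasDerivAt_const α s)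
      linarith
    have hWc : Continuous (fun α : ℝ => WW G t α) := by
      have h1 := WW_cont G hG
      have h2 : Continuous (fun α : ℝ => ((t, α) : ℝ × ℝ)) := by fun_prop
      exact h1.comp_continuous h2 (fun α => ⟨⟨by linarith, ht1⟩, Set.mem_univ _⟩)
    have hsub : closure (Metric.ball (0 : ℂ) |t|) ⊆ Metric.ball (0 : ℂ) 1 := by
      refine (Metric.closure_ball_subset_closedBall).trans ?_
      exact Metric.closedBall_subset_ball habs
    have hdG : DifferentiableOn ℂ (deriv G) (Metric.ball 0 1) := hG.deriv Metric.isOpen_ball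
    have hdF : DifferentiableOn ℂ (fun z => (z * deriv G z) ^ 2) (Metric.ball 0 1) :=
      (differentiableOn_id.mul hdG).pow 2
    have hav1 := (hdF.mono hsub).diffContOnCl.circleAverage
    have hav2 := (hdG.mono hsub).diffContOnCl.circleAverage
    rw [Real.circleAverage_def] at hav1 hav2
    have hpi : (2 * Real.pi)⁻¹ ≠ 0 := by positivity
    have hint : ∫ α in (0 : ℝ)..(2 * Real.pi), (WW G t α) ^ 2 = 0 := by
      have h1 : (2 * Real.pi)⁻¹ • ∫ α in (0 : ℝ)..(2 * Real.pi), (WW G t α) ^ 2 = 0 := by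
        have h2 : ((0 : ℂ) * deriv G 0) ^ 2 = 0 := by simp
        rw [h2] at hav1
        exact hav1
      exact (smul_eq_zero.1 h1).resolve_left hpi
    have hre : ∫ α in (0 : ℝ)..(2 * Real.pi), (WW G t α).re ^ 2 = 0 := by
      have h1 : ∀ α, (WW G t α) ^ 2 = (((WW G t α).re ^ 2 : ℝ) : ℂ) := by
        intro α
        have h2 : WW G t α = ((WW G t α).re : ℂ) := by
          apply Complex.ext
          · simp
          · simp [him α]
        conv_lhs => rw [h2]
        push_cast
        rfl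
      simp only [h1] at hint
      rw [intervalIntegral.integral_ofReal] at hint
      exact_mod_cast hint
    have hzero : ∀ α ∈ Set.Icc (0 : ℝ) (2 * Real.pi), WW G t α = 0 := by
      intro α hα
      by_contra hne
      have hrne : (WW G t α).re ≠ 0 := by
        intro h0
        apply hne
        exact Complex.ext h0 (him α)
      have hc2 : Continuous (fun α : ℝ => (WW G t α).re ^ 2) :=
        (Complex.continuous_re.comp hWc).pow 2
      have hpos := intervalIntegral.integral_pos (a := (0 : ℝ)) (b := 2 * Real.pi)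
        (f := fun α : ℝ => (WW G t α).re ^ 2) (by positivity) hc2.continuousOn
        (fun x _ => sq_nonneg _) ⟨α, hα, by positivity⟩
      linarith
    have hdz : ∀ α ∈ Set.Icc (0 : ℝ) (2 * Real.pi), deriv G (circleMap 0 t α) = 0 := by
      intro α hα
      have h1 : circleMap 0 t α * deriv G (circleMap 0 t α) = 0 := hzero α hα
      rcases mul_eq_zero.1 h1 with h2 | h2
      · exfalso
        have h3 : ‖circleMap 0 t α‖ = 0 := by rw [h2, norm_zero]
        rw [norm_circleMap_zero, abs_of_pos ht0] at h3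
        exact ht0.ne' h3
      · exact h2
    have h0 : ∫ α in (0 : ℝ)..(2 * Real.pi), deriv G (circleMap 0 t α) = 0 := by
      rw [intervalIntegral.integral_congr (g := fun _ => (0 : ℂ))]
      · simp
      · intro α hα
        rw [Set.uIcc_of_le (by positivity)] at hα
        exact hdz α hα
    rw [h0, smul_zero] at hav2
    exact hd hav2.symm
  · have h1 := ae_restrict_le_codiscreteWithin (μ := volume) (MeasurableSet.univ : MeasurableSet (Set.univ : Set ℝ))
    rw [Measure.restrict_univ] at h1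
    exact h1 h

end circ

/-! ### Ttcont -/

section circ
variable (G : ℂ → ℂ) (hG : DifferentiableOn ℂ G (Metric.ball 0 1))
include hG

theorem ttc_xx_at {t : ℝ} (h0 : -1 < t) (h1 : t < 1) (α : ℝ) :
    ContinuousAt (fun p : ℝ × ℝ => xx G p.1 p.2) (t, α) :=
  (xx_cont G hG).continuousAt ((isOpen_Ioo.prod isOpen_univ).mem_nhds ⟨⟨h0, h1⟩, mem_univ _⟩)

theorem ttc_WW_at {t : ℝ} (h0 : -1 < t) (h1 : t < 1) (α : ℝ) :
    ContinuousAt (fun p : ℝ × ℝ => WW G p.1 p.2) (t, α) :=
  (WW_cont G hG).continuousAt ((isOpen_Ioo.prod isOpen_univ).mem_nhds ⟨⟨h0, h1⟩, mem_univ _⟩)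

theorem ttc_xx_line {t : ℝ} (h0 : -1 < t) (h1 : t < 1) : Continuous (xx G t) := by
  rw [continuous_iff_continuousAt]
  intro α
  have h2 : ContinuousAt (fun α : ℝ => (t, α)) α := by fun_prop
  exact ContinuousAt.comp (f := fun α : ℝ => (t, α)) (g := fun p : ℝ × ℝ => xx G p.1 p.2)
    (ttc_xx_at G hG h0 h1 α) h2

theorem ttc_WW_line {t : ℝ} (h0 : -1 < t) (h1 : t < 1) : Continuous (WW G t) := by
  rw [continuous_iff_continuousAt]
  intro α
  have h2 : ContinuousAt (fun α : ℝ => (t, α)) α := by fun_prop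
  exact ContinuousAt.comp (f := fun α : ℝ => (t, α)) (g := fun p : ℝ × ℝ => WW G p.1 p.2)
    (ttc_WW_at G hG h0 h1 α) h2

theorem ttc_at (hd : deriv G 0 ≠ 0) {t0 s0 : ℝ} (h0 : 0 < t0) (h1 : t0 < 1) :
    ContinuousAt (fun p : ℝ × ℝ => TT G p.1 p.2) (t0, s0) := by
  have hcomp : IsCompact (Icc (t0 / 2) ((t0 + 1) / 2) ×ˢ Icc (0:ℝ) (2 * Real.pi)) :=
    isCompact_Icc.prod isCompact_Icc
  have hsub : Icc (t0 / 2) ((t0 + 1) / 2) ×ˢ Icc (0:ℝ) (2 * Real.pi) ⊆
      Ioo (-1 : ℝ) 1 ×ˢ univ := by
    rintro ⟨t, α⟩ ⟨⟨ht1, ht2⟩, _⟩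
    simp only at ht1 ht2
    exact ⟨⟨by simp only; linarith, by simp only; linarith⟩, mem_univ _⟩
  obtain ⟨M, hM⟩ := hcomp.exists_bound_of_continuousOn ((WW_cont G hG).mono hsub)
  have hnb : ∀ᶠ p : ℝ × ℝ in 𝓝 (t0, s0), p.1 ∈ Ioo (t0 / 2) ((t0 + 1) / 2) := by
    have h2 : ContinuousAt (fun p : ℝ × ℝ => p.1) (t0, s0) := continuousAt_fst
    exact h2.eventually (isOpen_Ioo.mem_nhds ⟨by simp only; linarith, by simp only; linarith⟩)
  have hmain : Tendsto (fun p : ℝ × ℝ => ∫ α in (0 : ℝ)..(2 * Real.pi),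
      if p.2 < xx G p.1 α then (WW G p.1 α).re else 0) (𝓝 (t0, s0))
      (𝓝 (∫ α in (0 : ℝ)..(2 * Real.pi), if s0 < xx G t0 α then (WW G t0 α).re else 0)) := by
    refine intervalIntegral.tendsto_integral_filter_of_dominated_convergence (fun _ => M)
      ?_ ?_ ?_ ?_
    · filter_upwards [hnb] with p hp
      have hx := (ttc_xx_line G hG (by linarith [hp.1] : -1 < p.1) (by linarith [hp.2])).measurable
      have hw := (ttc_WW_line G hG (by linarith [hp.1] : -1 < p.1) (by linarith [hp.2])).measurable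
      exact (Measurable.ite (measurableSet_lt measurable_const hx)
        (Complex.measurable_re.comp hw) measurable_const).aestronglyMeasurable
    · filter_upwards [hnb] with p hp
      refine Filter.Eventually.of_forall fun α hα => ?_
      rw [uIoc_of_le (by positivity)] at hα
      have h2 : ‖WW G p.1 α‖ ≤ M :=
        hM (p.1, α) ⟨⟨hp.1.le, hp.2.le⟩, ⟨hα.1.le, hα.2⟩⟩
      have h3 : 0 ≤ M := le_trans (norm_nonneg _) h2
      split_ifs
      · exact le_trans (Complex.abs_re_le_norm _) h2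
      · simpa using h3
    · exact intervalIntegrable_const
    · filter_upwards [null_level G hG hd t0 h0 h1 s0] with α hα _
      have hc1 : ContinuousAt (fun p : ℝ × ℝ => xx G p.1 α) (t0, s0) := by
        have h2 : ContinuousAt (fun p : ℝ × ℝ => (p.1, α)) (t0, s0) := by fun_prop
        exact ContinuousAt.comp (f := fun p : ℝ × ℝ => (p.1, α))
          (g := fun p : ℝ × ℝ => xx G p.1 p.2) (ttc_xx_at G hG (by linarith) h1 α) h2
      have hc2 : ContinuousAt (fun p : ℝ × ℝ => WW G p.1 α) (t0, s0) := by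
        have h2 : ContinuousAt (fun p : ℝ × ℝ => (p.1, α)) (t0, s0) := by fun_prop
        exact ContinuousAt.comp (f := fun p : ℝ × ℝ => (p.1, α))
          (g := fun p : ℝ × ℝ => WW G p.1 p.2) (ttc_WW_at G hG (by linarith) h1 α) h2
      have hc3 : ContinuousAt (fun p : ℝ × ℝ => xx G p.1 α - p.2) (t0, s0) :=
        hc1.sub continuousAt_snd
      rcases lt_or_gt_of_ne hα with h | h
      · -- xx < s0
        rw [if_neg (not_lt.2 h.le)]
        have h4 : ∀ᶠ p : ℝ × ℝ in 𝓝 (t0, s0), xx G p.1 α - p.2 < 0 :=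
          hc3.eventually (gt_mem_nhds (by simp only; linarith))
        refine tendsto_const_nhds.congr' ?_
        filter_upwards [h4] with p hp
        rw [if_neg (by linarith)]
      · rw [if_pos h]
        have h4 : ∀ᶠ p : ℝ × ℝ in 𝓝 (t0, s0), 0 < xx G p.1 α - p.2 :=
          hc3.eventually (lt_mem_nhds (by simp only; linarith))
        have h5 : Tendsto (fun p : ℝ × ℝ => (WW G p.1 α).re) (𝓝 (t0, s0))
            (𝓝 ((WW G t0 α).re)) := (Complex.continuous_re.tendsto _).comp hc2
        refine h5.congr' ?_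
        filter_upwards [h4] with p hp
        rw [if_pos (by linarith)]
  have h2 := hmain.const_mul (1 / 2)
  exact h2

theorem TT_cont (hd : deriv G 0 ≠ 0) :
    ContinuousOn (fun p : ℝ × ℝ => TT G p.1 p.2) (Ioo (0 : ℝ) 1 ×ˢ univ) := by
  rintro ⟨t0, s0⟩ ⟨⟨h0, h1⟩, _⟩
  exact (ttc_at G hG hd h0 h1).continuousWithinAt

theorem TT_cont1 (hd : deriv G 0 ≠ 0) (t : ℝ) (h0 : 0 < t) (h1 : t < 1) :
    Continuous (fun s => TT G t s) := by
  rw [continuous_iff_continuousAt]
  intro s
  have h2 : ContinuousAt (fun s : ℝ => (t, s)) s := by fun_prop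
  exact ContinuousAt.comp (f := fun s : ℝ => (t, s)) (g := fun p : ℝ × ℝ => TT G p.1 p.2)
    (ttc_at G hG hd h0 h1) h2

end circ

/-! ### TTJ -/

section circ
variable (G : ℂ → ℂ) (hG : DifferentiableOn ℂ G (Metric.ball 0 1))
include hG

theorem TT_J (F : ℝ → ℝ) (hF : Continuous F) (t B : ℝ) (ht : |t| < 1)
    (hB : ∀ α, |xx G t α| < B) :
    2 * ∫ s in (-B)..B, F s * TT G t s
      = ∫ α in (0 : ℝ)..(2 * Real.pi), (∫ u in (0 : ℝ)..(xx G t α), F u) * (WW G t α).re := by
  have htI : t ∈ Ioo (-1 : ℝ) 1 := abs_lt.1 ht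
  have hx : Continuous (fun α => xx G t α) := by
    have h1 := (xx_cont G hG).comp_continuous (f := fun α : ℝ => (t, α)) (by fun_prop)
      (fun α => ⟨htI, mem_univ _⟩)
    exact h1
  have hw : Continuous (fun α => (WW G t α).re) := by
    have h1 := (WW_cont G hG).comp_continuous (f := fun α : ℝ => (t, α)) (by fun_prop)
      (fun α => ⟨htI, mem_univ _⟩)
    exact Complex.continuous_re.comp h1
  have hB0 : -B ≤ B := by
    have h1 := hB 0
    have h2 := abs_nonneg (xx G t 0)
    linarith
  have h2pi : (0 : ℝ) ≤ 2 * Real.pi := by positivity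
  -- Fubini
  have hint : Integrable (Function.uncurry
      (fun s α : ℝ => if s < xx G t α then F s * (WW G t α).re else 0))
      ((volume.restrict (Ioc (-B) B)).prod (volume.restrict (Ioc 0 (2 * Real.pi)))) := by
    rw [Measure.prod_restrict]
    have h1 : Function.uncurry (fun s α : ℝ => if s < xx G t α then F s * (WW G t α).re else 0) =
        {p : ℝ × ℝ | p.1 < xx G t p.2}.indicator (fun p => F p.1 * (WW G t p.2).re) := by
      funext p
      obtain ⟨s, α⟩ := p
      by_cases h : s < xx G t α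
      · rw [indicator_of_mem (show (s, α) ∈ {p : ℝ × ℝ | p.1 < xx G t p.2} from h)]
        simp [Function.uncurry, h]
      · rw [indicator_of_notMem (show (s, α) ∉ {p : ℝ × ℝ | p.1 < xx G t p.2} from h)]
        simp [Function.uncurry, h]
    rw [h1]
    apply Integrable.indicator
    · have h2 : Continuous (fun p : ℝ × ℝ => F p.1 * (WW G t p.2).re) :=
        (hF.comp continuous_fst).mul (hw.comp continuous_snd)
      have h3 : IntegrableOn (fun p : ℝ × ℝ => F p.1 * (WW G t p.2).re)
          (Icc (-B) B ×ˢ Icc 0 (2 * Real.pi)) (volume.prod volume) :=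
        h2.continuousOn.integrableOn_compact (isCompact_Icc.prod isCompact_Icc)
      exact h3.mono_set (prod_mono Ioc_subset_Icc_self Ioc_subset_Icc_self)
    · exact (isOpen_lt continuous_fst (hx.comp continuous_snd)).measurableSet
  have hswap := integral_integral_swap hint
  -- the left-hand side
  have hL : 2 * ∫ s in (-B)..B, F s * TT G t s =
      ∫ s in Ioc (-B) B, ∫ α in Ioc 0 (2 * Real.pi),
        (if s < xx G t α then F s * (WW G t α).re else 0) := by
    rw [intervalIntegral.integral_of_le hB0, ← integral_const_mul]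
    congr 1
    funext s
    unfold TT TQ
    rw [intervalIntegral.integral_of_le h2pi]
    rw [show 2 * (F s * (1 / 2 * ∫ α in Ioc 0 (2 * Real.pi),
        if s < xx G t α then (WW G t α).re else 0)) =
        F s * ∫ α in Ioc 0 (2 * Real.pi), (if s < xx G t α then (WW G t α).re else 0) by ring,
      ← integral_const_mul]
    congr 1
    funext α
    by_cases h : s < xx G t α
    · simp [h]
    · simp [h]
  have hR : ∀ α, ∫ s in Ioc (-B) B, (if s < xx G t α then F s * (WW G t α).re else 0) =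
      ((∫ u in (0 : ℝ)..(xx G t α), F u) - ∫ u in (0 : ℝ)..(-B), F u) * (WW G t α).re := by
    intro α
    have hα := abs_lt.1 (hB α)
    have h1 : (fun s => if s < xx G t α then F s * (WW G t α).re else 0) =
        (Iio (xx G t α)).indicator (fun s => F s * (WW G t α).re) := by
      funext s
      by_cases h : s < xx G t α
      · rw [indicator_of_mem (show s ∈ Iio (xx G t α) from h), if_pos h]
      · rw [indicator_of_notMem (show s ∉ Iio (xx G t α) from h), if_neg h]
    rw [h1, setIntegral_indicator measurableSet_Iio]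
    have h2 : Ioc (-B) B ∩ Iio (xx G t α) = Ioo (-B) (xx G t α) := by
      ext s
      simp only [mem_inter_iff, mem_Ioc, mem_Iio, mem_Ioo]
      constructor
      · rintro ⟨⟨h3, h4⟩, h5⟩
        exact ⟨h3, h5⟩
      · rintro ⟨h3, h4⟩
        exact ⟨⟨h3, (h4.trans hα.2).le⟩, h4⟩
    rw [h2, ← integral_Ioc_eq_integral_Ioo, ← intervalIntegral.integral_of_le hα.1.le,
      intervalIntegral.integral_mul_const,
      intervalIntegral.integral_interval_sub_left (hF.intervalIntegrable _ _)
        (hF.intervalIntegrable _ _)]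
  rw [hL, hswap]
  simp only [hR]
  rw [← intervalIntegral.integral_of_le h2pi]
  have hH : Continuous (fun b : ℝ => ∫ u in (0 : ℝ)..b, F u) :=
    intervalIntegral.continuous_primitive (fun a b => hF.intervalIntegrable a b) 0
  have h3 : ∫ α in (0 : ℝ)..(2 * Real.pi), ((∫ u in (0 : ℝ)..(xx G t α), F u) -
      ∫ u in (0 : ℝ)..(-B), F u) * (WW G t α).re =
      (∫ α in (0 : ℝ)..(2 * Real.pi), (∫ u in (0 : ℝ)..(xx G t α), F u) * (WW G t α).re) -
      ∫ α in (0 : ℝ)..(2 * Real.pi), (∫ u in (0 : ℝ)..(-B), F u) * (WW G t α).re := by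
    rw [← intervalIntegral.integral_sub]
    · congr 1
      funext α
      ring
    · exact ((hH.comp hx).mul hw).intervalIntegrable _ _
    · exact (continuous_const.mul hw).intervalIntegrable _ _
  rw [h3, intervalIntegral.integral_const_mul, WW_int G hG t ht, mul_zero, sub_zero]

end circ

/-! ### Jder -/

section circ
variable (G : ℂ → ℂ) (hG : DifferentiableOn ℂ G (Metric.ball 0 1))
include hG

omit hG in
theorem J_deriv_ball {r : ℝ} (hr : |r| < 1) (α : ℝ) :
    circleMap 0 r α ∈ Metric.ball (0 : ℂ) 1 := by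
  rw [mem_ball_zero_iff, norm_circleMap_zero]
  exact hr

theorem J_deriv_G {z : ℂ} (hz : z ∈ Metric.ball (0 : ℂ) 1) : HasDerivAt G (deriv G z) z :=
  (hG.differentiableAt (Metric.isOpen_ball.mem_nhds hz)).hasDerivAt

theorem J_deriv_dG {z : ℂ} (hz : z ∈ Metric.ball (0 : ℂ) 1) :
    HasDerivAt (deriv G) (deriv (deriv G) z) z :=
  ((hG.deriv Metric.isOpen_ball).differentiableAt (Metric.isOpen_ball.mem_nhds hz)).hasDerivAt

omit hG in
theorem J_deriv_circ (r α : ℝ) :
    HasDerivAt (fun r : ℝ => circleMap 0 r α) (Complex.exp (α * Complex.I)) r := by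
  have h := ((hasDerivAt_id r).ofReal_comp).mul_const (Complex.exp (α * Complex.I))
  simpa [circleMap] using h

theorem J_deriv_x {r : ℝ} (hr : |r| < 1) (α : ℝ) :
    HasDerivAt (fun r => xx G r α)
      (deriv G (circleMap 0 r α) * Complex.exp (α * Complex.I)).re r := by
  have h1 : HasDerivAt (fun r : ℝ => G (circleMap 0 r α))
      (deriv G (circleMap 0 r α) * Complex.exp (α * Complex.I)) r :=
    (J_deriv_G G hG (J_deriv_ball hr α)).comp r (J_deriv_circ r α)
  exact Complex.reCLM.hasFDerivAt.comp_hasDerivAt r h1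

theorem J_deriv_W {r : ℝ} (hr : |r| < 1) (α : ℝ) :
    HasDerivAt (fun r => (WW G r α).re)
      (Complex.exp (α * Complex.I) * deriv G (circleMap 0 r α) + circleMap 0 r α *
        (deriv (deriv G) (circleMap 0 r α) * Complex.exp (α * Complex.I))).re r := by
  have h1 : HasDerivAt (fun r : ℝ => deriv G (circleMap 0 r α))
      (deriv (deriv G) (circleMap 0 r α) * Complex.exp (α * Complex.I)) r :=
    HasDerivAt.comp (h₂ := deriv G) r (J_deriv_dG G hG (J_deriv_ball hr α)) (J_deriv_circ r α)
  have h2 := (J_deriv_circ r α).mul h1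
  exact Complex.reCLM.hasFDerivAt.comp_hasDerivAt r h2

theorem J_deriv_Wα {r : ℝ} (hr : |r| < 1) (α : ℝ) :
    HasDerivAt (fun α => (WW G r α).im)
      (circleMap 0 r α * deriv G (circleMap 0 r α) + circleMap 0 r α *
        (deriv (deriv G) (circleMap 0 r α) * circleMap 0 r α)).re α := by
  have h1 : HasDerivAt (fun α : ℝ => deriv G (circleMap 0 r α))
      (deriv (deriv G) (circleMap 0 r α) * (circleMap 0 r α * Complex.I)) α :=
    HasDerivAt.comp (h₂ := deriv G) α (J_deriv_dG G hG (J_deriv_ball hr α))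
      (hasDerivAt_circleMap 0 r α)
  have h2 := (hasDerivAt_circleMap 0 r α).mul h1
  have h3 := Complex.imCLM.hasFDerivAt.comp_hasDerivAt α h2
  have e : Complex.imCLM (circleMap 0 r α * Complex.I * deriv G (circleMap 0 r α) +
      circleMap 0 r α * (deriv (deriv G) (circleMap 0 r α) * (circleMap 0 r α * Complex.I))) =
      (circleMap 0 r α * deriv G (circleMap 0 r α) + circleMap 0 r α *
        (deriv (deriv G) (circleMap 0 r α) * circleMap 0 r α)).re := by
    have e1 : circleMap 0 r α * Complex.I * deriv G (circleMap 0 r α) +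
      circleMap 0 r α * (deriv (deriv G) (circleMap 0 r α) * (circleMap 0 r α * Complex.I)) =
      (circleMap 0 r α * deriv G (circleMap 0 r α) + circleMap 0 r α *
        (deriv (deriv G) (circleMap 0 r α) * circleMap 0 r α)) * Complex.I := by ring
    rw [e1, Complex.imCLM_apply, Complex.mul_I_im]
  rw [e] at h3
  exact h3

theorem J_deriv (F : ℝ → ℝ) (hF : Continuous F) (t : ℝ) (h0 : 0 < t) (h1 : t < 1) :
    HasDerivAt (fun r => ∫ α in (0 : ℝ)..(2 * Real.pi),
      (∫ u in (0 : ℝ)..(xx G r α), F u) * (WW G r α).re) (AA G F t / t) t := by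
  have hH : ∀ S : ℝ, HasDerivAt (fun S => ∫ u in (0 : ℝ)..S, F u) (F S) S := fun S =>
    intervalIntegral.integral_hasDerivAt_right (hF.intervalIntegrable _ _)
      (hF.stronglyMeasurableAtFilter _ _) hF.continuousAt
  have hHc : Continuous (fun S => ∫ u in (0 : ℝ)..S, F u) :=
    continuous_iff_continuousAt.mpr fun S => (hH S).continuousAt
  set D : Set (ℝ × ℝ) := Ioo (-1 : ℝ) 1 ×ˢ univ with hD
  have habs : ∀ r : ℝ, r ∈ Ioo (-1 : ℝ) 1 → |r| < 1 := fun r hr => abs_lt.mpr hr
  have hcirc : Continuous (fun p : ℝ × ℝ => circleMap 0 p.1 p.2) := by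
    unfold circleMap
    fun_prop
  have hmaps : MapsTo (fun p : ℝ × ℝ => circleMap 0 p.1 p.2) D (Metric.ball (0 : ℂ) 1) :=
    fun p hp => J_deriv_ball (habs p.1 hp.1) p.2
  have hcG : ContinuousOn (fun p : ℝ × ℝ => deriv G (circleMap 0 p.1 p.2)) D :=
    (hG.deriv Metric.isOpen_ball).continuousOn.comp hcirc.continuousOn hmaps
  have hcdG : ContinuousOn (fun p : ℝ × ℝ => deriv (deriv G) (circleMap 0 p.1 p.2)) D :=
    ((hG.deriv Metric.isOpen_ball).deriv Metric.isOpen_ball).continuousOn.comp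
      hcirc.continuousOn hmaps
  have hE : Continuous (fun p : ℝ × ℝ => Complex.exp (p.2 * Complex.I)) := by fun_prop
  have hD1 : ContinuousOn (fun p : ℝ × ℝ =>
      (deriv G (circleMap 0 p.1 p.2) * Complex.exp (p.2 * Complex.I)).re) D :=
    Complex.continuous_re.comp_continuousOn (hcG.mul hE.continuousOn)
  have hD2 : ContinuousOn (fun p : ℝ × ℝ =>
      (Complex.exp (p.2 * Complex.I) * deriv G (circleMap 0 p.1 p.2) + circleMap 0 p.1 p.2 *
        (deriv (deriv G) (circleMap 0 p.1 p.2) * Complex.exp (p.2 * Complex.I))).re) D :=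
    Complex.continuous_re.comp_continuousOn ((hE.continuousOn.mul hcG).add
      (hcirc.continuousOn.mul (hcdG.mul hE.continuousOn)))
  have hxc : ContinuousOn (fun p : ℝ × ℝ => xx G p.1 p.2) D := xx_cont G hG
  have hWc : ContinuousOn (fun p : ℝ × ℝ => (WW G p.1 p.2).re) D :=
    Complex.continuous_re.comp_continuousOn (WW_cont G hG)
  have hWic : ContinuousOn (fun p : ℝ × ℝ => (WW G p.1 p.2).im) D :=
    Complex.continuous_im.comp_continuousOn (WW_cont G hG)
  have hΦ : ContinuousOn (fun p : ℝ × ℝ =>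
      (∫ u in (0 : ℝ)..(xx G p.1 p.2), F u) * (WW G p.1 p.2).re) D :=
    (hHc.comp_continuousOn hxc).mul hWc
  have hΦ' : ContinuousOn (fun p : ℝ × ℝ =>
      F (xx G p.1 p.2) * (deriv G (circleMap 0 p.1 p.2) * Complex.exp (p.2 * Complex.I)).re *
        (WW G p.1 p.2).re + (∫ u in (0 : ℝ)..(xx G p.1 p.2), F u) *
      (Complex.exp (p.2 * Complex.I) * deriv G (circleMap 0 p.1 p.2) + circleMap 0 p.1 p.2 *
        (deriv (deriv G) (circleMap 0 p.1 p.2) * Complex.exp (p.2 * Complex.I))).re) D :=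
    (((hF.comp_continuousOn hxc).mul hD1).mul hWc).add ((hHc.comp_continuousOn hxc).mul hD2)
  have hslice : ∀ {f : ℝ × ℝ → ℝ}, ContinuousOn f D → ∀ r ∈ Ioo (-1 : ℝ) 1,
      Continuous fun α => f (r, α) := by
    intro f hf r hr
    exact hf.comp_continuous (by fun_prop) fun α => ⟨hr, mem_univ _⟩
  have ht : t ∈ Ioo (-1 : ℝ) 1 := ⟨by linarith, h1⟩
  obtain ⟨δ, hδ, hδt⟩ : ∃ δ > 0, Icc (t - δ) (t + δ) ⊆ Ioo (-1 : ℝ) 1 := by
    refine ⟨(1 - t) / 2, by linarith, fun r hr => ⟨?_, ?_⟩⟩
    · have := hr.1; linarith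
    · have := hr.2; linarith
  have hKc : IsCompact (Icc (t - δ) (t + δ) ×ˢ Icc (0 : ℝ) (2 * Real.pi)) :=
    isCompact_Icc.prod isCompact_Icc
  obtain ⟨C, hC⟩ := hKc.exists_bound_of_continuousOn
    (hΦ'.mono (prod_mono hδt (subset_univ _)))
  have hpi : (0 : ℝ) ≤ 2 * Real.pi := by positivity
  have key := (intervalIntegral.hasDerivAt_integral_of_dominated_loc_of_deriv_le
    (μ := volume) (a := 0) (b := 2 * Real.pi) (bound := fun _ => C)
    (F := fun r α => (∫ u in (0 : ℝ)..(xx G r α), F u) * (WW G r α).re)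
    (F' := fun r α => F (xx G r α) *
        (deriv G (circleMap 0 r α) * Complex.exp (α * Complex.I)).re *
        (WW G r α).re + (∫ u in (0 : ℝ)..(xx G r α), F u) *
      (Complex.exp (α * Complex.I) * deriv G (circleMap 0 r α) + circleMap 0 r α *
        (deriv (deriv G) (circleMap 0 r α) * Complex.exp (α * Complex.I))).re)
    (x₀ := t) (s := Icc (t - δ) (t + δ)) (Icc_mem_nhds (by linarith) (by linarith))
    (by
      filter_upwards [Ioo_mem_nhds ht.1 ht.2] with r hr
      exact (hslice hΦ r hr).aestronglyMeasurable)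
    ((hslice hΦ t ht).intervalIntegrable _ _)
    (hslice hΦ' t ht).aestronglyMeasurable
    (by
      refine Filter.Eventually.of_forall fun α hα r hr => ?_
      rw [uIoc_of_le hpi] at hα
      exact hC (r, α) ⟨hr, ⟨hα.1.le, hα.2⟩⟩)
    intervalIntegrable_const
    (by
      refine Filter.Eventually.of_forall fun α _ r hr => ?_
      have hr1 : |r| < 1 := habs r (hδt hr)
      exact (((hH _).comp r (J_deriv_x G hG hr1 α))).mul (J_deriv_W G hG hr1 α))).2
  -- evaluation of the derivative
  have ht1 : |t| < 1 := habs t ht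
  have hz : ∀ α : ℝ, circleMap 0 t α = (t : ℂ) * Complex.exp (α * Complex.I) := fun α => by
    simp [circleMap]
  have hxα : Continuous fun α => xx G t α := hslice hxc t ht
  have hWα : Continuous fun α => (WW G t α).re := hslice hWc t ht
  have hWiα : Continuous fun α => (WW G t α).im := hslice hWic t ht
  have hVα : Continuous fun α => (circleMap 0 t α * deriv G (circleMap 0 t α) + circleMap 0 t α *
        (deriv (deriv G) (circleMap 0 t α) * circleMap 0 t α)).re := by
    have h2 : ContinuousOn (fun p : ℝ × ℝ => (circleMap 0 p.1 p.2 *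
        deriv G (circleMap 0 p.1 p.2) + circleMap 0 p.1 p.2 *
        (deriv (deriv G) (circleMap 0 p.1 p.2) * circleMap 0 p.1 p.2)).re) D :=
      Complex.continuous_re.comp_continuousOn ((hcirc.continuousOn.mul hcG).add
        (hcirc.continuousOn.mul (hcdG.mul hcirc.continuousOn)))
    exact hslice h2 t ht
  have hftc : ∫ α in (0 : ℝ)..(2 * Real.pi), (F (xx G t α) * (-(WW G t α).im) * (WW G t α).im +
      (∫ u in (0 : ℝ)..(xx G t α), F u) *
      (circleMap 0 t α * deriv G (circleMap 0 t α) + circleMap 0 t α *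
        (deriv (deriv G) (circleMap 0 t α) * circleMap 0 t α)).re) = 0 := by
    have h2 := intervalIntegral.integral_eq_sub_of_hasDerivAt (a := 0) (b := 2 * Real.pi)
      (f := fun α => (∫ u in (0 : ℝ)..(xx G t α), F u) * (WW G t α).im)
      (f' := fun α => F (xx G t α) * (-(WW G t α).im) * (WW G t α).im +
        (∫ u in (0 : ℝ)..(xx G t α), F u) *
        (circleMap 0 t α * deriv G (circleMap 0 t α) + circleMap 0 t α *
          (deriv (deriv G) (circleMap 0 t α) * circleMap 0 t α)).re)
      (fun α _ => ((hH _).comp α (xx_deriv G hG t ht1 α)).mul (J_deriv_Wα G hG ht1 α))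
      ((((hF.comp hxα).mul hWiα.neg).mul hWiα).add ((hHc.comp hxα).mul hVα)
        |>.intervalIntegrable _ _)
    refine h2.trans ?_
    have hper : circleMap 0 t (2 * Real.pi) = circleMap 0 t 0 := by
      have := periodic_circleMap 0 t 0
      rwa [zero_add] at this
    simp only [xx, WW, hper, sub_self]
  have htt : t * (AA G F t / t) = AA G F t := by field_simp
  have hgoal : t * (AA G F t / t) = t * ∫ α in (0 : ℝ)..(2 * Real.pi), (F (xx G t α) *
        (deriv G (circleMap 0 t α) * Complex.exp (α * Complex.I)).re *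
        (WW G t α).re + (∫ u in (0 : ℝ)..(xx G t α), F u) *
      (Complex.exp (α * Complex.I) * deriv G (circleMap 0 t α) + circleMap 0 t α *
        (deriv (deriv G) (circleMap 0 t α) * Complex.exp (α * Complex.I))).re) := by
    rw [htt, ← intervalIntegral.integral_const_mul, AA]
    have h3 : (∫ α in (0 : ℝ)..(2 * Real.pi), F (xx G t α) * ‖WW G t α‖ ^ 2) +
        ∫ α in (0 : ℝ)..(2 * Real.pi), (F (xx G t α) * (-(WW G t α).im) * (WW G t α).im +
      (∫ u in (0 : ℝ)..(xx G t α), F u) *
      (circleMap 0 t α * deriv G (circleMap 0 t α) + circleMap 0 t α *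
        (deriv (deriv G) (circleMap 0 t α) * circleMap 0 t α)).re) =
        ∫ α in (0 : ℝ)..(2 * Real.pi), t * (F (xx G t α) *
        (deriv G (circleMap 0 t α) * Complex.exp (α * Complex.I)).re *
        (WW G t α).re + (∫ u in (0 : ℝ)..(xx G t α), F u) *
      (Complex.exp (α * Complex.I) * deriv G (circleMap 0 t α) + circleMap 0 t α *
        (deriv (deriv G) (circleMap 0 t α) * Complex.exp (α * Complex.I))).re) := by
      rw [← intervalIntegral.integral_add]
      · refine intervalIntegral.integral_congr fun α _ => ?_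
        have e1 : (t : ℝ) * (deriv G (circleMap 0 t α) * Complex.exp (α * Complex.I)).re =
            (WW G t α).re := by
          rw [← Complex.re_ofReal_mul, WW, hz]
          congr 1
          ring
        have e2 : (t : ℝ) * (Complex.exp (α * Complex.I) * deriv G (circleMap 0 t α) +
            circleMap 0 t α *
            (deriv (deriv G) (circleMap 0 t α) * Complex.exp (α * Complex.I))).re =
            (circleMap 0 t α * deriv G (circleMap 0 t α) + circleMap 0 t α *
            (deriv (deriv G) (circleMap 0 t α) * circleMap 0 t α)).re := by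
          rw [← Complex.re_ofReal_mul]
          congr 1
          generalize deriv G (circleMap 0 t α) = a1
          generalize deriv (deriv G) (circleMap 0 t α) = a2
          rw [hz]
          ring
        have e3 : ‖WW G t α‖ ^ 2 = (WW G t α).re ^ 2 + (WW G t α).im ^ 2 := by
          rw [← Complex.normSq_eq_norm_sq, Complex.normSq_apply]
          ring
        rw [e3, ← e2]
        linear_combination (-(F (xx G t α) * (WW G t α).re)) * e1
      · have : Continuous fun α => F (xx G t α) * ‖WW G t α‖ ^ 2 := by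
          have e3 : ∀ α, ‖WW G t α‖ ^ 2 = (WW G t α).re ^ 2 + (WW G t α).im ^ 2 := by
            intro α
            rw [← Complex.normSq_eq_norm_sq, Complex.normSq_apply]
            ring
          simp only [e3]
          exact (hF.comp hxα).mul ((hWα.pow 2).add (hWiα.pow 2))
        exact this.intervalIntegrable _ _
      · exact ((((hF.comp hxα).mul hWiα.neg).mul hWiα).add ((hHc.comp hxα).mul hVα)).intervalIntegrable _ _
    rw [hftc, add_zero] at h3
    exact h3
  have hval := mul_left_cancel₀ h0.ne' hgoal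
  rw [hval]
  exact key

end circ

/-! ### Green -/

section circ
variable (G : ℂ → ℂ) (hG : DifferentiableOn ℂ G (Metric.ball 0 1))
include hG

theorem TT_green_aux (F : ℝ → ℝ) (hF : Continuous F) (t B : ℝ) (ht : |t| < 1) (hB0 : 0 ≤ B) :
    IntervalIntegrable (fun s => F s * TT G t s) volume (-B) B := by
  have htm : t ∈ Ioo (-1 : ℝ) 1 := abs_lt.mp ht
  have hx : Continuous (fun α : ℝ => xx G t α) := by
    have h := (xx_cont G hG).comp_continuous (f := fun α : ℝ => (t, α)) (by fun_prop)
      (fun α => ⟨htm, mem_univ _⟩)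
    exact h
  have hw : Continuous (fun α : ℝ => (WW G t α).re) := by
    have h := (WW_cont G hG).comp_continuous (f := fun α : ℝ => (t, α)) (by fun_prop)
      (fun α => ⟨htm, mem_univ _⟩)
    exact Complex.continuous_re.comp h
  have hpi : (0 : ℝ) ≤ 2 * Real.pi := by positivity
  obtain ⟨CF, hCF⟩ := (isCompact_Icc (a := -B) (b := B)).exists_bound_of_continuousOn
    (f := F) hF.continuousOn
  obtain ⟨CW, hCW⟩ := (isCompact_Icc (a := (0:ℝ)) (b := 2 * Real.pi)).exists_bound_of_continuousOn
    (f := fun α : ℝ => (WW G t α).re) hw.continuousOn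
  have hCF0 : 0 ≤ CF := le_trans (norm_nonneg _) (hCF 0 ⟨by linarith, hB0⟩)
  have hCW0 : 0 ≤ CW := le_trans (norm_nonneg _) (hCW 0 ⟨le_refl _, hpi⟩)
  let Φ : ℝ × ℝ → ℝ := fun p => F p.1 * (if p.1 < xx G t p.2 then (WW G t p.2).re else 0)
  have hΦm : Measurable Φ := by
    refine (hF.measurable.comp measurable_fst).mul ?_
    refine Measurable.ite ?_ (hw.measurable.comp measurable_snd) measurable_const
    exact measurableSet_lt measurable_fst (hx.measurable.comp measurable_snd)
  have hΦi : Integrable Φ ((volume.restrict (Ioc (-B) B)).prod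
      (volume.restrict (Ioc (0:ℝ) (2 * Real.pi)))) := by
    refine Integrable.of_bound hΦm.aestronglyMeasurable (CF * CW) ?_
    rw [Measure.prod_restrict]
    refine (ae_restrict_iff' (measurableSet_Ioc.prod measurableSet_Ioc)).mpr (ae_of_all _ ?_)
    rintro ⟨s, α⟩ ⟨hs, hα⟩
    simp only [Φ]
    rw [norm_mul]
    refine mul_le_mul (hCF s ⟨hs.1.le, hs.2⟩) ?_ (norm_nonneg _) hCF0
    split_ifs
    · exact hCW α ⟨hα.1.le, hα.2⟩
    · simpa using hCW0
  have h3 := hΦi.integral_prod_left
  rw [intervalIntegrable_iff_integrableOn_Ioc_of_le (by linarith)]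
  have h4 : (fun s => F s * TT G t s) = fun s => (1 / 2) *
      ∫ y in Ioc (0:ℝ) (2 * Real.pi), Φ (s, y) := by
    funext s
    simp only [TT, TQ, Φ]
    rw [MeasureTheory.integral_const_mul, intervalIntegral.integral_of_le hpi]
    ring
  rw [h4]
  exact h3.const_mul _

theorem TT_green (F : ℝ → ℝ) (hF : Continuous F) (t1 t2 B : ℝ) (h1 : 0 < t1) (h12 : t1 ≤ t2)
    (h2 : t2 < 1) (hB : ∀ t ∈ Icc t1 t2, ∀ α, |xx G t α| < B) :
    2 * ∫ s in (-B)..B, F s * (TT G t2 s - TT G t1 s) = ∫ r in t1..t2, AA G F r / r := by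
  have hB0 : 0 ≤ B := le_trans (abs_nonneg _) (hB t1 ⟨le_refl _, h12⟩ 0).le
  have ht1 : |t1| < 1 := by rw [abs_of_pos h1]; linarith
  have ht2 : |t2| < 1 := by rw [abs_of_pos (by linarith)]; exact h2
  have hi1 := TT_green_aux G hG F hF t1 B ht1 hB0
  have hi2 := TT_green_aux G hG F hF t2 B ht2 hB0
  have hJ1 := TT_J G hG F hF t1 B ht1 (hB t1 ⟨le_refl _, h12⟩)
  have hJ2 := TT_J G hG F hF t2 B ht2 (hB t2 ⟨h12, le_refl _⟩)
  have hftc : ∫ r in t1..t2, AA G F r / r =
      (∫ α in (0 : ℝ)..(2 * Real.pi), (∫ u in (0 : ℝ)..(xx G t2 α), F u) * (WW G t2 α).re) -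
      (∫ α in (0 : ℝ)..(2 * Real.pi), (∫ u in (0 : ℝ)..(xx G t1 α), F u) * (WW G t1 α).re) := by
    refine intervalIntegral.integral_eq_sub_of_hasDerivAt (f := fun r =>
      ∫ α in (0 : ℝ)..(2 * Real.pi), (∫ u in (0 : ℝ)..(xx G r α), F u) * (WW G r α).re) ?_ ?_
    · intro r hr
      rw [uIcc_of_le h12] at hr
      exact J_deriv G hG F hF r (lt_of_lt_of_le h1 hr.1) (lt_of_le_of_lt hr.2 h2)
    · refine ContinuousOn.intervalIntegrable ?_
      rw [uIcc_of_le h12]
      refine ContinuousOn.div ?_ continuousOn_id ?_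
      · refine (AA_cont G hG F hF).mono ?_
        intro r hr
        exact ⟨by linarith [hr.1], by linarith [hr.2]⟩
      · intro r hr
        exact ne_of_gt (lt_of_lt_of_le h1 hr.1)
  rw [hftc, ← hJ1, ← hJ2]
  have h5 : (fun s => F s * (TT G t2 s - TT G t1 s)) =
      fun s => F s * TT G t2 s - F s * TT G t1 s := by
    funext s; ring
  rw [h5, intervalIntegral.integral_sub hi2 hi1]
  ring

end circ

/-! ### Mono -/

section circ
variable (G : ℂ → ℂ) (hG : DifferentiableOn ℂ G (Metric.ball 0 1))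
include hG

theorem TT_mono (hd : deriv G 0 ≠ 0) (t1 t2 : ℝ) (h1 : 0 < t1) (h12 : t1 ≤ t2)
    (h2 : t2 < 1) (s : ℝ) : TT G t1 s ≤ TT G t2 s := by
  by_contra hcon
  push Not at hcon
  have ht1 : t1 < 1 := lt_of_le_of_lt h12 h2
  have ht2 : 0 < t2 := lt_of_lt_of_le h1 h12
  set D : ℝ → ℝ := fun s => TT G t2 s - TT G t1 s with hD
  have hDc : Continuous D := (TT_cont1 G hG hd t2 ht2 h2).sub (TT_cont1 G hG hd t1 h1 ht1)
  have hDs : D s < 0 := by simp only [hD]; linarith
  obtain ⟨e, he, hball⟩ := Metric.isOpen_iff.1 (isOpen_Iio.preimage hDc) s hDs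
  obtain ⟨B0, hB0⟩ := xx_bdd G hG t2 ht2 h2
  set F : ℝ → ℝ := fun u => max 0 (e - |u - s|) with hF
  have hFc : Continuous F := by
    simp only [hF]; fun_prop
  have hF0 : ∀ u, 0 ≤ F u := fun u => le_max_left _ _
  set B := max B0 (|s| + 1) with hBdef
  have hg := TT_green G hG F hFc t1 t2 B h1 h12 h2 (by
    intro t ht α
    refine lt_of_lt_of_le (hB0 t ?_ α) (le_max_left _ _)
    rw [abs_of_pos (lt_of_lt_of_le h1 ht.1)]
    exact ht.2)
  have hB1 : |s| + 1 ≤ B := le_max_right _ _
  have hsB : s ∈ Icc (-B) B := by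
    have := abs_le.1 (le_trans (by linarith [abs_nonneg s]) hB1 : |s| ≤ B)
    exact this
  have hBpos : -B < B := by
    have := abs_nonneg s
    linarith
  have hFD : ∀ u, F u * D u ≤ 0 := by
    intro u
    by_cases hu : |u - s| < e
    · have h3 : D u < 0 := hball (by rw [Metric.mem_ball, Real.dist_eq]; exact hu)
      exact mul_nonpos_of_nonneg_of_nonpos (hF0 u) h3.le
    · have h3 : F u = 0 := by
        simp only [hF]
        apply max_eq_left
        push Not at hu
        linarith
      rw [h3, zero_mul]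
  have hneg : 0 < ∫ u in (-B)..B, -(F u * D u) := by
    apply intervalIntegral.integral_pos hBpos
    · exact ((hFc.mul hDc).neg).continuousOn
    · intro u _
      have := hFD u
      linarith
    · refine ⟨s, hsB, ?_⟩
      have h3 : F s = e := by
        simp only [hF, sub_self, abs_zero, sub_zero]
        exact max_eq_right he.le
      rw [h3]
      have := mul_neg_of_pos_of_neg he hDs
      linarith
  have hnn : 0 ≤ ∫ r in t1..t2, AA G F r / r := by
    apply intervalIntegral.integral_nonneg h12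
    intro r hr
    apply div_nonneg _ (h1.le.trans hr.1)
    unfold AA
    apply intervalIntegral.integral_nonneg (by positivity)
    intro α _
    exact mul_nonneg (hF0 _) (by positivity)
  rw [← hg] at hnn
  rw [intervalIntegral.integral_neg] at hneg
  linarith

end circ

/-! ### Small -/

section circ
variable (G : ℂ → ℂ) (hG : DifferentiableOn ℂ G (Metric.ball 0 1))
include hG

theorem TT_small : ∃ C : ℝ, ∀ t ∈ Ioc (0 : ℝ) (1 / 2), ∀ s, |TT G t s| ≤ C * t := by
  have hdc : ContinuousOn (deriv G) (Metric.closedBall 0 (1 / 2)) :=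
    (hG.deriv Metric.isOpen_ball).continuousOn.mono (Metric.closedBall_subset_ball (by norm_num))
  obtain ⟨M, hM⟩ := (isCompact_closedBall (0 : ℂ) (1 / 2)).exists_bound_of_continuousOn hdc
  refine ⟨Real.pi * M, fun t ht s => ?_⟩
  have hW : ∀ α, ‖WW G t α‖ ≤ t * M := by
    intro α
    have hn : ‖circleMap 0 t α‖ = t := by
      rw [norm_circleMap_zero, abs_of_pos ht.1]
    unfold WW
    rw [norm_mul, hn]
    apply mul_le_mul_of_nonneg_left _ ht.1.le
    apply hM
    rw [Metric.mem_closedBall, dist_zero_right, hn]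
    exact ht.2
  have hM0 : 0 ≤ t * M := (norm_nonneg _).trans (hW 0)
  unfold TT TQ
  rw [abs_mul, abs_of_pos (by norm_num : (0:ℝ) < 1 / 2)]
  have h := intervalIntegral.norm_integral_le_of_norm_le_const (a := 0) (b := 2 * Real.pi) (C := t * M)
    (f := fun α => if s < xx G t α then (WW G t α).re else 0) (by
      intro α _
      split_ifs
      · exact (Complex.abs_re_le_norm _).trans (hW α)
      · rw [norm_zero]; exact hM0)
  rw [Real.norm_eq_abs, sub_zero, abs_of_pos (by positivity : (0:ℝ) < 2 * Real.pi)] at h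
  linarith

theorem TT_nonneg (hd : deriv G 0 ≠ 0) (t : ℝ) (h1 : 0 < t) (h2 : t < 1) (s : ℝ) :
    0 ≤ TT G t s := by
  obtain ⟨C, hC⟩ := TT_small G hG
  apply le_of_forall_pos_le_add
  intro ε hε
  set e := min (t / 2) (min (1 / 2) (ε / (|C| + 1))) with he
  have hC1 : 0 < |C| + 1 := by positivity
  have he0 : 0 < e := by
    apply lt_min (by linarith) (lt_min (by norm_num) (by positivity))
  have he1 : e ≤ t := (min_le_left _ _).trans (by linarith)
  have he2 : e ≤ 1 / 2 := (min_le_right _ _).trans (min_le_left _ _)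
  have he3 : e ≤ ε / (|C| + 1) := (min_le_right _ _).trans (min_le_right _ _)
  have h3 := hC e ⟨he0, he2⟩ s
  have h4 := TT_mono G hG hd e t he0 he1 h2 s
  have h5 : C * e ≤ ε := by
    calc C * e ≤ |C| * e := mul_le_mul_of_nonneg_right (le_abs_self _) he0.le
      _ ≤ (|C| + 1) * e := by linarith
      _ ≤ (|C| + 1) * (ε / (|C| + 1)) := mul_le_mul_of_nonneg_left he3 hC1.le
      _ = ε := by field_simp
  have h6 := (abs_le.1 h3).1
  linarith

end circ

/-! ### Disc -/

/-- pointwise comparison -/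
theorem TT_disc_pt (σ δ y X R : ℝ) (hδ : 0 ≤ δ) (h1 : |X - y| ≤ δ) (h2 : |R - y| ≤ δ) :
    (if (if 0 ≤ σ then σ + δ else σ - δ) < y then y else 0) - 3 * δ ≤ (if σ < X then R else 0) := by
  obtain ⟨h1a, h1b⟩ := abs_le.1 h1
  obtain ⟨h2a, h2b⟩ := abs_le.1 h2
  split_ifs <;> linarith

/-- Taylor estimates -/
theorem TT_disc_taylor (G : ℂ → ℂ) (hG : DifferentiableOn ℂ G (Metric.ball 0 1)) (hG0 : G 0 = 0)
    (a : ℂ) (hd : deriv G 0 = a) : ∃ C : ℝ, 0 < C ∧ ∀ z : ℂ, ‖z‖ ≤ 1 / 2 →
      ‖G z - a * z‖ ≤ C * ‖z‖ ^ 2 ∧ ‖z * deriv G z - a * z‖ ≤ C * ‖z‖ ^ 2 := by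
  have hd1 : DifferentiableOn ℂ (deriv G) (Metric.ball 0 1) := hG.deriv Metric.isOpen_ball
  have hd2 : ContinuousOn (deriv (deriv G)) (Metric.closedBall 0 (1 / 2)) :=
    (hd1.deriv Metric.isOpen_ball).continuousOn.mono (Metric.closedBall_subset_ball (by norm_num))
  obtain ⟨M0, hM0⟩ := (isCompact_closedBall (0 : ℂ) (1 / 2)).exists_bound_of_continuousOn hd2
  set M := max M0 1 with hM
  have hMpos : 0 < M := lt_of_lt_of_le one_pos (le_max_right _ _)
  have hsub : ∀ z : ℂ, ‖z‖ ≤ 1 / 2 → z ∈ Metric.ball (0 : ℂ) 1 := by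
    intro z hz
    rw [Metric.mem_ball, dist_zero_right]; linarith
  have h1 : ∀ z : ℂ, ‖z‖ ≤ 1 / 2 → ‖deriv G z - a‖ ≤ M * ‖z‖ := by
    intro z hz
    have := Convex.norm_image_sub_le_of_norm_deriv_le (f := deriv G) (C := M)
      (s := Metric.closedBall (0 : ℂ) (1 / 2)) (x := 0) (y := z)
      (fun w hw => (hd1 w (hsub w (by simpa using hw))).differentiableAt
        (Metric.isOpen_ball.mem_nhds (hsub w (by simpa using hw))))
      (fun w hw => (hM0 w hw).trans (le_max_left _ _))
      (convex_closedBall _ _) (by simp) (by simpa using hz)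
    rw [hd, sub_zero] at this
    exact this
  refine ⟨M, hMpos, fun z hz => ⟨?_, ?_⟩⟩
  · have := Convex.norm_image_sub_le_of_norm_deriv_le (f := fun w => G w - a * w) (C := M * ‖z‖)
      (s := Metric.closedBall (0 : ℂ) ‖z‖) (x := 0) (y := z)
      (fun w hw => by
        have hw' : ‖w‖ ≤ ‖z‖ := by simpa using hw
        exact ((hG w (hsub w (hw'.trans hz))).differentiableAt
          (Metric.isOpen_ball.mem_nhds (hsub w (hw'.trans hz)))).sub
          ((differentiableAt_id).const_mul a))
      (fun w hw => by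
        have hw' : ‖w‖ ≤ ‖z‖ := by simpa using hw
        have hgd : DifferentiableAt ℂ G w := (hG w (hsub w (hw'.trans hz))).differentiableAt
          (Metric.isOpen_ball.mem_nhds (hsub w (hw'.trans hz)))
        have e : deriv (fun w => G w - a * w) w = deriv G w - a := by
          have h2 : HasDerivAt (fun w => G w - a * w) (deriv G w - a * 1) w :=
            hgd.hasDerivAt.sub ((hasDerivAt_id w).const_mul a)
          rw [h2.deriv, mul_one]
        rw [e]
        exact (h1 w (hw'.trans hz)).trans (mul_le_mul_of_nonneg_left hw' hMpos.le))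
      (convex_closedBall _ _) (by simp) (by simp)
    simp only [hG0, mul_zero, sub_zero] at this
    refine this.trans (le_of_eq ?_)
    ring
  · have e : z * deriv G z - a * z = z * (deriv G z - a) := by ring
    rw [e, norm_mul]
    calc ‖z‖ * ‖deriv G z - a‖ ≤ ‖z‖ * (M * ‖z‖) := mul_le_mul_of_nonneg_left (h1 z hz) (norm_nonneg _)
      _ = M * ‖z‖ ^ 2 := by ring

/-- the model integral -/
theorem TT_disc_model (a σ : ℝ) (ha : 0 < a) (hσ : |σ| < a) :
    ∫ α in (0 : ℝ)..(2 * Real.pi), (if σ < a * Real.cos α then a * Real.cos α else 0)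
      = 2 * Real.sqrt (a ^ 2 - σ ^ 2) := by
  obtain ⟨hσ1, hσ2⟩ := abs_lt.1 hσ
  set c := Real.arccos (σ / a) with hc
  have hq1 : -1 < σ / a := by rw [lt_div_iff₀ ha]; linarith
  have hq2 : σ / a < 1 := by rw [div_lt_iff₀ ha]; linarith
  have hcos : Real.cos c = σ / a := Real.cos_arccos hq1.le hq2.le
  have hc0 : 0 < c := Real.arccos_pos.2 hq2
  have hcpi : c < Real.pi := by
    rw [hc]
    have := Real.arccos_lt_pi.2 hq1
    exact this
  have hpi := Real.pi_pos
  -- comparison of cosines
  have hlt1 : ∀ α, 0 ≤ α → α < c → σ < a * Real.cos α := by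
    intro α h0 h1
    have := Real.strictAntiOn_cos ⟨h0, (h1.trans hcpi).le⟩ ⟨hc0.le, hcpi.le⟩ h1
    rw [hcos, div_lt_iff₀ ha] at this
    linarith
  have hge1 : ∀ α, c ≤ α → α ≤ Real.pi → ¬ σ < a * Real.cos α := by
    intro α h0 h1
    have := Real.strictAntiOn_cos.antitoneOn ⟨hc0.le, hcpi.le⟩ ⟨hc0.le.trans h0, h1⟩ h0
    rw [hcos, le_div_iff₀ ha] at this
    push Not
    linarith
  have hrefl : ∀ α, Real.cos (2 * Real.pi - α) = Real.cos α := Real.cos_two_pi_sub
  have hint : ∀ u v : ℝ, IntervalIntegrable (fun α => if σ < a * Real.cos α then a * Real.cos α else 0)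
      volume u v := by
    intro u v
    have hm : MeasurableSet {α : ℝ | σ < a * Real.cos α} :=
      (isOpen_lt continuous_const (by fun_prop)).measurableSet
    have h1 : (fun α => if σ < a * Real.cos α then a * Real.cos α else 0)
        = {α : ℝ | σ < a * Real.cos α}.indicator (fun α => a * Real.cos α) := by
      funext α
      simp [Set.indicator_apply]
    rw [h1]
    have h2 : IntervalIntegrable (fun α => a * Real.cos α) volume u v :=
      Continuous.intervalIntegrable (by fun_prop) _ _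
    exact ⟨h2.1.indicator hm, h2.2.indicator hm⟩
  rw [← intervalIntegral.integral_add_adjacent_intervals (hint 0 c) (hint c (2 * Real.pi)),
    ← intervalIntegral.integral_add_adjacent_intervals (hint c (2 * Real.pi - c)) (hint (2 * Real.pi - c) (2 * Real.pi))]
  have i1 : ∫ α in (0 : ℝ)..c, (if σ < a * Real.cos α then a * Real.cos α else 0)
      = a * Real.sin c := by
    have : ∫ α in (0 : ℝ)..c, (if σ < a * Real.cos α then a * Real.cos α else 0)
        = ∫ α in (0 : ℝ)..c, a * Real.cos α := by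
      apply intervalIntegral.integral_congr_ae
      filter_upwards [(Set.countable_singleton c).ae_notMem volume] with α hα hm
      rw [uIoc_of_le hc0.le] at hm
      rw [if_pos (hlt1 α hm.1.le (lt_of_le_of_ne hm.2 hα))]
    rw [this, intervalIntegral.integral_const_mul, integral_cos, Real.sin_zero, sub_zero]
  have i2 : ∫ α in c..(2 * Real.pi - c), (if σ < a * Real.cos α then a * Real.cos α else 0) = 0 := by
    have : ∫ α in c..(2 * Real.pi - c), (if σ < a * Real.cos α then a * Real.cos α else 0)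
        = ∫ α in c..(2 * Real.pi - c), (0 : ℝ) := by
      apply intervalIntegral.integral_congr
      intro α hα
      rw [uIcc_of_le (by linarith)] at hα
      simp only
      rw [if_neg]
      rcases le_total α Real.pi with h | h
      · exact hge1 α hα.1 h
      · rw [← hrefl α]
        exact hge1 _ (by linarith [hα.2]) (by linarith)
    rw [this]; simp
  have i3 : ∫ α in (2 * Real.pi - c)..(2 * Real.pi), (if σ < a * Real.cos α then a * Real.cos α else 0)
      = a * Real.sin c := by
    have : ∫ α in (2 * Real.pi - c)..(2 * Real.pi), (if σ < a * Real.cos α then a * Real.cos α else 0)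
        = ∫ α in (2 * Real.pi - c)..(2 * Real.pi), a * Real.cos α := by
      apply intervalIntegral.integral_congr_ae
      refine Eventually.of_forall fun α hm => ?_
      rw [uIoc_of_le (by linarith)] at hm
      rw [if_pos]
      rw [← hrefl α]
      exact hlt1 _ (by linarith [hm.2]) (by linarith [hm.1])
    rw [this, intervalIntegral.integral_const_mul, integral_cos, Real.sin_two_pi, Real.sin_two_pi_sub]
    ring
  rw [i1, i2, i3]
  have hsin : a * Real.sin c = Real.sqrt (a ^ 2 - σ ^ 2) := by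
    rw [hc, Real.sin_arccos]
    have h3 : a ^ 2 - σ ^ 2 = a ^ 2 * (1 - (σ / a) ^ 2) := by field_simp
    rw [h3, Real.sqrt_mul (by positivity), Real.sqrt_sq ha.le]
  rw [hsin]; ring

/-- the final elementary inequality -/
theorem TT_disc_final (a b y δ : ℝ) (hb : 0 < b) (hy : 0 ≤ y) (hyb : y ≤ b) (hδ : 0 ≤ δ)
    (hδ1 : δ ≤ 1) (h : δ * (2 * b + 6 * Real.pi * b + 1 + 9 * Real.pi ^ 2) ≤ a ^ 2 - b ^ 2) :
    Real.sqrt (b ^ 2 - y ^ 2) + 3 * Real.pi * δ ≤ Real.sqrt (a ^ 2 - (y + δ) ^ 2) := by
  have hpi := Real.pi_pos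
  apply Real.le_sqrt_of_sq_le
  have h1 : 0 ≤ b ^ 2 - y ^ 2 := by nlinarith
  have h2 : Real.sqrt (b ^ 2 - y ^ 2) ≤ b := by
    rw [Real.sqrt_le_left hb.le]; nlinarith
  have h3 : (Real.sqrt (b ^ 2 - y ^ 2) + 3 * Real.pi * δ) ^ 2 =
      (b ^ 2 - y ^ 2) + 6 * Real.pi * δ * Real.sqrt (b ^ 2 - y ^ 2) + 9 * Real.pi ^ 2 * δ ^ 2 := by
    have := Real.sq_sqrt h1
    ring_nf
    rw [Real.sq_sqrt h1]
    ring
  rw [h3]
  have h4 : 6 * Real.pi * δ * Real.sqrt (b ^ 2 - y ^ 2) ≤ 6 * Real.pi * δ * b :=
    mul_le_mul_of_nonneg_left h2 (by positivity)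
  have h5 : δ ^ 2 ≤ δ := by nlinarith
  have h6 : 9 * Real.pi ^ 2 * δ ^ 2 ≤ 9 * Real.pi ^ 2 * δ := mul_le_mul_of_nonneg_left h5 (by positivity)
  have h7 : y * δ ≤ b * δ := mul_le_mul_of_nonneg_right hyb hδ
  nlinarith


section circ
variable (G : ℂ → ℂ) (hG : DifferentiableOn ℂ G (Metric.ball 0 1))
include hG

theorem TT_disc (hG0 : G 0 = 0) (a : ℝ) (ha : 0 < a) (hd : deriv G 0 = (a : ℂ)) (b : ℝ) (hb : 0 < b) (hba : b < a) :
    ∃ t0 ∈ Ioo (0 : ℝ) 1, ∀ t ∈ Ioc 0 t0, ∀ s, |s| ≤ b * t →
      Real.sqrt (b ^ 2 * t ^ 2 - s ^ 2) ≤ TT G t s := by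
  obtain ⟨C, hC, hT⟩ := TT_disc_taylor G hG hG0 (a : ℂ) hd
  have hpi := Real.pi_pos
  set K := 2 * b + 6 * Real.pi * b + 1 + 9 * Real.pi ^ 2 with hK
  have hKpos : 0 < K := by positivity
  have hab : 0 < a ^ 2 - b ^ 2 := by nlinarith
  set t0 := min (1 / 2) (min (1 / C) ((a ^ 2 - b ^ 2) / (K * C))) with ht0
  have ht0pos : 0 < t0 := by
    apply lt_min (by norm_num) (lt_min (by positivity) (by positivity))
  have ht0h : t0 ≤ 1 / 2 := min_le_left _ _
  refine ⟨t0, ⟨ht0pos, by linarith⟩, ?_⟩
  intro t ht s hs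
  have htpos := ht.1
  have hth : t ≤ 1 / 2 := ht.2.trans ht0h
  set δ := C * t with hδ
  have hδ0 : 0 ≤ δ := by positivity
  have hδ1 : δ ≤ 1 := by
    have h1 : t ≤ 1 / C := ht.2.trans ((min_le_right _ _).trans (min_le_left _ _))
    calc δ ≤ C * (1 / C) := mul_le_mul_of_nonneg_left h1 hC.le
      _ = 1 := by field_simp
  have hδK : δ * K ≤ a ^ 2 - b ^ 2 := by
    have h1 : t ≤ (a ^ 2 - b ^ 2) / (K * C) := ht.2.trans ((min_le_right _ _).trans (min_le_right _ _))
    calc δ * K = (K * C) * t := by rw [hδ]; ring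
      _ ≤ (K * C) * ((a ^ 2 - b ^ 2) / (K * C)) := mul_le_mul_of_nonneg_left h1 (by positivity)
      _ = a ^ 2 - b ^ 2 := by field_simp
  set σ := s / t with hσ
  have hσb : |σ| ≤ b := by
    rw [hσ, abs_div, abs_of_pos htpos, div_le_iff₀ htpos]; exact hs
  set σs := if 0 ≤ σ then σ + δ else σ - δ with hσs
  have hσsabs : |σs| = |σ| + δ := by
    rw [hσs]
    split_ifs with h
    · rw [abs_of_nonneg h, abs_of_nonneg (by linarith)]
    · push Not at h
      rw [abs_of_neg h, abs_of_neg (by linarith)]; ring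
  have hσsa : |σs| < a := by
    rw [hσsabs]
    have h1 : |σ| + δ ≤ b + δ := by linarith
    refine lt_of_le_of_lt h1 ?_
    apply lt_of_pow_lt_pow_left₀ 2 ha.le
    have h5 : δ ^ 2 ≤ δ := by nlinarith
    have : 0 ≤ δ * (6 * Real.pi * b + 9 * Real.pi ^ 2) := by positivity
    by_cases hδz : δ = 0
    · rw [hδz]; nlinarith
    · have hδp : 0 < δ := lt_of_le_of_ne hδ0 (Ne.symm hδz)
      have : 0 < δ * (6 * Real.pi * b + 9 * Real.pi ^ 2) := by positivity
      nlinarith
  -- the circle points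
  have hnorm : ∀ α, ‖circleMap 0 t α‖ = t := fun α => by
    rw [norm_circleMap_zero, abs_of_pos htpos]
  have hre : ∀ α, ((a : ℂ) * circleMap 0 t α).re = a * (t * Real.cos α) := by
    intro α
    rw [Complex.re_ofReal_mul, circleMap_zero, Complex.re_ofReal_mul, Complex.exp_ofReal_mul_I_re]
  have hX : ∀ α, |xx G t α / t - a * Real.cos α| ≤ δ := by
    intro α
    have h1 := (hT (circleMap 0 t α) (by rw [hnorm]; exact hth)).1
    rw [hnorm] at h1
    have h2 : |xx G t α - a * (t * Real.cos α)| ≤ C * t ^ 2 := by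
      refine le_trans ?_ h1
      rw [← hre α]
      unfold xx
      rw [← Complex.sub_re]
      exact Complex.abs_re_le_norm _
    have h3 : xx G t α / t - a * Real.cos α = (xx G t α - a * (t * Real.cos α)) / t := by
      field_simp
    rw [h3, abs_div, abs_of_pos htpos, div_le_iff₀ htpos]
    refine h2.trans (le_of_eq ?_)
    rw [hδ]; ring
  have hR : ∀ α, |(WW G t α).re / t - a * Real.cos α| ≤ δ := by
    intro α
    have h1 := (hT (circleMap 0 t α) (by rw [hnorm]; exact hth)).2
    rw [hnorm] at h1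
    have h2 : |(WW G t α).re - a * (t * Real.cos α)| ≤ C * t ^ 2 := by
      refine le_trans ?_ h1
      rw [← hre α]
      unfold WW
      rw [← Complex.sub_re]
      exact Complex.abs_re_le_norm _
    have h3 : (WW G t α).re / t - a * Real.cos α = ((WW G t α).re - a * (t * Real.cos α)) / t := by
      field_simp
    rw [h3, abs_div, abs_of_pos htpos, div_le_iff₀ htpos]
    refine h2.trans (le_of_eq ?_)
    rw [hδ]; ring
  have hpt : ∀ α, t * ((if σs < a * Real.cos α then a * Real.cos α else 0) - 3 * δ) ≤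
      (if s < xx G t α then (WW G t α).re else 0) := by
    intro α
    have h1 := TT_disc_pt σ δ (a * Real.cos α) (xx G t α / t) ((WW G t α).re / t) hδ0 (hX α) (hR α)
    rw [← hσs] at h1
    have h2 := mul_le_mul_of_nonneg_left h1 htpos.le
    refine h2.trans (le_of_eq ?_)
    have h3 : (σ < xx G t α / t) ↔ (s < xx G t α) := by
      rw [hσ]; exact div_lt_div_iff_of_pos_right htpos
    simp only [h3]
    split_ifs
    · field_simp
    · simp
  -- continuity
  have htm : t ∈ Ioo (-1 : ℝ) 1 := ⟨by linarith, by linarith⟩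
  have hline : Continuous fun α : ℝ => (t, α) := by fun_prop
  have hxc : Continuous (xx G t) := by
    have := (xx_cont G hG).comp_continuous hline fun α => ⟨htm, mem_univ _⟩
    exact this
  have hWc : Continuous (fun α => (WW G t α).re) := by
    have := (WW_cont G hG).comp_continuous hline fun α => ⟨htm, mem_univ _⟩
    exact Complex.continuous_re.comp this
  have hint : IntervalIntegrable (fun α => if s < xx G t α then (WW G t α).re else 0)
      volume 0 (2 * Real.pi) := by
    have hm : MeasurableSet {α : ℝ | s < xx G t α} :=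
      (isOpen_lt continuous_const hxc).measurableSet
    have h1 : (fun α => if s < xx G t α then (WW G t α).re else 0)
        = {α : ℝ | s < xx G t α}.indicator (fun α => (WW G t α).re) := by
      funext α
      simp [Set.indicator_apply]
    rw [h1]
    have h2 : IntervalIntegrable (fun α => (WW G t α).re) volume 0 (2 * Real.pi) :=
      hWc.intervalIntegrable _ _
    exact ⟨h2.1.indicator hm, h2.2.indicator hm⟩
  have hint2 : IntervalIntegrable (fun α => (if σs < a * Real.cos α then a * Real.cos α else 0))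
      volume 0 (2 * Real.pi) := by
    have hm : MeasurableSet {α : ℝ | σs < a * Real.cos α} :=
      (isOpen_lt continuous_const (by fun_prop)).measurableSet
    have h1 : (fun α => if σs < a * Real.cos α then a * Real.cos α else 0)
        = {α : ℝ | σs < a * Real.cos α}.indicator (fun α => a * Real.cos α) := by
      funext α
      simp [Set.indicator_apply]
    rw [h1]
    have h2 : IntervalIntegrable (fun α => a * Real.cos α) volume 0 (2 * Real.pi) :=
      Continuous.intervalIntegrable (by fun_prop) _ _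
    exact ⟨h2.1.indicator hm, h2.2.indicator hm⟩
  have hmono := intervalIntegral.integral_mono (by positivity : (0:ℝ) ≤ 2 * Real.pi)
    ((hint2.sub (_root_.intervalIntegrable_const (c := 3 * δ))).const_mul t) hint hpt
  rw [intervalIntegral.integral_const_mul, intervalIntegral.integral_sub hint2
    (_root_.intervalIntegrable_const), TT_disc_model a σs ha hσsa, intervalIntegral.integral_const,
    smul_eq_mul, sub_zero] at hmono
  have hsq : σs ^ 2 = (|σ| + δ) ^ 2 := by rw [← hσsabs, sq_abs]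
  rw [hsq] at hmono
  have hfin := TT_disc_final a b |σ| δ hb (abs_nonneg _) hσb hδ0 hδ1 hδK
  have hlhs : Real.sqrt (b ^ 2 * t ^ 2 - s ^ 2) = t * Real.sqrt (b ^ 2 - |σ| ^ 2) := by
    have h1 : b ^ 2 * t ^ 2 - s ^ 2 = t ^ 2 * (b ^ 2 - |σ| ^ 2) := by
      rw [sq_abs, hσ]; field_simp
    rw [h1, Real.sqrt_mul (by positivity), Real.sqrt_sq htpos.le]
  rw [hlhs]
  unfold TT TQ
  have h9 := mul_le_mul_of_nonneg_left hfin htpos.le
  nlinarith

end circ

/-! ### Zpos -/

section circ
variable (G : ℂ → ℂ) (hG : DifferentiableOn ℂ G (Metric.ball 0 1))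
include hG

theorem TT_zero_pos (hG0 : G 0 = 0) (a : ℝ) (ha : 0 < a) (hd : deriv G 0 = (a : ℂ)) (t : ℝ) (h1 : 0 < t) (h2 : t < 1) :
    0 < TT G t 0 := by
  obtain ⟨t0, ht0, hdisc⟩ := TT_disc G hG hG0 a ha hd (a / 2) (by linarith) (by linarith)
  have hd' : deriv G 0 ≠ 0 := by
    rw [hd]
    exact_mod_cast ha.ne'
  have he1 : 0 < min t0 t := lt_min ht0.1 h1
  have h3 := hdisc (min t0 t) ⟨he1, min_le_left _ _⟩ 0 (by rw [abs_zero]; positivity)
  have h4 := TT_mono G hG hd' (min t0 t) t he1 (min_le_right _ _) h2 0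
  have h5 : 0 < Real.sqrt ((a / 2) ^ 2 * (min t0 t) ^ 2 - 0 ^ 2) := by
    apply Real.sqrt_pos.2
    have : 0 < (a / 2) ^ 2 * (min t0 t) ^ 2 := by positivity
    simpa using this
  linarith


end circ

end AM287
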