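import Pool.Agent.Helper287.AM.Circ

set_option autoImplicit false
set_option linter.all false

open MeasureTheory Set Filter Topology

namespace AM287

/-! ### Aacore -/

section circ
variable (G : ℂ → ℂ) (hG : DifferentiableOn ℂ G (Metric.ball 0 1))
include hG

theorem AA_core (hG0 : G 0 = 0) (a : ℝ) (ha : 0 < a) (hd : deriv G 0 = (a : ℂ)) (t : ℝ) (h1 : 0 < t) (h2 : t < 1) :
    2 * Real.pi ≤ AA G (fun s => Ph s (TT G t s)) t := by
  have ht : |t| < 1 := by rw [abs_of_pos h1]; exact h2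
  have hd0 : deriv G 0 ≠ 0 := by
    rw [hd]
    exact_mod_cast ha.ne'
  have hW : Continuous (fun α => WW G t α) := by
    have h := WW_cont G hG
    have hm : MapsTo (fun α : ℝ => ((t, α) : ℝ × ℝ)) univ (Ioo (-1 : ℝ) 1 ×ˢ univ) := by
      intro α _
      exact ⟨⟨by linarith, h2⟩, mem_univ _⟩
    have hc : ContinuousOn (fun α : ℝ => ((t, α) : ℝ × ℝ)) univ := by fun_prop
    have := h.comp hc hm
    rw [continuousOn_univ] at this
    exact this
  have hdx : Continuous (fun α => -(WW G t α).im) := (Complex.continuous_im.comp hW).neg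
  have hdy : Continuous (fun α => (WW G t α).re) := Complex.continuous_re.comp hW
  have hper : ∀ α, xx G t (α + 2 * Real.pi) = xx G t α := by
    intro α
    simp only [xx]
    rw [periodic_circleMap 0 t α]
  have h := core_circle (xx G t) (fun α => -(WW G t α).im) (fun α => (WW G t α).re)
    (xx_deriv G hG t ht) hdx hdy hper (WW_int G hG t ht) (TT_cont1 G hG hd0 t h1 h2)
    (TT_nonneg G hG hd0 t h1 h2) (TT_zero_pos G hG hG0 a ha hd t h1 h2)
  refine h.trans (le_of_eq ?_)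
  unfold AA
  refine intervalIntegral.integral_congr ?_
  intro α _
  simp only [TT]
  congr 1
  rw [Complex.sq_norm, Complex.normSq_apply]
  ring

end circ

/-! ### Joint -/

section circ
variable (G : ℂ → ℂ) (hG : DifferentiableOn ℂ G (Metric.ball 0 1))
include hG

theorem AA_joint (hG0 : G 0 = 0) (a : ℝ) (ha : 0 < a) (hd : deriv G 0 = (a : ℂ)) :
    ContinuousOn (fun p : ℝ × ℝ => AA G (fun s => Ph s (TT G p.1 s)) p.2)
      (Ioo (0 : ℝ) 1 ×ˢ Ioo (0 : ℝ) 1) := by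
  have hd' : deriv G 0 ≠ 0 := by
    rw [hd]
    exact_mod_cast ha.ne'
  rw [continuousOn_iff_continuous_restrict]
  have hop : IsOpen (Ioo (0 : ℝ) 1 ×ˢ Ioo (0 : ℝ) 1) := isOpen_Ioo.prod isOpen_Ioo
  haveI : LocallyCompactSpace ↥(Ioo (0 : ℝ) 1 ×ˢ Ioo (0 : ℝ) 1) := hop.locallyCompactSpace
  have hxx : Continuous fun z : ↥(Ioo (0 : ℝ) 1 ×ˢ Ioo (0 : ℝ) 1) × ℝ => xx G z.1.1.2 z.2 := by
    refine (xx_cont G hG).comp_continuous
      (f := fun z : ↥(Ioo (0 : ℝ) 1 ×ˢ Ioo (0 : ℝ) 1) × ℝ => ((z.1.1.2, z.2) : ℝ × ℝ))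
      (by fun_prop) ?_
    intro z
    have h1 := z.1.2.2
    exact ⟨⟨by have := h1.1; show (-1 : ℝ) < z.1.1.2; linarith, h1.2⟩, mem_univ _⟩
  have hWW : Continuous fun z : ↥(Ioo (0 : ℝ) 1 ×ˢ Ioo (0 : ℝ) 1) × ℝ => WW G z.1.1.2 z.2 := by
    refine (WW_cont G hG).comp_continuous
      (f := fun z : ↥(Ioo (0 : ℝ) 1 ×ˢ Ioo (0 : ℝ) 1) × ℝ => ((z.1.1.2, z.2) : ℝ × ℝ))
      (by fun_prop) ?_
    intro z
    have h1 := z.1.2.2
    exact ⟨⟨by have := h1.1; show (-1 : ℝ) < z.1.1.2; linarith, h1.2⟩, mem_univ _⟩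
  have hTT : Continuous fun z : ↥(Ioo (0 : ℝ) 1 ×ˢ Ioo (0 : ℝ) 1) × ℝ =>
      TT G z.1.1.1 (xx G z.1.1.2 z.2) := by
    refine (TT_cont G hG hd').comp_continuous
      (f := fun z : ↥(Ioo (0 : ℝ) 1 ×ˢ Ioo (0 : ℝ) 1) × ℝ =>
        ((z.1.1.1, xx G z.1.1.2 z.2) : ℝ × ℝ)) ?_ ?_
    · exact (by fun_prop : Continuous fun z : ↥(Ioo (0 : ℝ) 1 ×ˢ Ioo (0 : ℝ) 1) × ℝ =>
        z.1.1.1).prodMk hxx
    · intro z
      exact ⟨z.1.2.1, mem_univ _⟩
  have hPh : Continuous fun z : ↥(Ioo (0 : ℝ) 1 ×ˢ Ioo (0 : ℝ) 1) × ℝ =>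
      Ph (xx G z.1.1.2 z.2) (TT G z.1.1.1 (xx G z.1.1.2 z.2)) := by
    refine Ph_cont.comp_continuous
      (f := fun z : ↥(Ioo (0 : ℝ) 1 ×ˢ Ioo (0 : ℝ) 1) × ℝ =>
        ((xx G z.1.1.2 z.2, TT G z.1.1.1 (xx G z.1.1.2 z.2)) : ℝ × ℝ)) (hxx.prodMk hTT) ?_
    intro z
    by_cases h0 : xx G z.1.1.2 z.2 = 0
    · right
      show 0 < TT G z.1.1.1 (xx G z.1.1.2 z.2)
      rw [h0]
      exact TT_zero_pos G hG hG0 a ha hd _ z.1.2.1.1 z.1.2.1.2
    · left
      exact h0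
  have hF : Continuous (Function.uncurry fun (p : ↥(Ioo (0 : ℝ) 1 ×ˢ Ioo (0 : ℝ) 1)) (α : ℝ) =>
      Ph (xx G p.1.2 α) (TT G p.1.1 (xx G p.1.2 α)) * ‖WW G p.1.2 α‖ ^ 2) :=
    hPh.mul (hWW.norm.pow 2)
  exact intervalIntegral.continuous_parametric_intervalIntegral_of_continuous' hF 0 (2 * Real.pi)

end circ

/-! ### Unif -/

section circ
variable (G : ℂ → ℂ) (hG : DifferentiableOn ℂ G (Metric.ball 0 1))
include hG

theorem AA_unif (hG0 : G 0 = 0) (a : ℝ) (ha : 0 < a) (hd : deriv G 0 = (a : ℂ)) (ta tb : ℝ) (h1 : 0 < ta) (h12 : ta ≤ tb)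
    (h2 : tb < 1) (ε : ℝ) (hε : 0 < ε) :
    ∃ δ > 0, ∀ t ∈ Icc ta tb, ∀ r ∈ Icc ta tb, |r - t| < δ →
      2 * Real.pi - ε ≤ AA G (fun s => Ph s (TT G t s)) r := by
  have hK : IsCompact (Icc ta tb ×ˢ Icc ta tb) := isCompact_Icc.prod isCompact_Icc
  have hsub : Icc ta tb ×ˢ Icc ta tb ⊆ Ioo (0 : ℝ) 1 ×ˢ Ioo (0 : ℝ) 1 := by
    apply Set.prod_mono <;> exact fun x hx => ⟨h1.trans_le hx.1, hx.2.trans_lt h2⟩
  have hc := (AA_joint G hG hG0 a ha hd).mono hsub
  have hu := hK.uniformContinuousOn_of_continuous hc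
  rw [Metric.uniformContinuousOn_iff] at hu
  obtain ⟨δ, hδ, hd'⟩ := hu ε hε
  refine ⟨δ, hδ, fun t ht r hr htr => ?_⟩
  have h3 := hd' (t, r) ⟨ht, hr⟩ (t, t) ⟨ht, ht⟩ (by
    rw [Prod.dist_eq, dist_self, Real.dist_eq]
    exact max_lt hδ htr)
  have h4 := AA_core G hG hG0 a ha hd t (h1.trans_le ht.1) (ht.2.trans_lt h2)
  rw [Real.dist_eq, abs_lt] at h3
  simp only at h3
  linarith [h3.1]

end circ

/-! ### Step -/

section circ
variable (G : ℂ → ℂ) (hG : DifferentiableOn ℂ G (Metric.ball 0 1))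
include hG

theorem step_lower (hG0 : G 0 = 0) (a : ℝ) (ha : 0 < a) (hd : deriv G 0 = (a : ℂ)) (t1 t2 B : ℝ) (h1 : 0 < t1) (h12 : t1 ≤ t2)
    (h2 : t2 < 1) (hB : ∀ t ∈ Icc t1 t2, ∀ α, |xx G t α| < B) :
    ∫ r in t1..t2, AA G (fun s => Ph s (TT G t2 s)) r / r
      ≤ 2 * ∫ s in (-B)..B, ∫ u in (TT G t1 s)..(TT G t2 s), Ph s u := by
  have hd' : deriv G 0 ≠ 0 := by
    rw [hd]; exact_mod_cast ha.ne'
  have ht2 : 0 < t2 := lt_of_lt_of_le h1 h12
  have ht1 : t1 < 1 := lt_of_le_of_lt h12 h2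
  have hc1 := TT_cont1 G hG hd' t1 h1 ht1
  have hc2 := TT_cont1 G hG hd' t2 ht2 h2
  have hp1 := TT_zero_pos G hG hG0 a ha hd t1 h1 ht1
  have hp2 := TT_zero_pos G hG hG0 a ha hd t2 ht2 h2
  have hF : Continuous (fun s => Ph s (TT G t2 s)) := by
    have hc : Continuous (fun s : ℝ => ((s, TT G t2 s) : ℝ × ℝ)) := continuous_id.prodMk hc2
    have hmem : ∀ s : ℝ, ((s, TT G t2 s) : ℝ × ℝ) ∈ UU := by
      intro s
      by_cases hs : s = 0
      · subst hs
        exact Or.inr hp2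
      · exact Or.inl hs
    have h := Ph_cont.comp_continuous hc hmem
    exact h
  have hBpos : 0 < B := lt_of_le_of_lt (abs_nonneg _) (hB t1 ⟨le_refl _, h12⟩ 0)
  rw [← TT_green G hG (fun s => Ph s (TT G t2 s)) hF t1 t2 B h1 h12 h2 hB]
  apply mul_le_mul_of_nonneg_left _ (by norm_num : (0 : ℝ) ≤ 2)
  apply intervalIntegral.integral_mono_on (by linarith)
  · exact (hF.mul (hc2.sub hc1)).intervalIntegrable _ _
  · exact (inner_cont _ _ hc1 hc2 hp1 hp2).intervalIntegrable _ _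
  · intro s _
    have hle := TT_mono G hG hd' t1 t2 h1 h12 h2 s
    have hnn := TT_nonneg G hG hd' t1 h1 ht1 s
    have hcase : s ≠ 0 ∨ (0 < TT G t1 s ∧ 0 < TT G t2 s) := by
      by_cases hs : s = 0
      · right; rw [hs]; exact ⟨hp1, hp2⟩
      · left; exact hs
    have hconst : Ph s (TT G t2 s) * (TT G t2 s - TT G t1 s) =
        ∫ u in (TT G t1 s)..(TT G t2 s), Ph s (TT G t2 s) := by
      rw [intervalIntegral.integral_const, smul_eq_mul, mul_comm]
    show Ph s (TT G t2 s) * (TT G t2 s - TT G t1 s) ≤ _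
    rw [hconst]
    apply intervalIntegral.integral_mono_on hle
    · exact intervalIntegrable_const
    · exact Ph_ii s _ _ hcase
    · intro u hu
      refine Ph_anti s u (TT G t2 s) (hnn.trans hu.1) hu.2 ?_
      rcases hcase with h | h
      · left; exact h
      · right; exact lt_of_lt_of_le h.1 hu.1


end circ

/-! ### Total -/

section circ
variable (G : ℂ → ℂ) (hG : DifferentiableOn ℂ G (Metric.ball 0 1))
include hG

theorem total_lower (hG0 : G 0 = 0) (a : ℝ) (ha : 0 < a) (hd : deriv G 0 = (a : ℂ)) (ta tb B : ℝ) (h1 : 0 < ta) (h12 : ta ≤ tb)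
    (h2 : tb < 1) (hB : ∀ t ∈ Icc ta tb, ∀ α, |xx G t α| < B) :
    2 * Real.pi * Real.log (tb / ta)
      ≤ 2 * ∫ s in (-B)..B, ∫ u in (TT G ta s)..(TT G tb s), Ph s u := by
  set E : ℝ → ℝ := fun t => 2 * ∫ s in (-B)..B, ∫ u in (TT G ta s)..(TT G t s), Ph s u with hE
  have hta1 : ta < 1 := lt_of_le_of_lt h12 h2
  have hEta : E ta = 0 := by
    show 2 * ∫ s in (-B)..B, ∫ u in (TT G ta s)..(TT G ta s), Ph s u = 0
    simp
  have hpos : ∀ t ∈ Icc ta tb, 0 < t ∧ t < 1 := fun t ht =>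
    ⟨lt_of_lt_of_le h1 ht.1, lt_of_le_of_lt ht.2 h2⟩
  have hd0 : deriv G 0 ≠ 0 := by
    rw [hd]
    exact_mod_cast ha.ne'
  have hTTc : ∀ t ∈ Icc ta tb, Continuous (fun s => TT G t s) := fun t ht =>
    TT_cont1 G hG hd0 t (hpos t ht).1 (hpos t ht).2
  have hTT0 : ∀ t ∈ Icc ta tb, 0 < TT G t 0 := fun t ht =>
    TT_zero_pos G hG hG0 a ha hd t (hpos t ht).1 (hpos t ht).2
  have hii : ∀ t ∈ Icc ta tb, ∀ t' ∈ Icc ta tb, ∀ s,
      IntervalIntegrable (fun u => Ph s u) volume (TT G t s) (TT G t' s) := by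
    intro t ht t' ht' s
    apply Ph_ii
    by_cases hs : s = 0
    · right
      rw [hs]
      exact ⟨hTT0 t ht, hTT0 t' ht'⟩
    · exact Or.inl hs
  have hkey := subdiv E (2 * Real.pi) ta tb h1 h12 (by
    intro ε hε
    obtain ⟨δ, hδ, hAA⟩ := AA_unif G hG hG0 a ha hd ta tb h1 h12 h2 ε hε
    refine ⟨δ, hδ, ?_⟩
    intro t1 ht1 t2 ht2 ht12 hlt
    have hta : ta ∈ Icc ta tb := ⟨le_rfl, h12⟩
    have hdiff : E t2 - E t1 = 2 * ∫ s in (-B)..B, ∫ u in (TT G t1 s)..(TT G t2 s), Ph s u := by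
      show 2 * (∫ s in (-B)..B, ∫ u in (TT G ta s)..(TT G t2 s), Ph s u) -
        2 * (∫ s in (-B)..B, ∫ u in (TT G ta s)..(TT G t1 s), Ph s u) = _
      rw [← mul_sub, ← intervalIntegral.integral_sub]
      · congr 1
        apply intervalIntegral.integral_congr
        intro s _
        exact intervalIntegral.integral_interval_sub_left (hii ta hta t2 ht2 s)
          (hii ta hta t1 ht1 s)
      · exact (inner_cont _ _ (hTTc ta hta) (hTTc t2 ht2) (hTT0 ta hta)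
          (hTT0 t2 ht2)).intervalIntegrable _ _
      · exact (inner_cont _ _ (hTTc ta hta) (hTTc t1 ht1) (hTT0 ta hta)
          (hTT0 t1 ht1)).intervalIntegrable _ _
    have hstep := step_lower G hG hG0 a ha hd t1 t2 B (hpos t1 ht1).1 ht12 (hpos t2 ht2).2
      (fun t ht => hB t ⟨ht1.1.trans ht.1, ht.2.trans ht2.2⟩)
    have hFc : Continuous (fun s => Ph s (TT G t2 s)) := by
      have h3 : ContinuousOn (fun s : ℝ => Ph s (TT G t2 s)) univ := by
        refine Ph_cont.comp (g := fun w : ℝ × ℝ => Ph w.1 w.2)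
          (f := fun s : ℝ => ((s, TT G t2 s) : ℝ × ℝ)) ?_ ?_
        · exact (continuous_id.prodMk (hTTc t2 ht2)).continuousOn
        · intro s _
          show s ≠ 0 ∨ 0 < TT G t2 s
          by_cases hs : s = 0
          · right
            rw [hs]
            exact hTT0 t2 ht2
          · exact Or.inl hs
      exact continuousOn_univ.1 h3
    have hAAc := AA_cont G hG (fun s => Ph s (TT G t2 s)) hFc
    have hsub : uIcc t1 t2 ⊆ Icc t1 t2 := by rw [uIcc_of_le ht12]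
    have hii1 : IntervalIntegrable (fun r => AA G (fun s => Ph s (TT G t2 s)) r / r) volume
        t1 t2 := by
      apply ContinuousOn.intervalIntegrable
      apply ContinuousOn.div
      · apply hAAc.mono
        intro r hr
        have hr' := hsub hr
        exact ⟨by linarith [hr'.1, (hpos t1 ht1).1], by linarith [hr'.2, (hpos t2 ht2).2]⟩
      · exact continuousOn_id
      · intro r hr
        have hr' := hsub hr
        have : 0 < r := lt_of_lt_of_le (hpos t1 ht1).1 hr'.1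
        exact this.ne'
    have hii2 : IntervalIntegrable (fun r : ℝ => (2 * Real.pi - ε) * (1 / r)) volume t1 t2 := by
      apply ContinuousOn.intervalIntegrable
      apply ContinuousOn.mul continuousOn_const
      apply ContinuousOn.div continuousOn_const continuousOn_id
      intro r hr
      have hr' := hsub hr
      have : 0 < r := lt_of_lt_of_le (hpos t1 ht1).1 hr'.1
      exact this.ne'
    have hmono : ∫ r in t1..t2, (2 * Real.pi - ε) * (1 / r) ≤
        ∫ r in t1..t2, AA G (fun s => Ph s (TT G t2 s)) r / r := by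
      apply intervalIntegral.integral_mono_on ht12 hii2 hii1
      intro r hr
      have hr0 : 0 < r := lt_of_lt_of_le (hpos t1 ht1).1 hr.1
      have h3 := hAA t2 ht2 r ⟨ht1.1.trans hr.1, hr.2.trans ht2.2⟩ (by
        rw [abs_sub_comm, abs_of_nonneg (by linarith [hr.2])]
        linarith [hr.1])
      rw [mul_one_div]
      exact div_le_div_of_nonneg_right h3 hr0.le
    rw [intervalIntegral.integral_const_mul, integral_one_div_of_pos (hpos t1 ht1).1
      (hpos t2 ht2).1] at hmono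
    rw [hdiff]
    linarith)
  rw [hEta, sub_zero] at hkey
  exact hkey

end circ

end AM287
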