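import Pool.Agent.Helper287.AM.Base

set_option autoImplicit false
set_option linter.all false

open MeasureTheory Set Filter Topology

namespace AM287

/-! ### Area -/

theorem area_mult_det (w : ℂ) :
    ContinuousLinearMap.det (w • (ContinuousLinearMap.id ℝ ℂ)) = ‖w‖ ^ 2 := by
  have h1 : (((w • (ContinuousLinearMap.id ℝ ℂ)) : ℂ →L[ℝ] ℂ) : ℂ →ₗ[ℝ] ℂ)
      = Algebra.lmul ℝ ℂ w := by
    ext <;> simp
  rw [ContinuousLinearMap.det, h1, ← Algebra.norm_apply, Algebra.norm_complex_apply,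
    Complex.normSq_eq_norm_sq]

theorem area_mult_count {B : Set ℂ} (g : ℂ → ℂ) (S' : ℕ → Set ℂ) (hB : ∀ k, S' k ⊆ B)
    (hdisj : Pairwise (Function.onFun Disjoint S')) (w : ℂ) :
    ∑' k, (g '' (S' k)).indicator (fun _ => (1 : ENNReal)) w
      ≤ ENat.toENNReal (Set.encard {z : ℂ | z ∈ B ∧ g z = w}) := by
  classical
  rw [ENNReal.tsum_eq_iSup_sum]
  refine iSup_le fun s => ?_
  have h1 : ∑ k ∈ s, (g '' (S' k)).indicator (fun _ => (1 : ENNReal)) w
      = ((s.filter (fun k => w ∈ g '' (S' k))).card : ENNReal) := by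
    rw [Finset.card_filter]
    push_cast
    refine Finset.sum_congr rfl fun k _ => ?_
    by_cases h : w ∈ g '' (S' k)
    · simp only [Set.indicator_of_mem h, if_pos h]
    · simp only [Set.indicator_of_notMem h, if_neg h]
  rw [h1]
  have hz : ∀ k : ℕ, ∃ z : ℂ, w ∈ g '' (S' k) → z ∈ S' k ∧ g z = w := by
    intro k
    by_cases h : w ∈ g '' (S' k)
    · obtain ⟨z, hz, hz'⟩ := h
      exact ⟨z, fun _ => ⟨hz, hz'⟩⟩
    · exact ⟨0, fun h' => absurd h' h⟩
  choose z hz using hz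
  set t := s.filter (fun k => w ∈ g '' (S' k)) with ht
  have hinj : Set.InjOn z (t : Set ℕ) := by
    intro i hi j hj hij
    by_contra hne
    have hi' := (hz i (Finset.mem_filter.1 hi).2).1
    have hj' := (hz j (Finset.mem_filter.1 hj).2).1
    rw [← hij] at hj'
    exact Set.disjoint_left.1 (hdisj hne) hi' hj'
  have hcard : (t.image z).card = t.card := Finset.card_image_of_injOn hinj
  have hsub : ((t.image z : Finset ℂ) : Set ℂ) ⊆ {z : ℂ | z ∈ B ∧ g z = w} := by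
    intro y hy
    rw [Finset.mem_coe, Finset.mem_image] at hy
    obtain ⟨k, hk, rfl⟩ := hy
    have := hz k (Finset.mem_filter.1 hk).2
    exact ⟨hB k this.1, this.2⟩
  have h2 : ((t.card : ℕ) : ℕ∞) ≤ Set.encard {z : ℂ | z ∈ B ∧ g z = w} := by
    rw [← hcard, ← Set.encard_coe_eq_coe_finsetCard]
    exact Set.encard_le_encard hsub
  have h3 : ((t.card : ℕ) : ENNReal) = ENat.toENNReal ((t.card : ℕ) : ℕ∞) := by simp
  rw [h3]
  exact ENat.toENNReal_le.2 h2

theorem area_mult (g : ℂ → ℂ) (hg : DifferentiableOn ℂ g (Metric.ball 0 1))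
    (ψ : ℂ → ENNReal) (hψ : Measurable ψ) :
    ∫⁻ z in Metric.ball (0 : ℂ) 1, ENNReal.ofReal (‖deriv g z‖ ^ 2) * ψ (g z)
      ≤ ∫⁻ w, ψ w * ENat.toENNReal (Set.encard {z : ℂ | z ∈ Metric.ball (0 : ℂ) 1 ∧ g z = w}) := by
  classical
  set B : Set ℂ := Metric.ball (0 : ℂ) 1 with hB
  set Z : Set ℂ := {z | deriv g z ≠ 0} with hZ
  have hZm : MeasurableSet Z := (measurable_deriv g) (measurableSet_singleton 0).compl
  set S : Set ℂ := Z ∩ B with hS
  have hSm : MeasurableSet S := hZm.inter Metric.isOpen_ball.measurableSet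
  have hred : ∫⁻ z in B, ENNReal.ofReal (‖deriv g z‖ ^ 2) * ψ (g z)
      = ∫⁻ z in S, ENNReal.ofReal (‖deriv g z‖ ^ 2) * ψ (g z) := by
    rw [hS, ← Measure.restrict_restrict hZm, ← lintegral_indicator hZm]
    congr 1
    funext z
    by_cases h : z ∈ Z
    · simp only [Set.indicator_of_mem h]
    · have h' : deriv g z = 0 := not_not.1 h
      simp [Set.indicator_of_notMem h, h']
  rw [hred]
  set f' : ℂ → (ℂ →L[ℝ] ℂ) := fun z => (deriv g z) • (ContinuousLinearMap.id ℝ ℂ) with hf'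
  have hder : ∀ z ∈ B, HasFDerivAt g (f' z) z := by
    intro z hz
    have h1 : HasDerivAt g (deriv g z) z :=
      (hg.differentiableAt (Metric.isOpen_ball.mem_nhds hz)).hasDerivAt
    have h2 := h1.complexToReal_fderiv
    refine h2.congr_fderiv ?_
    ext <;> simp [hf']
  have hdet : ∀ z, (f' z).det = ‖deriv g z‖ ^ 2 := fun z => area_mult_det _
  have hdet0 : ∀ z ∈ S, (f' z).det ≠ 0 := by
    intro z hz
    rw [hdet]
    have : deriv g z ≠ 0 := hz.1
    positivity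
  let r : (ℂ →L[ℝ] ℂ) → NNReal := fun A =>
    if h : A.det ≠ 0 then ‖((A.toContinuousLinearEquivOfDetNeZero h).symm : ℂ →L[ℝ] ℂ)‖₊⁻¹ / 2 +
      (if ‖((A.toContinuousLinearEquivOfDetNeZero h).symm : ℂ →L[ℝ] ℂ)‖₊ = 0 then 1 else 0) else 1
  have rpos : ∀ A, r A ≠ 0 := by
    intro A
    simp only [r]
    split_ifs with h h2
    · positivity
    · positivity
    · exact one_ne_zero
  obtain ⟨t, A, hdisj, htm, hcov, happ, hex⟩ :=
    exists_partition_approximatesLinearOn_of_hasFDerivWithinAt g S f'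
      (fun x hx => (hder x hx.2).hasFDerivWithinAt) r rpos
  have hinj : ∀ k, InjOn g (S ∩ t k) := by
    intro k
    by_cases hne : S.Nonempty
    · obtain ⟨y, hy, hAy⟩ := hex hne k
      have hd : (A k).det ≠ 0 := by rw [hAy]; exact hdet0 y hy
      have h1 : ApproximatesLinearOn g
        (((A k).toContinuousLinearEquivOfDetNeZero hd : ℂ ≃L[ℝ] ℂ) : ℂ →L[ℝ] ℂ)
        (S ∩ t k) (r (A k)) := by
        simpa using happ k
      refine h1.injOn ?_
      by_cases hz : ‖(((A k).toContinuousLinearEquivOfDetNeZero hd).symm : ℂ →L[ℝ] ℂ)‖₊ = 0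
      · left
        refine ⟨fun a b => ?_⟩
        have h0 : (((A k).toContinuousLinearEquivOfDetNeZero hd).symm : ℂ →L[ℝ] ℂ) = 0 := by
          simpa using hz
        have : ∀ c : ℂ, c = 0 := by
          intro c
          have h3 := congrArg (fun L : ℂ →L[ℝ] ℂ => L ((A k).toContinuousLinearEquivOfDetNeZero hd c)) h0
          have h4 := ((A k).toContinuousLinearEquivOfDetNeZero hd).symm_apply_apply c
          rw [← h4]
          exact h3
        rw [this a, this b]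
      · right
        simp only [r, dif_pos hd, if_neg hz, add_zero]
        exact NNReal.half_lt_self (by simpa using hz)
    · rw [Set.not_nonempty_iff_eq_empty] at hne
      simp [hne]
  set S' : ℕ → Set ℂ := fun k => S ∩ t k with hS'
  have hSm' : ∀ k, MeasurableSet (S' k) := fun k => hSm.inter (htm k)
  have hder' : ∀ k, ∀ x ∈ S' k, HasFDerivWithinAt g (f' x) (S' k) x := fun k x hx =>
    (hder x hx.1.2).hasFDerivWithinAt
  have him : ∀ k, MeasurableSet (g '' (S' k)) := fun k =>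
    measurable_image_of_fderivWithin (hSm' k) (hder' k) (hinj k)
  have hU : S = ⋃ k, S' k := by
    ext x; constructor
    · intro hx
      obtain ⟨k, hk⟩ := mem_iUnion.1 (hcov hx)
      exact mem_iUnion.2 ⟨k, hx, hk⟩
    · intro hx
      obtain ⟨k, hk⟩ := mem_iUnion.1 hx
      exact hk.1
  have hdisj' : Pairwise (Function.onFun Disjoint S') := by
    intro i j hij
    exact (hdisj hij).mono inter_subset_right inter_subset_right
  have hcount := area_mult_count (B := B) g S' (fun k x hx => hx.1.2) hdisj'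
  calc ∫⁻ z in S, ENNReal.ofReal (‖deriv g z‖ ^ 2) * ψ (g z)
      = ∑' k, ∫⁻ z in S' k, ENNReal.ofReal (‖deriv g z‖ ^ 2) * ψ (g z) := by
        conv_lhs => rw [hU]
        exact lintegral_iUnion hSm' hdisj' _
    _ = ∑' k, ∫⁻ y in g '' (S' k), ψ y := by
        refine tsum_congr fun k => ?_
        rw [lintegral_image_eq_lintegral_abs_det_fderiv_mul volume (hSm' k) (hder' k) (hinj k) ψ]
        refine lintegral_congr fun x => ?_
        rw [hdet, abs_of_nonneg (by positivity)]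
    _ = ∑' k, ∫⁻ y, (g '' (S' k)).indicator ψ y := by
        refine tsum_congr fun k => ?_
        rw [lintegral_indicator (him k)]
    _ = ∫⁻ y, ∑' k, (g '' (S' k)).indicator ψ y :=
        (lintegral_tsum (fun k => (hψ.indicator (him k)).aemeasurable)).symm
    _ ≤ ∫⁻ w, ψ w * ENat.toENNReal (Set.encard {z : ℂ | z ∈ B ∧ g z = w}) := by
        refine lintegral_mono fun y => ?_
        have h1 : ∑' k, (g '' (S' k)).indicator ψ y =
            ψ y * ∑' k, (g '' (S' k)).indicator (fun _ => (1 : ENNReal)) y := by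
          rw [← ENNReal.tsum_mul_left]
          refine tsum_congr fun k => ?_
          by_cases hy : y ∈ g '' (S' k)
          · simp [hy]
          · simp [hy]
        rw [h1]
        exact mul_le_mul_right (hcount y) (ψ y)

/-! ### Layer -/

noncomputable def q19880 (r : ℝ) : ℝ := (1 + 3 * r) / (r ^ 2 * (1 + r) ^ 3)

theorem q19880_nonneg (r : ℝ) (hr : 0 < r) : 0 ≤ q19880 r := by
  unfold q19880
  have h1 : 0 ≤ 1 + 3 * r := by linarith
  have h2 : 0 ≤ r ^ 2 * (1 + r) ^ 3 := by positivity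
  exact div_nonneg h1 h2

theorem q19880_meas : Measurable q19880 := by
  unfold q19880
  fun_prop

theorem q19880_deriv (r : ℝ) (hr : 0 < r) :
    HasDerivAt (fun r : ℝ => -(r * (1 + r) ^ 2)⁻¹) (q19880 r) r := by
  have hid : HasDerivAt (fun r : ℝ => r) 1 r := hasDerivAt_id' r
  have h1 : HasDerivAt (fun r : ℝ => r * (1 + r) ^ 2)
      (1 * (1 + r) ^ 2 + r * ((2 : ℕ) * (1 + r) ^ (2 - 1) * 1)) r :=
    hid.mul ((hid.const_add 1).pow 2)
  have h2 : r * (1 + r) ^ 2 ≠ 0 := by positivity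
  have h3 := (h1.inv h2).neg
  refine h3.congr_deriv ?_
  unfold q19880
  have h4 : r ≠ 0 := hr.ne'
  have h5 : 1 + r ≠ 0 := by positivity
  field_simp
  push_cast
  ring

theorem q19880_tend : Tendsto (fun r : ℝ => -(r * (1 + r) ^ 2)⁻¹) atTop (𝓝 0) := by
  have h1 : Tendsto (fun r : ℝ => r * (1 + r) ^ 2) atTop atTop :=
    Tendsto.atTop_mul_atTop₀ tendsto_id
      ((tendsto_pow_atTop (by norm_num)).comp (tendsto_atTop_add_const_left _ 1 tendsto_id))
  have h2 := (tendsto_inv_atTop_zero.comp h1).neg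
  rw [neg_zero] at h2
  exact h2

theorem wt19880 (R : ℝ) (hR : 0 ≤ R) :
    ENNReal.ofReal (1 / (R * (1 + R) ^ 2)) ≤ ∫⁻ r in Ioi R, ENNReal.ofReal (q19880 r) := by
  rcases hR.eq_or_lt with h | h
  · rw [← h]; simp
  · have hd : ∀ x ∈ Ici R, HasDerivAt (fun r : ℝ => -(r * (1 + r) ^ 2)⁻¹) (q19880 x) x :=
      fun x hx => q19880_deriv x (lt_of_lt_of_le h hx)
    have hp : ∀ x ∈ Ioi R, 0 ≤ q19880 x := fun x hx => q19880_nonneg x (lt_trans h hx)
    have hi := integrableOn_Ioi_deriv_of_nonneg' hd hp q19880_tend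
    have hv := integral_Ioi_of_hasDerivAt_of_nonneg' hd hp q19880_tend
    rw [← ofReal_integral_eq_lintegral_ofReal hi
      ((ae_restrict_iff' measurableSet_Ioi).mpr (Eventually.of_forall hp)), hv]
    refine le_of_eq ?_
    congr 1
    rw [one_div]; ring

theorem fin19880 : ∫⁻ r in Ioi (0 : ℝ), ENNReal.ofReal (Real.pi * ((1 + 3 * r) / (1 + r) ^ 3)) =
    ENNReal.ofReal (2 * Real.pi) := by
  have hd : ∀ x ∈ Ici (0 : ℝ), HasDerivAt
      (fun r : ℝ => Real.pi * (-3 * (1 + r)⁻¹ + ((1 + r) ^ 2)⁻¹))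
      (Real.pi * ((1 + 3 * x) / (1 + x) ^ 3)) x := by
    intro x hx
    have hx0 : (0 : ℝ) ≤ x := hx
    have h5 : 1 + x ≠ 0 := by positivity
    have hid : HasDerivAt (fun r : ℝ => r) 1 x := hasDerivAt_id' x
    have h1 : HasDerivAt (fun r : ℝ => 1 + r) 1 x := hid.const_add 1
    have h2 := (h1.inv h5).const_mul (-3 : ℝ)
    have h3 : HasDerivAt (fun r : ℝ => ((1 + r) ^ 2)⁻¹)
        (-(((2 : ℕ) : ℝ) * (1 + x) ^ (2 - 1) * 1) / ((1 + x) ^ 2) ^ 2) x :=
      (h1.pow 2).inv (pow_ne_zero 2 h5)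
    have h4 := (h2.add h3).const_mul Real.pi
    refine h4.congr_deriv ?_
    field_simp
    push_cast
    ring
  have hp : ∀ x ∈ Ioi (0 : ℝ), 0 ≤ Real.pi * ((1 + 3 * x) / (1 + x) ^ 3) := by
    intro x hx
    have hx0 : (0 : ℝ) < x := hx
    have := Real.pi_pos
    positivity
  have ht : Tendsto (fun r : ℝ => Real.pi * (-3 * (1 + r)⁻¹ + ((1 + r) ^ 2)⁻¹)) atTop (𝓝 0) := by
    have h0 : Tendsto (fun r : ℝ => 1 + r) atTop atTop :=
      tendsto_atTop_add_const_left _ 1 tendsto_id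
    have h1 : Tendsto (fun r : ℝ => (1 + r)⁻¹) atTop (𝓝 0) := tendsto_inv_atTop_zero.comp h0
    have h2 : Tendsto (fun r : ℝ => ((1 + r) ^ 2)⁻¹) atTop (𝓝 0) :=
      tendsto_inv_atTop_zero.comp ((tendsto_pow_atTop (by norm_num)).comp h0)
    have h3 := ((h1.const_mul (-3 : ℝ)).add h2).const_mul Real.pi
    simpa using h3
  have hi := integrableOn_Ioi_deriv_of_nonneg' hd hp ht
  have hv := integral_Ioi_of_hasDerivAt_of_nonneg' hd hp ht
  rw [← ofReal_integral_eq_lintegral_ofReal hi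
    ((ae_restrict_iff' measurableSet_Ioi).mpr (Eventually.of_forall hp)), hv]
  congr 1
  norm_num
  ring

theorem meas19880 (m : ℂ → ENNReal) (hm : Measurable m)
    (hn : ∀ R : ℝ, 0 < R → ∫⁻ w in Metric.ball (0 : ℂ) R, m w ≤ ENNReal.ofReal (Real.pi * R ^ 2)) :
    ∫⁻ w, ENNReal.ofReal (1 / (‖w‖ * (1 + ‖w‖) ^ 2)) * m w ≤ ENNReal.ofReal (2 * Real.pi) := by
  classical
  set F : ℂ → ℝ → ENNReal := fun w r => if ‖w‖ < r then ENNReal.ofReal (q19880 r) * m w else 0
    with hF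
  have hFm : Measurable (Function.uncurry F) := by
    have h1 : Measurable (fun z : ℂ × ℝ => ENNReal.ofReal (q19880 z.2) * m z.1) :=
      ((q19880_meas.comp measurable_snd).ennreal_ofReal).mul (hm.comp measurable_fst)
    exact Measurable.ite (measurableSet_lt (measurable_fst.norm) measurable_snd) h1
      measurable_const
  calc ∫⁻ w, ENNReal.ofReal (1 / (‖w‖ * (1 + ‖w‖) ^ 2)) * m w
      ≤ ∫⁻ w, ∫⁻ r, F w r := by
        refine lintegral_mono fun w => ?_
        have h1 : (∫⁻ r, F w r) = (∫⁻ r in Ioi ‖w‖, ENNReal.ofReal (q19880 r)) * m w := by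
          rw [← lintegral_mul_const _ (q19880_meas.ennreal_ofReal),
            ← lintegral_indicator measurableSet_Ioi]
          refine lintegral_congr fun r => ?_
          simp only [hF, Set.indicator_apply, mem_Ioi]
        rw [h1]
        exact mul_le_mul_left (wt19880 _ (norm_nonneg w)) _
    _ = ∫⁻ r, ∫⁻ w, F w r := lintegral_lintegral_swap hFm.aemeasurable
    _ ≤ ∫⁻ r in Ioi (0 : ℝ), ENNReal.ofReal (Real.pi * ((1 + 3 * r) / (1 + r) ^ 3)) := by
        rw [← lintegral_indicator measurableSet_Ioi]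
        refine lintegral_mono fun r => ?_
        by_cases hr : 0 < r
        · rw [Set.indicator_of_mem (show r ∈ Ioi (0:ℝ) from hr)]
          have h1 : (∫⁻ w, F w r) = ENNReal.ofReal (q19880 r) *
              ∫⁻ w in Metric.ball (0 : ℂ) r, m w := by
            rw [← lintegral_const_mul _ hm, ← lintegral_indicator Metric.isOpen_ball.measurableSet]
            refine lintegral_congr fun w => ?_
            simp only [hF, Set.indicator_apply, mem_ball_zero_iff]
          rw [h1]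
          calc ENNReal.ofReal (q19880 r) * ∫⁻ w in Metric.ball (0 : ℂ) r, m w
              ≤ ENNReal.ofReal (q19880 r) * ENNReal.ofReal (Real.pi * r ^ 2) :=
                mul_le_mul_right (hn r hr) _
            _ = ENNReal.ofReal (q19880 r * (Real.pi * r ^ 2)) :=
                (ENNReal.ofReal_mul (q19880_nonneg r hr)).symm
            _ = _ := by
                congr 1
                unfold q19880
                have h4 : r ≠ 0 := hr.ne'
                have h5 : 1 + r ≠ 0 := by positivity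
                field_simp
        · have h1 : (∫⁻ w, F w r) = 0 := by
            rw [← lintegral_zero (μ := (volume : Measure ℂ))]
            refine lintegral_congr fun w => ?_
            simp only [hF]
            rw [if_neg]
            intro h
            exact hr (lt_of_le_of_lt (norm_nonneg w) h)
          rw [h1]
          exact bot_le
    _ = _ := fin19880



theorem layer (n : ℂ → ENNReal)
    (hn : ∀ R : ℝ, 0 < R → ∫⁻ w in Metric.ball (0 : ℂ) R, n w ≤ ENNReal.ofReal (Real.pi * R ^ 2)) :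
    ∫⁻ w, ENNReal.ofReal (1 / (‖w‖ * (1 + ‖w‖) ^ 2)) * n w ≤ ENNReal.ofReal (2 * Real.pi) := by
  obtain ⟨g, hgm, hgle, hgeq⟩ := exists_measurable_le_lintegral_eq volume
    (fun w : ℂ => ENNReal.ofReal (1 / (‖w‖ * (1 + ‖w‖) ^ 2)) * n w)
  rw [hgeq]
  set W : ℂ → ENNReal := fun w => ENNReal.ofReal (1 / (‖w‖ * (1 + ‖w‖) ^ 2)) with hW
  have hWm : Measurable W := by
    rw [hW]
    fun_prop
  have hWtop : ∀ w, W w ≠ ⊤ := fun w => ENNReal.ofReal_ne_top
  have hW0 : ∀ w, w ≠ 0 → W w ≠ 0 := by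
    intro w hw
    have h1 : 0 < ‖w‖ := norm_pos_iff.mpr hw
    have h2 : 0 < 1 / (‖w‖ * (1 + ‖w‖) ^ 2) := by positivity
    exact (ENNReal.ofReal_pos.mpr h2).ne'
  have hW00 : W 0 = 0 := by simp [hW]
  have hg0 : g 0 = 0 := by
    have := hgle 0
    simpa using this
  set m : ℂ → ENNReal := fun w => g w / W w with hm
  have hmm : Measurable m := hgm.div hWm
  have hmn : ∀ w, m w ≤ n w := by
    intro w
    by_cases hw : w = 0
    · subst hw
      simp [hm, hg0]
    · refine ENNReal.div_le_of_le_mul' ?_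
      exact hgle w
  have hgm' : ∀ w, g w = W w * m w := by
    intro w
    by_cases hw : w = 0
    · subst hw
      simp [hm, hg0, hW00]
    · exact (ENNReal.mul_div_cancel (hW0 w hw) (hWtop w)).symm
  calc ∫⁻ w, g w = ∫⁻ w, W w * m w := lintegral_congr hgm'
    _ ≤ _ := meas19880 m hmm fun R hR => (lintegral_mono hmn).trans (hn R hR)

/-! ### Comp -/

theorem mapc352 (c : ℂ) (hc : c ≠ 0) :
    Measure.map (fun z : ℂ => c * z) (volume : Measure ℂ) =
      ENNReal.ofReal ((‖c‖ ^ 2)⁻¹) • (volume : Measure ℂ) := by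
  have hdet : LinearMap.det (Algebra.lmul ℝ ℂ c) = ‖c‖ ^ 2 := by
    have h1 := Algebra.norm_apply ℝ c
    have h2 := Algebra.norm_complex_apply c
    rw [← Complex.normSq_eq_norm_sq]
    rw [← h2, h1]
  have hcn : 0 < ‖c‖ := norm_pos_iff.2 hc
  have hne : LinearMap.det (Algebra.lmul ℝ ℂ c) ≠ 0 := by
    rw [hdet]
    positivity
  have h := Measure.map_linearMap_addHaar_eq_smul_addHaar (μ := (volume : Measure ℂ)) hne
  rw [hdet, abs_of_pos (by positivity)] at h
  exact h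

theorem AMC_comp (g : ℂ → ℂ) (h : AMC g) (c u : ℂ) (hc : c ≠ 0) (hu : ‖u‖ = 1) :
    AMC (fun z => c * g (u * z)) := by
  intro R hR
  obtain ⟨N, hN⟩ : ∃ N : ℂ → ENNReal, N = fun w =>
      ENat.toENNReal (Set.encard {z : ℂ | z ∈ Metric.ball (0 : ℂ) 1 ∧ g z = w}) := ⟨_, rfl⟩
  have hu0 : u ≠ 0 := by
    intro h0
    rw [h0, norm_zero] at hu
    exact zero_ne_one hu
  have hcn : 0 < ‖c‖ := norm_pos_iff.2 hc
  have h1 : ∀ w, ENat.toENNReal (Set.encard {z : ℂ | z ∈ Metric.ball (0 : ℂ) 1 ∧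
      (fun z => c * g (u * z)) z = w}) = N (c⁻¹ * w) := by
    intro w
    rw [hN]
    simp only
    congr 1
    have hinj : Function.Injective (fun z : ℂ => u * z) := mul_right_injective₀ hu0
    rw [← hinj.encard_image]
    congr 1
    ext z
    simp only [Set.mem_image, Set.mem_setOf_eq, Metric.mem_ball, dist_zero_right]
    constructor
    · rintro ⟨y, ⟨hy1, hy2⟩, rfl⟩
      refine ⟨by rw [norm_mul, hu, one_mul]; exact hy1, ?_⟩
      rw [← hy2, inv_mul_cancel_left₀ hc]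
    · rintro ⟨hz1, hz2⟩
      refine ⟨u⁻¹ * z, ⟨?_, ?_⟩, ?_⟩
      · rw [norm_mul, norm_inv, hu, inv_one, one_mul]
        exact hz1
      · rw [mul_inv_cancel_left₀ hu0, hz2, mul_inv_cancel_left₀ hc]
      · rw [mul_inv_cancel_left₀ hu0]
  simp only [h1]
  have h2 := lintegral_map_equiv (μ := (volume : Measure ℂ))
    ((Metric.ball (0 : ℂ) R).indicator (fun w => N (c⁻¹ * w)))
    (Homeomorph.mulLeft₀ c hc).toMeasurableEquiv
  have hmap : Measure.map ((Homeomorph.mulLeft₀ c hc).toMeasurableEquiv) (volume : Measure ℂ) =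
      ENNReal.ofReal ((‖c‖ ^ 2)⁻¹) • (volume : Measure ℂ) := mapc352 c hc
  rw [hmap, lintegral_smul_measure] at h2
  have h3 : (fun a => (Metric.ball (0 : ℂ) R).indicator (fun w => N (c⁻¹ * w))
      ((Homeomorph.mulLeft₀ c hc).toMeasurableEquiv a)) =
      (Metric.ball (0 : ℂ) (R / ‖c‖)).indicator N := by
    funext a
    have he : ((Homeomorph.mulLeft₀ c hc).toMeasurableEquiv a) = c * a := rfl
    rw [he]
    by_cases ha : a ∈ Metric.ball (0 : ℂ) (R / ‖c‖)
    · have hca : c * a ∈ Metric.ball (0 : ℂ) R := by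
        rw [Metric.mem_ball, dist_zero_right] at ha ⊢
        rw [lt_div_iff₀ hcn] at ha
        rw [norm_mul, mul_comm]
        exact ha
      rw [Set.indicator_of_mem ha, Set.indicator_of_mem hca, inv_mul_cancel_left₀ hc]
    · have hca : c * a ∉ Metric.ball (0 : ℂ) R := by
        intro hca
        apply ha
        rw [Metric.mem_ball, dist_zero_right] at hca ⊢
        rw [lt_div_iff₀ hcn, mul_comm, ← norm_mul]
        exact hca
      rw [Set.indicator_of_notMem ha, Set.indicator_of_notMem hca]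
  rw [h3, lintegral_indicator measurableSet_ball, lintegral_indicator measurableSet_ball] at h2
  have h4 := h (R / ‖c‖) (by positivity)
  rw [hN] at h2
  rw [← h2] at h4
  rw [hN]
  obtain ⟨X, hX⟩ : ∃ X : ENNReal, X = ∫⁻ w in Metric.ball (0 : ℂ) R,
    (fun w => ENat.toENNReal (Set.encard {z : ℂ | z ∈ Metric.ball (0 : ℂ) 1 ∧ g z = w}))
      (c⁻¹ * w) := ⟨_, rfl⟩
  rw [← hX] at h4 ⊢
  rw [smul_eq_mul] at h4
  have h5 : ENNReal.ofReal (‖c‖ ^ 2) * (ENNReal.ofReal ((‖c‖ ^ 2)⁻¹) * X) = X := by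
    rw [← mul_assoc, ← ENNReal.ofReal_mul (by positivity), mul_inv_cancel₀ (by positivity),
      ENNReal.ofReal_one, one_mul]
  rw [← h5]
  have h6 : ENNReal.ofReal (‖c‖ ^ 2) * (ENNReal.ofReal ((‖c‖ ^ 2)⁻¹) * X) ≤
      ENNReal.ofReal (‖c‖ ^ 2) * ENNReal.ofReal (Real.pi * (R / ‖c‖) ^ 2) := by gcongr
  refine h6.trans (le_of_eq ?_)
  rw [← ENNReal.ofReal_mul (by positivity)]
  congr 1
  field_simp

/-! ### Log -/

theorem exists_log (g : ℂ → ℂ) (hg : DifferentiableOn ℂ g (Metric.ball 0 1))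
    (hne : ∀ z ∈ Metric.ball (0 : ℂ) 1, g z ≠ 0) (h1 : g 0 = 1) :
    ∃ G : ℂ → ℂ, DifferentiableOn ℂ G (Metric.ball 0 1) ∧ G 0 = 0 ∧
      ∀ z ∈ Metric.ball (0 : ℂ) 1, Complex.exp (G z) = g z := by
  have hopen : IsOpen (Metric.ball (0 : ℂ) 1) := Metric.isOpen_ball
  have h0 : (0 : ℂ) ∈ Metric.ball (0 : ℂ) 1 := Metric.mem_ball_self one_pos
  have hdg : DifferentiableOn ℂ (deriv g) (Metric.ball 0 1) := hg.deriv hopen
  have hq : DifferentiableOn ℂ (fun z => deriv g z / g z) (Metric.ball 0 1) := hdg.div hg hne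
  obtain ⟨G, hG0, hG⟩ := (hq.isExactOn_ball).with_val_at 0 0
  refine ⟨G, fun z hz => (hG z hz).differentiableAt.differentiableWithinAt, hG0, ?_⟩
  have hF : ∀ z ∈ Metric.ball (0 : ℂ) 1,
      HasDerivAt (fun z => g z * Complex.exp (-G z)) 0 z := by
    intro z hz
    have a1 : HasDerivAt g (deriv g z) z := (hg.differentiableAt (hopen.mem_nhds hz)).hasDerivAt
    have a2 := (hG z hz).neg.cexp
    have a3 := a1.mul a2
    have e : deriv g z * Complex.exp (-G z) + g z * (Complex.exp (-G z) * -(deriv g z / g z)) = 0 := by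
      have h7 : g z * (deriv g z / g z) = deriv g z := mul_div_cancel₀ _ (hne z hz)
      linear_combination (-Complex.exp (-G z)) * h7
    have e' : deriv g z * Complex.exp ((-G) z) + g z * (Complex.exp ((-G) z) * -(deriv g z / g z)) = 0 := e
    rw [e'] at a3
    exact a3
  intro z hz
  have h2 := hopen.is_const_of_deriv_eq_zero (convex_ball (0:ℂ) 1).isPreconnected
    (fun z hz => (hF z hz).differentiableAt.differentiableWithinAt)
    (fun z hz => (hF z hz).deriv) hz h0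
  simp only [hG0, neg_zero, Complex.exp_zero, mul_one, h1] at h2
  rw [Complex.exp_neg] at h2
  have := Complex.exp_ne_zero (G z)
  field_simp at h2
  exact h2.symm

/-! ### Kaparea -/

theorem kap_area (g G : ℂ → ℂ) (hg : DifferentiableOn ℂ g (Metric.ball 0 1)) (hmean : AMC g)
    (hG : DifferentiableOn ℂ G (Metric.ball 0 1))
    (hexp : ∀ z ∈ Metric.ball (0 : ℂ) 1, Complex.exp (G z) = g z) :
    ∫⁻ z in Metric.ball (0 : ℂ) 1, ENNReal.ofReal (kap (G z).re * ‖deriv G z‖ ^ 2)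
      ≤ ENNReal.ofReal (2 * Real.pi) := by
  set ψ : ℂ → ENNReal := fun w => ENNReal.ofReal (1 / (‖w‖ * (1 + ‖w‖) ^ 2)) with hψdef
  have hψ : Measurable ψ := by
    apply ENNReal.measurable_ofReal.comp
    fun_prop
  have hkap : ∀ s : ℝ, kap s = Real.exp s / (1 + Real.exp s) ^ 2 := by
    intro s
    unfold kap
    have h1 : Real.cosh (s / 2) = (Real.exp (s / 2) + Real.exp (-(s / 2))) / 2 := Real.cosh_eq _
    have h2 : Real.exp s = Real.exp (s / 2) * Real.exp (s / 2) := by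
      rw [← Real.exp_add]; ring_nf
    have h3 : Real.exp (-(s / 2)) = (Real.exp (s / 2))⁻¹ := Real.exp_neg _
    have hp := Real.exp_pos (s / 2)
    rw [h1, h3, h2]
    field_simp
    ring
  have key : ∀ z ∈ Metric.ball (0 : ℂ) 1,
      ENNReal.ofReal (kap (G z).re * ‖deriv G z‖ ^ 2) =
      ENNReal.ofReal (‖deriv g z‖ ^ 2) * ψ (g z) := by
    intro z hz
    have hnh : Metric.ball (0 : ℂ) 1 ∈ 𝓝 z := Metric.isOpen_ball.mem_nhds hz
    have hGd : HasDerivAt G (deriv G z) z := (hG.differentiableAt hnh).hasDerivAt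
    have he : g =ᶠ[𝓝 z] fun w => Complex.exp (G w) := by
      filter_upwards [hnh] with w hw
      exact (hexp w hw).symm
    have hd : deriv g z = Complex.exp (G z) * deriv G z := by
      rw [he.deriv_eq]
      exact hGd.cexp.deriv
    have hn : ‖g z‖ = Real.exp (G z).re := by
      rw [← hexp z hz, Complex.norm_exp]
    have hn2 : ‖deriv g z‖ = Real.exp (G z).re * ‖deriv G z‖ := by
      rw [hd, norm_mul, Complex.norm_exp]
    simp only [hψdef]
    rw [← ENNReal.ofReal_mul (by positivity)]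
    congr 1
    rw [hn2, hn, hkap]
    have hp := Real.exp_pos (G z).re
    field_simp
  rw [setLIntegral_congr_fun measurableSet_ball key]
  refine (area_mult g hg ψ hψ).trans ?_
  exact layer (fun w => ENat.toENNReal (Set.encard {z : ℂ | z ∈ Metric.ball (0 : ℂ) 1 ∧ g z = w})) hmean

/-! ### Zero -/

theorem only_zero (f : ℂ → ℂ) (hf : DifferentiableOn ℂ f (Metric.ball 0 1)) (h0 : f 0 = 0)
    (hd : deriv f 0 = 1) (hmean : AMC f) : ∀ z ∈ Metric.ball (0 : ℂ) 1, f z = 0 → z = 0 := by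
  intro z1 hz1 hfz1
  by_contra hne
  have han : AnalyticOnNhd ℂ f (Metric.ball 0 1) := hf.analyticOnNhd Metric.isOpen_ball
  have hz0 : (0 : ℂ) ∈ Metric.ball (0 : ℂ) 1 := Metric.mem_ball_self one_pos
  have hnc0 : ¬ (∀ᶠ z in 𝓝 (0 : ℂ), f z = 0) := by
    intro hev
    have : deriv f 0 = deriv (fun _ : ℂ => (0 : ℂ)) 0 := Filter.EventuallyEq.deriv_eq hev
    rw [hd, deriv_const] at this
    exact one_ne_zero this
  have hnc1 : ¬ (∀ᶠ z in 𝓝 z1, f z = 0) := by
    intro hev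
    have hpc : IsPreconnected (Metric.ball (0 : ℂ) 1) := (convex_ball (0 : ℂ) 1).isPreconnected
    have heq : EqOn f 0 (Metric.ball (0 : ℂ) 1) :=
      han.eqOn_zero_of_preconnected_of_eventuallyEq_zero hpc hz1 hev
    apply hnc0
    filter_upwards [Metric.isOpen_ball.mem_nhds hz0] with z hz
    exact heq hz
  have hm0 : 𝓝 (0 : ℂ) ≤ map f (𝓝 0) := by
    rcases (han 0 hz0).eventually_constant_or_nhds_le_map_nhds with h | h
    · exact absurd (by simpa [h0] using h) hnc0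
    · simpa [h0] using h
  have hm1 : 𝓝 (0 : ℂ) ≤ map f (𝓝 z1) := by
    rcases (han z1 hz1).eventually_constant_or_nhds_le_map_nhds with h | h
    · exact absurd (by simpa [hfz1] using h) hnc1
    · simpa [hfz1] using h
  obtain ⟨U0, U1, hU0, hU1, h0U, h1U, hdisj⟩ := t2_separation (Ne.symm hne)
  have hA : f '' (U0 ∩ Metric.ball 0 1) ∈ 𝓝 (0 : ℂ) :=
    hm0 (image_mem_map (Filter.inter_mem (hU0.mem_nhds h0U) (Metric.isOpen_ball.mem_nhds hz0)))
  have hB : f '' (U1 ∩ Metric.ball 0 1) ∈ 𝓝 (0 : ℂ) :=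
    hm1 (image_mem_map (Filter.inter_mem (hU1.mem_nhds h1U) (Metric.isOpen_ball.mem_nhds hz1)))
  obtain ⟨R, hR, hball⟩ := Metric.mem_nhds_iff.1 (Filter.inter_mem hA hB)
  have hlow : ∀ w ∈ Metric.ball (0 : ℂ) R, (2 : ENNReal) ≤
      ENat.toENNReal (Set.encard {z : ℂ | z ∈ Metric.ball (0 : ℂ) 1 ∧ f z = w}) := by
    intro w hw
    obtain ⟨⟨a, ⟨haU, hab⟩, haw⟩, ⟨b, ⟨hbU, hbb⟩, hbw⟩⟩ := hball hw
    have hab' : a ≠ b := by
      rintro rfl
      exact Set.disjoint_left.1 hdisj haU hbU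
    have hsub : ({a, b} : Set ℂ) ⊆ {z : ℂ | z ∈ Metric.ball (0 : ℂ) 1 ∧ f z = w} := by
      rintro x (rfl | rfl)
      · exact ⟨hab, haw⟩
      · exact ⟨hbb, hbw⟩
    have h2 : (2 : ℕ∞) ≤ Set.encard {z : ℂ | z ∈ Metric.ball (0 : ℂ) 1 ∧ f z = w} := by
      rw [← Set.encard_pair hab']
      exact Set.encard_le_encard hsub
    have := ENat.toENNReal_mono h2
    simpa using this
  have hm := hmean R hR
  have h1 : (∫⁻ w in Metric.ball (0 : ℂ) R, (2 : ENNReal)) ≤
      (∫⁻ w in Metric.ball (0 : ℂ) R,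
        ENat.toENNReal (Set.encard {z : ℂ | z ∈ Metric.ball (0 : ℂ) 1 ∧ f z = w})) :=
    setLIntegral_mono' measurableSet_ball hlow
  have h2 := h1.trans hm
  rw [setLIntegral_const, Complex.volume_ball] at h2
  have hpi : (0 : ℝ) < Real.pi * R ^ 2 := by positivity
  have h3 : (2 : ENNReal) * (ENNReal.ofReal R ^ 2 * (NNReal.pi : ENNReal)) =
      ENNReal.ofReal (2 * (Real.pi * R ^ 2)) := by
    rw [ENNReal.ofReal_mul (by norm_num), ENNReal.ofReal_mul Real.pi_pos.le,
      ENNReal.ofReal_pow hR.le]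
    have : ENNReal.ofReal Real.pi = (NNReal.pi : ENNReal) := by
      rw [ENNReal.ofReal, ← NNReal.coe_real_pi, Real.toNNReal_coe]
    rw [this]
    simp
    ring
  rw [h3, ENNReal.ofReal_le_ofReal_iff hpi.le] at h2
  linarith

/-! ### Growth -/

theorem growth_real_q (x : ℝ) (hx : x ≠ 0) :
    HasDerivAt (fun x : ℝ => (1 - x) ^ 4 / x ^ 2) (-(2 * (1 - x) ^ 3 * (1 + x) / x ^ 3)) x := by
  have h1 : HasDerivAt (fun x : ℝ => 1 - x) (-1) x := by
    simpa using (hasDerivAt_id x).const_sub 1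
  have h2 := h1.pow 4
  have h3 : HasDerivAt (fun x : ℝ => x ^ 2) (2 * x) x := by
    simpa using hasDerivAt_pow 2 x
  have h4 := h2.div h3 (pow_ne_zero 2 hx)
  refine h4.congr_deriv ?_
  simp only [Pi.pow_apply]
  field_simp
  ring

theorem growth_real (f : ℂ → ℂ) (hf : DifferentiableOn ℂ f (Metric.ball 0 1)) (h0 : f 0 = 0)
    (hd : deriv f 0 = 1) (hne : ∀ z ∈ Metric.ball (0 : ℂ) 1, f z = 0 → z = 0)
    (hlog : ∀ r : ℝ, 0 < r → r < 1 →
      ‖deriv f (r : ℂ)‖ ≤ (1 + r) / (r * (1 - r)) * ‖f (r : ℂ)‖) (r : ℝ) (hr0 : 0 < r) (hr1 : r < 1) :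
    ‖f (r : ℂ)‖ ≤ r / (1 - r) ^ 2 := by
  have hball : ∀ x : ℝ, |x| < 1 → (x : ℂ) ∈ Metric.ball (0 : ℂ) 1 := by
    intro x hx
    rw [mem_ball_zero_iff, Complex.norm_real]
    exact hx
  have hfd : ∀ x : ℝ, |x| < 1 → HasDerivAt (fun y : ℝ => f (y : ℂ)) (deriv f (x : ℂ)) x := by
    intro x hx
    have h1 : DifferentiableAt ℂ f (x : ℂ) :=
      (hf _ (hball x hx)).differentiableAt (Metric.isOpen_ball.mem_nhds (hball x hx))
    exact h1.hasDerivAt.comp_ofReal
  set w : ℝ → ℝ := fun x => ‖f (x : ℂ)‖ ^ 2 * ((1 - x) ^ 4 / x ^ 2) with hw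
  have hwd : ∀ x ∈ Ioo (0 : ℝ) 1, HasDerivAt w
      (2 * inner ℝ (f (x : ℂ)) (deriv f (x : ℂ)) * ((1 - x) ^ 4 / x ^ 2) +
        ‖f (x : ℂ)‖ ^ 2 * (-(2 * (1 - x) ^ 3 * (1 + x) / x ^ 3))) x := by
    intro x hx
    have h1 := (hfd x (by rw [abs_of_pos hx.1]; exact hx.2)).norm_sq
    exact h1.mul (growth_real_q x hx.1.ne')
  have hanti : AntitoneOn w (Ioo 0 1) := by
    apply antitoneOn_of_deriv_nonpos (convex_Ioo 0 1)
    · intro x hx
      exact (hwd x hx).continuousAt.continuousWithinAt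
    · rw [interior_Ioo]
      intro x hx
      exact (hwd x hx).differentiableAt.differentiableWithinAt
    · rw [interior_Ioo]
      intro x hx
      rw [(hwd x hx).deriv]
      obtain ⟨hx0, hx1⟩ := hx
      have hx2 : 0 < 1 - x := by linarith
      have h1 : inner ℝ (f (x : ℂ)) (deriv f (x : ℂ)) ≤
          (1 + x) / (x * (1 - x)) * ‖f (x : ℂ)‖ ^ 2 := by
        calc inner ℝ (f (x : ℂ)) (deriv f (x : ℂ)) ≤ ‖f (x : ℂ)‖ * ‖deriv f (x : ℂ)‖ :=
              real_inner_le_norm _ _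
          _ ≤ ‖f (x : ℂ)‖ * ((1 + x) / (x * (1 - x)) * ‖f (x : ℂ)‖) :=
              mul_le_mul_of_nonneg_left (hlog x hx0 hx1) (norm_nonneg _)
          _ = _ := by ring
      have h2 : 0 ≤ 2 * ((1 - x) ^ 4 / x ^ 2) := by positivity
      have h3 := mul_le_mul_of_nonneg_right h1 h2
      have h4 : (1 + x) / (x * (1 - x)) * ‖f (x : ℂ)‖ ^ 2 * (2 * ((1 - x) ^ 4 / x ^ 2)) =
          ‖f (x : ℂ)‖ ^ 2 * (2 * (1 - x) ^ 3 * (1 + x) / x ^ 3) := by
        field_simp
      rw [h4] at h3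
      linarith
  -- the limit at `0`
  have hlim : Tendsto w (𝓝[>] 0) (𝓝 1) := by
    have h1 := hasDerivAt_iff_tendsto_slope.1 (hfd 0 (by simp))
    have h2 : Tendsto (slope (fun y : ℝ => f (y : ℂ)) 0) (𝓝[>] 0) (𝓝 (deriv f ((0 : ℝ) : ℂ))) :=
      h1.mono_left (nhdsWithin_mono _ (fun x hx => ne_of_gt hx))
    rw [Complex.ofReal_zero, hd] at h2
    have h3 : Tendsto (fun x : ℝ => (1 - x) ^ 4) (𝓝[>] 0) (𝓝 1) := by
      have : Tendsto (fun x : ℝ => (1 - x) ^ 4) (𝓝 0) (𝓝 ((1 - 0) ^ 4)) := by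
        apply Continuous.tendsto
        fun_prop
      rw [sub_zero, one_pow] at this
      exact this.mono_left nhdsWithin_le_nhds
    have h4 := ((h2.norm).pow 2).mul h3
    rw [norm_one, one_pow, one_mul] at h4
    refine h4.congr' ?_
    filter_upwards [self_mem_nhdsWithin] with x hx
    have hx0 : (0 : ℝ) < x := hx
    rw [hw]
    simp only [slope, sub_zero, vsub_eq_sub, Complex.ofReal_zero, h0]
    rw [norm_smul, norm_inv, Real.norm_of_nonneg hx0.le]
    field_simp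
  have hwr : w r ≤ 1 := by
    refine ge_of_tendsto hlim ?_
    have : Ioo (0 : ℝ) r ∈ 𝓝[>] (0 : ℝ) := Ioo_mem_nhdsGT hr0
    filter_upwards [this] with x hx
    exact hanti ⟨hx.1, hx.2.trans hr1⟩ ⟨hr0, hr1⟩ hx.2.le
  have h1r : 0 < 1 - r := by linarith
  have h5 : ‖f (r : ℂ)‖ ^ 2 ≤ (r / (1 - r) ^ 2) ^ 2 := by
    have h6 : ‖f (r : ℂ)‖ ^ 2 * ((1 - r) ^ 4 / r ^ 2) ≤ 1 := hwr
    have h7 : 0 < (1 - r) ^ 4 / r ^ 2 := by positivity
    rw [← le_div_iff₀ h7] at h6
    refine h6.trans (le_of_eq ?_)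
    field_simp
  exact (pow_le_pow_iff_left₀ (norm_nonneg _) (by positivity) two_ne_zero).1 h5

/-! ### Rot -/

theorem rotate (f : ℂ → ℂ) (hf : DifferentiableOn ℂ f (Metric.ball 0 1)) (h0 : f 0 = 0)
    (hd : deriv f 0 = 1) (hmean : AMC f) (u : ℂ) (hu : ‖u‖ = 1) :
    DifferentiableOn ℂ (fun z => u⁻¹ * f (u * z)) (Metric.ball 0 1) ∧
      (fun z => u⁻¹ * f (u * z)) 0 = 0 ∧ deriv (fun z => u⁻¹ * f (u * z)) 0 = 1 ∧
      AMC (fun z => u⁻¹ * f (u * z)) := by
  have hu0 : u ≠ 0 := by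
    intro h
    rw [h, norm_zero] at hu
    exact zero_ne_one hu
  refine ⟨?_, ?_, ?_, AMC_comp f hmean u⁻¹ u (inv_ne_zero hu0) hu⟩
  · apply DifferentiableOn.const_mul
    refine hf.comp (by fun_prop) ?_
    intro z hz
    rw [Metric.mem_ball, dist_zero_right] at hz ⊢
    rw [norm_mul, hu, one_mul]
    exact hz
  · show u⁻¹ * f (u * 0) = 0
    rw [mul_zero, h0, mul_zero]
  · have hfd : HasDerivAt f 1 (u * 0) := by
      rw [mul_zero, ← hd]
      exact (hf.differentiableAt (Metric.ball_mem_nhds 0 one_pos)).hasDerivAt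
    have h1 : HasDerivAt (fun z : ℂ => u * z) u 0 := by
      simpa using (hasDerivAt_id (0 : ℂ)).const_mul u
    have h2 : HasDerivAt (fun z : ℂ => f (u * z)) (1 * u) 0 := hfd.comp (0 : ℂ) h1
    have h3 := (h2.const_mul u⁻¹).deriv
    rw [h3, one_mul, inv_mul_cancel₀ hu0]

/-! ### Slit -/

theorem slit_ne {z : ℂ} (hz : ‖z‖ < 1) : 1 - z ≠ 0 := by
  intro h
  have h1 : z = 1 := (sub_eq_zero.mp h).symm
  rw [h1, norm_one] at hz
  exact lt_irrefl _ hz

theorem slit_q_re {z : ℂ} (hz : ‖z‖ < 1) : 0 < ((1 + z) / (1 - z)).re := by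
  have h0 : 0 < Complex.normSq (1 - z) := Complex.normSq_pos.mpr (slit_ne hz)
  rw [Complex.div_re, ← add_div]
  apply div_pos _ h0
  have h1 : Complex.normSq z < 1 := by
    rw [Complex.normSq_eq_norm_sq]
    have h2 := norm_nonneg z
    nlinarith
  rw [Complex.normSq_apply] at h1
  simp only [Complex.add_re, Complex.sub_re, Complex.one_re, Complex.add_im, Complex.sub_im,
    Complex.one_im]
  nlinarith

theorem slit_mem {K : ℝ} (hK : 0 < K) {q : ℂ} (hq : 0 < q.re) :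
    1 + 4 * ((K : ℂ) * q ^ 2) ∈ Complex.slitPlane := by
  have h1 : (1 + 4 * ((K : ℂ) * q ^ 2)).re = 1 + 4 * (K * (q.re * q.re - q.im * q.im)) := by
    simp [sq]
  have h2 : (1 + 4 * ((K : ℂ) * q ^ 2)).im = 4 * (K * (q.re * q.im + q.im * q.re)) := by
    simp [sq]
  rw [Complex.mem_slitPlane_iff, h1, h2]
  by_cases hi : q.im = 0
  · left
    rw [hi]
    have h3 : 0 < K * (q.re * q.re) := by positivity
    nlinarith
  · right
    have h3 : q.re * q.im ≠ 0 := mul_ne_zero hq.ne' hi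
    intro h4
    have h5 : 8 * K * (q.re * q.im) = 0 := by linarith
    rcases mul_eq_zero.mp h5 with h6 | h6
    · linarith
    · exact h3 h6

theorem slit_s_re {u : ℂ} (hu : u ∈ Complex.slitPlane) : 0 < (Complex.exp (Complex.log u / 2)).re := by
  rw [Complex.exp_re]
  apply mul_pos (Real.exp_pos _)
  have h1 := Complex.mem_slitPlane_iff_arg.mp hu
  have h2 := Complex.neg_pi_lt_arg u
  have h3 := lt_of_le_of_ne (Complex.arg_le_pi u) h1.1
  have h4 : (Complex.log u / 2).im = Complex.arg u / 2 := by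
    rw [Complex.div_ofNat_im, Complex.log_im]
  rw [h4]
  apply Real.cos_pos_of_mem_Ioo
  constructor <;> linarith

theorem slit_s_sq {u : ℂ} (hu : u ∈ Complex.slitPlane) : Complex.exp (Complex.log u / 2) ^ 2 = u := by
  rw [← Complex.exp_nat_mul]
  have h1 : ((2 : ℕ) : ℂ) * (Complex.log u / 2) = Complex.log u := by
    push_cast
    ring
  rw [h1, Complex.exp_log (Complex.slitPlane_ne_zero hu)]

theorem slit_sqeq {a b : ℂ} (ha : 0 < a.re) (hb : 0 < b.re) (h : a ^ 2 = b ^ 2) : a = b := by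
  rcases sq_eq_sq_iff_eq_or_eq_neg.mp h with h1 | h1
  · exact h1
  · exfalso
    have h2 := congrArg Complex.re h1
    rw [Complex.neg_re] at h2
    linarith

theorem slit_deriv {K : ℝ} (hK : 0 < K) {z : ℂ} (hz : ‖z‖ < 1) :
    HasDerivAt (fun z : ℂ => Complex.exp (Complex.log (1 + 4 * ((K : ℂ) * ((1 + z) / (1 - z)) ^ 2)) / 2))
      (Complex.exp (Complex.log (1 + 4 * ((K : ℂ) * ((1 + z) / (1 - z)) ^ 2)) / 2)
        * ((4 * ((K : ℂ) * (2 * ((1 + z) / (1 - z)) * (2 / (1 - z) ^ 2))))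
          / (1 + 4 * ((K : ℂ) * ((1 + z) / (1 - z)) ^ 2)) / 2)) z := by
  have hne := slit_ne hz
  have hq : HasDerivAt (fun z : ℂ => (1 + z) / (1 - z)) (2 / (1 - z) ^ 2) z := by
    have h1 : HasDerivAt (fun z : ℂ => 1 + z) 1 z := (hasDerivAt_id z).const_add 1
    have h2 : HasDerivAt (fun z : ℂ => 1 - z) (-1) z := (hasDerivAt_id z).const_sub 1
    have h3 := h1.div h2 hne
    have e : (1 * (1 - z) - (1 + z) * -1) / (1 - z) ^ 2 = 2 / (1 - z) ^ 2 := by
      congr 1
      ring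
    rw [e] at h3
    exact h3
  have hw : HasDerivAt (fun z : ℂ => 1 + 4 * ((K : ℂ) * ((1 + z) / (1 - z)) ^ 2))
      (4 * ((K : ℂ) * (2 * ((1 + z) / (1 - z)) * (2 / (1 - z) ^ 2)))) z := by
    have h2 : HasDerivAt (fun z : ℂ => ((1 + z) / (1 - z)) ^ 2)
        (2 * ((1 + z) / (1 - z)) * (2 / (1 - z) ^ 2)) z := by
      have h3 := hq.pow 2
      simp only [Nat.add_one_sub_one, pow_one, Nat.cast_ofNat] at h3
      exact h3
    exact ((h2.const_mul (K : ℂ)).const_mul 4).const_add 1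
  have hl := hw.clog (slit_mem hK (slit_q_re hz))
  exact (hl.div_const 2).cexp



theorem slit_map (r : ℝ) (hr0 : 0 < r) (hr1 : r < 1) :
    ∃ ω : ℂ → ℂ, DifferentiableOn ℂ ω (Metric.ball 0 1) ∧
      (∀ z ∈ Metric.ball (0 : ℂ) 1, ω z ∈ Metric.ball (0 : ℂ) 1 ∧ ω z ≠ 0) ∧
      Set.InjOn ω (Metric.ball 0 1) ∧ ω 0 = (r : ℂ) ∧
      deriv ω 0 = ((4 * r * (1 - r) / (1 + r) : ℝ) : ℂ) := by
  obtain ⟨K, hKdef⟩ : ∃ K : ℝ, K = r / (1 - r) ^ 2 := ⟨_, rfl⟩
  have h1r : 0 < 1 - r := by linarith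
  have hK : 0 < K := by rw [hKdef]; positivity
  obtain ⟨q, hq⟩ : ∃ q : ℂ → ℂ, q = fun z => (1 + z) / (1 - z) := ⟨_, rfl⟩
  obtain ⟨s, hs⟩ : ∃ s : ℂ → ℂ, s = fun z : ℂ =>
    Complex.exp (Complex.log (1 + 4 * ((K : ℂ) * ((1 + z) / (1 - z)) ^ 2)) / 2) := ⟨_, rfl⟩
  have hqre : ∀ z : ℂ, ‖z‖ < 1 → 0 < (q z).re := by
    intro z hz
    rw [hq]
    exact slit_q_re hz
  have hssq : ∀ z : ℂ, ‖z‖ < 1 → s z ^ 2 = 1 + 4 * ((K : ℂ) * q z ^ 2) := by
    intro z hz
    rw [hs, hq]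
    exact slit_s_sq (slit_mem hK (slit_q_re hz))
  have hsre : ∀ z : ℂ, ‖z‖ < 1 → 0 < (s z).re := by
    intro z hz
    rw [hs]
    exact slit_s_re (slit_mem hK (slit_q_re hz))
  have hs1 : ∀ z : ℂ, ‖z‖ < 1 → s z + 1 ≠ 0 := by
    intro z hz h
    have h2 := congrArg Complex.re h
    rw [Complex.add_re, Complex.one_re, Complex.zero_re] at h2
    linarith [hsre z hz]
  have hKc : (K : ℂ) ≠ 0 := by exact_mod_cast hK.ne'
  have hd : ∀ z : ℂ, ‖z‖ < 1 → HasDerivAt s (s z * ((4 * ((K : ℂ) * (2 * q z * (2 / (1 - z) ^ 2))))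
          / (1 + 4 * ((K : ℂ) * q z ^ 2)) / 2)) z := by
    intro z hz
    rw [hs, hq]
    exact slit_deriv hK hz
  have hω : ∀ z : ℂ, ‖z‖ < 1 → HasDerivAt (fun z => (s z - 1) / (s z + 1))
      ((s z * ((4 * ((K : ℂ) * (2 * q z * (2 / (1 - z) ^ 2))))
          / (1 + 4 * ((K : ℂ) * q z ^ 2)) / 2) * (s z + 1) - (s z - 1) *
        (s z * ((4 * ((K : ℂ) * (2 * q z * (2 / (1 - z) ^ 2))))
          / (1 + 4 * ((K : ℂ) * q z ^ 2)) / 2))) / (s z + 1) ^ 2) z := by
    intro z hz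
    exact ((hd z hz).sub_const 1).div ((hd z hz).add_const 1) (hs1 z hz)
  have h0 : ‖(0 : ℂ)‖ < 1 := by simp
  have hrc : (1 : ℂ) - r ≠ 0 := by
    have h2 : ((1 - r : ℝ) : ℂ) ≠ 0 := by exact_mod_cast h1r.ne'
    simpa using h2
  have hrc2 : (1 : ℂ) + r ≠ 0 := by
    have h2 : ((1 + r : ℝ) : ℂ) ≠ 0 := by exact_mod_cast (by linarith : (0:ℝ) < 1 + r).ne'
    simpa using h2
  have hq0 : q 0 = 1 := by rw [hq]; simp
  have hKc2 : (K : ℂ) = r / (1 - r) ^ 2 := by rw [hKdef]; push_cast; ring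
  have hs0 : s 0 = (1 + r) / (1 - r) := by
    apply slit_sqeq (hsre 0 h0)
    · have h2 : ((1 : ℂ) + r) / (1 - r) = (((1 + r) / (1 - r) : ℝ) : ℂ) := by push_cast; ring
      rw [h2, Complex.ofReal_re]
      have : 0 < 1 + r := by linarith
      positivity
    · rw [hssq 0 h0, hq0, hKc2]
      field_simp
      ring
  refine ⟨fun z => (s z - 1) / (s z + 1), ?_, ?_, ?_, ?_, ?_⟩
  · intro z hz
    rw [mem_ball_zero_iff] at hz
    exact (hω z hz).differentiableAt.differentiableWithinAt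
  · intro z hz
    rw [mem_ball_zero_iff] at hz
    constructor
    · rw [mem_ball_zero_iff]
      show ‖(s z - 1) / (s z + 1)‖ < 1
      have h2 : 0 < ‖s z + 1‖ := norm_pos_iff.mpr (hs1 z hz)
      rw [norm_div, div_lt_one h2]
      have h3 : ‖s z - 1‖ ^ 2 < ‖s z + 1‖ ^ 2 := by
        rw [← Complex.normSq_eq_norm_sq, ← Complex.normSq_eq_norm_sq, Complex.normSq_apply,
          Complex.normSq_apply]
        simp only [Complex.add_re, Complex.sub_re, Complex.one_re, Complex.add_im, Complex.sub_im,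
          Complex.one_im]
        nlinarith [hsre z hz]
      exact lt_of_pow_lt_pow_left₀ 2 h2.le h3
    · intro h2
      have h2' : (s z - 1) / (s z + 1) = 0 := h2
      rcases div_eq_zero_iff.mp h2' with h3 | h3
      · have h4 : s z = 1 := sub_eq_zero.mp h3
        have h5 := hssq z hz
        rw [h4] at h5
        have h6 : (K : ℂ) * q z ^ 2 = 0 := by linear_combination (-1 / 4 : ℂ) * h5
        rcases mul_eq_zero.mp h6 with h7 | h7
        · exact hKc h7
        · have h8 : q z = 0 := by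
            rcases pow_eq_zero_iff (two_ne_zero) |>.mp h7 with h9
            exact h9
          have h9 := hqre z hz
          rw [h8, Complex.zero_re] at h9
          exact lt_irrefl _ h9
      · exact hs1 z hz h3
  · intro z hz y hy h
    rw [mem_ball_zero_iff] at hz hy
    have h2 : (s z - 1) / (s z + 1) = (s y - 1) / (s y + 1) := h
    rw [div_eq_div_iff (hs1 z hz) (hs1 y hy)] at h2
    have h3 : s z = s y := by linear_combination (1 / 2 : ℂ) * h2
    have h4 := hssq z hz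
    have h5 := hssq y hy
    rw [h3, h5] at h4
    have h6 : (K : ℂ) * q z ^ 2 = (K : ℂ) * q y ^ 2 := by linear_combination (-1 / 4 : ℂ) * h4
    have h7 : q z ^ 2 = q y ^ 2 := mul_left_cancel₀ hKc h6
    have h8 : q z = q y := slit_sqeq (hqre z hz) (hqre y hy) h7
    have h9 : (1 + z) / (1 - z) = (1 + y) / (1 - y) := by
      have h10 := h8
      rw [hq] at h10
      exact h10
    rw [div_eq_div_iff (slit_ne hz) (slit_ne hy)] at h9
    linear_combination (1 / 2 : ℂ) * h9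
  · show (s 0 - 1) / (s 0 + 1) = (r : ℂ)
    rw [hs0]
    have h2 : (1 + (r : ℂ)) / (1 - r) + 1 = 2 / (1 - r) := by
      field_simp
      ring
    have h3 : (1 + (r : ℂ)) / (1 - r) - 1 = 2 * r / (1 - r) := by
      field_simp
      ring
    rw [h2, h3]
    field_simp
  · rw [(hω 0 h0).deriv, ← hssq 0 h0, hq0, hs0, hKc2]
    have h2 : (1 + (r : ℂ)) / (1 - r) + 1 = 2 / (1 - r) := by
      field_simp
      ring
    have h3 : (1 + (r : ℂ)) / (1 - r) - 1 = 2 * r / (1 - r) := by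
      field_simp
      ring
    rw [h2, h3]
    push_cast
    field_simp
    ring

end AM287
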