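import Pool.Agent.Helper287.AM.Hyp
import Pool.Agent.Helper287.AM.Low
import Pool.Agent.Helper287.AM.Plane

set_option autoImplicit false
set_option linter.all false

open MeasureTheory Set Filter Topology

namespace AM287

/-! ### Polar -/

theorem polar_AA (G : ℂ → ℂ) (hG : DifferentiableOn ℂ G (Metric.ball 0 1)) (t1 t2 : ℝ)
    (h1 : 0 < t1) (h12 : t1 ≤ t2) (h2 : t2 < 1) :
    ENNReal.ofReal (∫ r in t1..t2, AA G kap r / r)
      ≤ ∫⁻ z in Metric.ball (0 : ℂ) 1, ENNReal.ofReal (kap (G z).re * ‖deriv G z‖ ^ 2) := by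
  classical
  have hkap : ∀ s, 0 ≤ kap s := fun s => by unfold kap; positivity
  have hkapc : Continuous kap := by
    unfold kap
    refine Continuous.div continuous_const (by fun_prop) (fun x => ?_)
    have := Real.cosh_pos (x / 2)
    positivity
  set g : ℝ → ℝ → ℝ := fun r α => kap (xx G r α) * ‖WW G r α‖ ^ 2 / r with hg
  have hg0 : ∀ r α, 0 < r → 0 ≤ g r α := by
    intro r α hr
    rw [hg]
    have := hkap (xx G r α)
    positivity
  have hcm : ∀ r α : ℝ, circleMap 0 r (α + 2 * Real.pi) = circleMap 0 r α := by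
    intro r α
    exact periodic_circleMap 0 r α
  have hper : ∀ r, Function.Periodic (g r) (2 * Real.pi) := by
    intro r α
    simp only [hg, xx, WW, hcm]
  have hAA : ∀ r, AA G kap r / r = ∫ α in (-Real.pi)..Real.pi, g r α := by
    intro r
    have e1 : AA G kap r / r = ∫ α in (0:ℝ)..(0 + 2 * Real.pi), g r α := by
      rw [zero_add, AA, hg]
      rw [← intervalIntegral.integral_div]
    rw [e1, (hper r).intervalIntegral_add_eq 0 (-Real.pi)]
    congr 1
    ring
  have hAA0 : ∀ r, 0 < r → 0 ≤ AA G kap r / r := by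
    intro r hr
    rw [hAA]
    refine intervalIntegral.integral_nonneg (by linarith [Real.pi_pos]) (fun α _ => hg0 r α hr)
  -- outer
  have step1 : ENNReal.ofReal (∫ r in t1..t2, AA G kap r / r) ≤
      ∫⁻ r in Ioc t1 t2, ENNReal.ofReal (AA G kap r / r) := by
    rw [intervalIntegral.integral_of_le h12]
    calc ENNReal.ofReal (∫ r in Ioc t1 t2, AA G kap r / r)
        ≤ ‖∫ r in Ioc t1 t2, AA G kap r / r‖ₑ := Real.ofReal_le_enorm _
      _ ≤ ∫⁻ r in Ioc t1 t2, ‖AA G kap r / r‖ₑ := enorm_integral_le_lintegral_enorm _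
      _ = ∫⁻ r in Ioc t1 t2, ENNReal.ofReal (AA G kap r / r) := by
          refine setLIntegral_congr_fun measurableSet_Ioc (fun r hr => ?_)
          exact Real.enorm_of_nonneg (hAA0 r (lt_trans h1 hr.1))
  have step2 : ∫⁻ r in Ioc t1 t2, ENNReal.ofReal (AA G kap r / r) ≤
      ∫⁻ r in Ioc t1 t2, ∫⁻ α in Ioo (-Real.pi) Real.pi, ENNReal.ofReal (g r α) := by
    refine setLIntegral_mono' measurableSet_Ioc (fun r hr => ?_)
    have hr0 : 0 < r := lt_trans h1 hr.1
    rw [hAA, intervalIntegral.integral_of_le (by linarith [Real.pi_pos]), 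
      integral_Ioc_eq_integral_Ioo]
    calc ENNReal.ofReal (∫ α in Ioo (-Real.pi) Real.pi, g r α)
        ≤ ‖∫ α in Ioo (-Real.pi) Real.pi, g r α‖ₑ := Real.ofReal_le_enorm _
      _ ≤ ∫⁻ α in Ioo (-Real.pi) Real.pi, ‖g r α‖ₑ := enorm_integral_le_lintegral_enorm _
      _ = ∫⁻ α in Ioo (-Real.pi) Real.pi, ENNReal.ofReal (g r α) := by
          refine lintegral_congr (fun α => ?_)
          exact Real.enorm_of_nonneg (hg0 r α hr0)
  have hsub : (Ioc t1 t2 ×ˢ Ioo (-Real.pi) Real.pi : Set (ℝ × ℝ)) ⊆ Ioo (-1 : ℝ) 1 ×ˢ univ := by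
    rintro ⟨r, α⟩ ⟨hr, _⟩
    exact ⟨⟨by linarith [hr.1], by linarith [hr.2]⟩, mem_univ _⟩
  have hcont : ContinuousOn (fun p : ℝ × ℝ => g p.1 p.2) (Ioc t1 t2 ×ˢ Ioo (-Real.pi) Real.pi) := by
    have c1 := (xx_cont G hG).mono hsub
    have c2 := (WW_cont G hG).mono hsub
    have c3 : ContinuousOn (fun p : ℝ × ℝ => kap (xx G p.1 p.2)) (Ioc t1 t2 ×ˢ Ioo (-Real.pi) Real.pi) :=
      hkapc.comp_continuousOn c1
    refine ContinuousOn.div (c3.mul ((c2.norm).pow 2)) continuous_fst.continuousOn ?_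
    rintro ⟨r, α⟩ ⟨hr, _⟩
    exact (lt_trans h1 hr.1).ne'
  have hmeas : AEMeasurable (fun p : ℝ × ℝ => ENNReal.ofReal (g p.1 p.2))
      ((volume.restrict (Ioc t1 t2)).prod (volume.restrict (Ioo (-Real.pi) Real.pi))) := by
    rw [Measure.prod_restrict]
    exact (hcont.aemeasurable (measurableSet_Ioc.prod measurableSet_Ioo)).ennreal_ofReal
  have step3 : ∫⁻ r in Ioc t1 t2, ∫⁻ α in Ioo (-Real.pi) Real.pi, ENNReal.ofReal (g r α) =
      ∫⁻ p in Ioc t1 t2 ×ˢ Ioo (-Real.pi) Real.pi, ENNReal.ofReal (g p.1 p.2) := by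
    have := lintegral_prod _ hmeas
    rw [← this, Measure.prod_restrict]
    rfl
  set f : ℂ → ENNReal := (Metric.ball (0 : ℂ) 1).indicator
    (fun z => ENNReal.ofReal (kap (G z).re * ‖deriv G z‖ ^ 2)) with hf
  have hRHS : ∫⁻ z in Metric.ball (0 : ℂ) 1, ENNReal.ofReal (kap (G z).re * ‖deriv G z‖ ^ 2) =
      ∫⁻ p in polarCoord.target, ENNReal.ofReal p.1 • f (Complex.polarCoord.symm p) := by
    rw [Complex.lintegral_comp_polarCoord_symm, hf, lintegral_indicator Metric.isOpen_ball.measurableSet]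
  rw [hRHS]
  refine step1.trans (step2.trans (step3.le.trans ?_))
  have hsub2 : (Ioc t1 t2 ×ˢ Ioo (-Real.pi) Real.pi : Set (ℝ × ℝ)) ⊆ polarCoord.target := by
    rintro ⟨r, α⟩ ⟨hr, hα⟩
    exact ⟨lt_trans h1 hr.1, hα⟩
  refine le_trans (le_of_eq ?_) (lintegral_mono_set hsub2)
  refine setLIntegral_congr_fun (measurableSet_Ioc.prod measurableSet_Ioo) ?_
  rintro ⟨r, α⟩ ⟨hr, hα⟩
  have hr0 : 0 < r := lt_trans h1 hr.1
  have hsym : Complex.polarCoord.symm (r, α) = circleMap 0 r α := by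
    rw [Complex.polarCoord_symm_apply, circleMap, Complex.exp_mul_I]
    simp
  have hin : circleMap 0 r α ∈ Metric.ball (0 : ℂ) 1 := by
    rw [Metric.mem_ball, dist_zero_right, norm_circleMap_zero, abs_of_pos hr0]
    linarith [hr.2]
  simp only
  rw [hsym, hf, indicator_of_mem hin, smul_eq_mul, ← ENNReal.ofReal_mul hr0.le]
  congr 1
  simp only [hg, xx, WW, norm_mul, norm_circleMap_zero, abs_of_pos hr0]
  field_simp

/-! ### Asmlog -/

theorem kap_eq (s : ℝ) : kap s = Real.exp s / (1 + Real.exp s) ^ 2 := by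
  unfold kap
  have h1 : Real.exp s = Real.exp (s / 2) ^ 2 := by
    rw [← Real.exp_nat_mul]; congr 1; push_cast; ring
  have h2 : Real.exp (-(s / 2)) = 1 / Real.exp (s / 2) := by
    rw [Real.exp_neg, one_div]
  have h3 : 0 < Real.exp (s / 2) := Real.exp_pos _
  rw [Real.cosh_eq, h2, h1]
  field_simp
  ring

theorem kap_cont : Continuous kap := by
  have : kap = fun s => Real.exp s / (1 + Real.exp s) ^ 2 := funext kap_eq
  rw [this]
  refine Continuous.div Real.continuous_exp ((continuous_const.add Real.continuous_exp).pow 2) ?_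
  intro x
  have := Real.exp_pos x
  positivity

theorem kap_nonneg (s : ℝ) : 0 ≤ kap s := by
  unfold kap; positivity

theorem kap_int (B : ℝ) : ∫ s in (-B)..B, kap s = 1 - 2 / (1 + Real.exp B) := by
  have hder : ∀ x ∈ uIcc (-B) B, HasDerivAt (fun s => -(1 / (1 + Real.exp s))) (kap x) x := by
    intro x _
    have hpos : (0 : ℝ) < 1 + Real.exp x := by have := Real.exp_pos x; linarith
    have h1 : HasDerivAt (fun s => 1 + Real.exp s) (Real.exp x) x := by
      simpa using (Real.hasDerivAt_exp x).const_add 1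
    have h2 := (h1.inv hpos.ne').neg
    rw [kap_eq]
    have h3 : (fun s => -(1 / (1 + Real.exp s))) = -(fun s => 1 + Real.exp s)⁻¹ := by
      funext s; simp
    rw [h3]
    have h4 : Real.exp x / (1 + Real.exp x) ^ 2 = -(-Real.exp x / (1 + Real.exp x) ^ 2) := by ring
    rw [h4]
    exact h2
  rw [intervalIntegral.integral_eq_sub_of_hasDerivAt hder (kap_cont.intervalIntegrable _ _)]
  have hE : 0 < Real.exp B := Real.exp_pos B
  rw [Real.exp_neg]
  field_simp
  ring

theorem tau_zero_pos (c : ℝ) (hc0 : 0 < c) : 0 < tau c 0 := by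
  unfold tau
  have h : (1 - c ^ 2) / (1 + c ^ 2) * Real.cosh (0 / 2) < 1 := by
    rw [zero_div, Real.cosh_zero, mul_one, div_lt_one (by positivity)]
    have : 0 < c ^ 2 := by positivity
    linarith
  have := Real.arccos_pos.2 h
  linarith

theorem inner_up (s A D τ : ℝ) (hτA : τ ≤ A) (h : s ≠ 0 ∨ (0 < A ∧ 0 < D ∧ 0 < τ)) :
    ∫ u in A..D, Ph s u ≤ (∫ u in τ..Real.pi, Ph s u) + kap s * (D - Real.pi) := by
  have hnn : ∀ u, 0 ≤ Ph s u := by
    intro u; unfold Ph; positivity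
  have hpi := Real.pi_pos
  have i1 : IntervalIntegrable (fun u => Ph s u) volume τ A := by
    apply Ph_ii; rcases h with h | h
    · exact Or.inl h
    · exact Or.inr ⟨h.2.2, h.1⟩
  have i2 : IntervalIntegrable (fun u => Ph s u) volume A D := by
    apply Ph_ii; rcases h with h | h
    · exact Or.inl h
    · exact Or.inr ⟨h.1, h.2.1⟩
  have i3 : IntervalIntegrable (fun u => Ph s u) volume τ Real.pi := by
    apply Ph_ii; rcases h with h | h
    · exact Or.inl h
    · exact Or.inr ⟨h.2.2, hpi⟩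
  have i4 : IntervalIntegrable (fun u => Ph s u) volume Real.pi D := by
    apply Ph_ii; rcases h with h | h
    · exact Or.inl h
    · exact Or.inr ⟨hpi, h.2.1⟩
  have e1 := intervalIntegral.integral_add_adjacent_intervals i1 i2
  have e2 := intervalIntegral.integral_add_adjacent_intervals i3 i4
  have e3 : 0 ≤ ∫ u in τ..A, Ph s u := intervalIntegral.integral_nonneg hτA (fun u _ => hnn u)
  have e4 : ∫ u in Real.pi..D, Ph s u ≤ kap s * (D - Real.pi) := by
    rcases le_total Real.pi D with hD | hD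
    · have : ∫ u in Real.pi..D, Ph s u = ∫ u in Real.pi..D, kap s := by
        apply intervalIntegral.integral_congr
        intro u hu
        rw [uIcc_of_le hD] at hu
        exact Ph_eq_kap s u hu.1
      rw [this, intervalIntegral.integral_const, smul_eq_mul]
      linarith [mul_comm (kap s) (D - Real.pi)]
    · rw [intervalIntegral.integral_symm]
      have : ∫ u in D..Real.pi, kap s ≤ ∫ u in D..Real.pi, Ph s u := by
        apply intervalIntegral.integral_mono_on hD (by simp) i4.symm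
        intro u hu
        apply kap_le_Ph
        rcases h with h | h
        · exact Or.inl h
        · exact Or.inr (lt_of_lt_of_le h.2.1 hu.1)
      rw [intervalIntegral.integral_const, smul_eq_mul] at this
      nlinarith [this]
  linarith

theorem kTT (G : ℂ → ℂ) (hG : DifferentiableOn ℂ G (Metric.ball 0 1)) (hd0 : deriv G 0 ≠ 0)
    (hM : ∀ t1 t2 : ℝ, 0 < t1 → t1 ≤ t2 → t2 < 1 → ∫ r in t1..t2, AA G kap r / r ≤ 2 * Real.pi)
    (tb B : ℝ) (htb0 : 0 < tb) (htb1 : tb < 1) (hB0 : 0 < B)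
    (hB : ∀ t : ℝ, |t| ≤ tb → ∀ α, |xx G t α| < B) :
    2 * ∫ s in (-B)..B, kap s * TT G tb s ≤ 2 * Real.pi := by
  obtain ⟨C, hC⟩ := TT_small G hG
  have hcb : Continuous (fun s => TT G tb s) := TT_cont1 G hG hd0 tb htb0 htb1
  have hE : 0 < Real.exp B := Real.exp_pos B
  have main : ∀ e : ℝ, 0 < e → e ≤ min tb (1 / 2) →
      2 * ∫ s in (-B)..B, kap s * TT G tb s ≤ 2 * Real.pi + 2 * (|C| * e) := by
    intro e he0 he1
    have heb : e ≤ tb := he1.trans (min_le_left _ _)
    have heh : e ≤ 1 / 2 := he1.trans (min_le_right _ _)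
    have hce : Continuous (fun s => TT G e s) := TT_cont1 G hG hd0 e he0 (by linarith)
    have h1 := TT_green G hG kap kap_cont e tb B he0 heb htb1 (by
      intro t ht α
      apply hB
      rw [abs_of_nonneg (he0.le.trans ht.1)]; exact ht.2)
    have h2 := hM e tb he0 heb htb1
    have h3 : ∫ s in (-B)..B, kap s * TT G tb s
        = (∫ s in (-B)..B, kap s * (TT G tb s - TT G e s)) + ∫ s in (-B)..B, kap s * TT G e s := by
      rw [← intervalIntegral.integral_add]
      · apply intervalIntegral.integral_congr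
        intro s _
        simp only
        ring
      · exact (kap_cont.mul (hcb.sub hce)).intervalIntegrable _ _
      · exact (kap_cont.mul hce).intervalIntegrable _ _
    have h4 : ∫ s in (-B)..B, kap s * TT G e s ≤ ∫ s in (-B)..B, kap s * (|C| * e) := by
      apply intervalIntegral.integral_mono_on (by linarith)
        ((kap_cont.mul hce).intervalIntegrable _ _)
        ((kap_cont.mul continuous_const).intervalIntegrable _ _)
      intro s _
      apply mul_le_mul_of_nonneg_left _ (kap_nonneg s)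
      have h5 := hC e ⟨he0, heh⟩ s
      have h6 : C * e ≤ |C| * e := mul_le_mul_of_nonneg_right (le_abs_self C) he0.le
      exact (le_abs_self _).trans (h5.trans h6)
    have h5 : ∫ s in (-B)..B, kap s * (|C| * e) ≤ |C| * e := by
      rw [intervalIntegral.integral_mul_const, kap_int]
      have h6 : 0 ≤ |C| * e := by positivity
      have h7 : 0 ≤ 2 / (1 + Real.exp B) := by positivity
      nlinarith
    rw [h3]
    linarith
  by_contra hcon
  rw [not_le] at hcon
  set L := 2 * ∫ s in (-B)..B, kap s * TT G tb s with hL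
  set e : ℝ := min (min tb (1 / 2)) ((L - 2 * Real.pi) / (2 * (|C| + 1) * 2)) with he
  have hpos : 0 < L - 2 * Real.pi := by linarith
  have he0 : 0 < e := by
    apply lt_min
    · exact lt_min htb0 (by norm_num)
    · positivity
  have h1 := main e he0 (min_le_left _ _)
  have h2 : e ≤ (L - 2 * Real.pi) / (2 * (|C| + 1) * 2) := min_le_right _ _
  have h3 : 2 * (|C| * e) < L - 2 * Real.pi := by
    have h4 : (0 : ℝ) < 2 * (|C| + 1) * 2 := by positivity
    rw [le_div_iff₀ h4] at h2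
    have h5 : 0 ≤ |C| := abs_nonneg C
    nlinarith
  linarith

theorem lemmaA_log (G : ℂ → ℂ) (hG : DifferentiableOn ℂ G (Metric.ball 0 1)) (hG0 : G 0 = 0)
    (a : ℝ) (ha : 0 < a) (hd : deriv G 0 = (a : ℂ))
    (hM : ∀ t1 t2 : ℝ, 0 < t1 → t1 ≤ t2 → t2 < 1 → ∫ r in t1..t2, AA G kap r / r ≤ 2 * Real.pi) :
    a ≤ 4 := by
  by_contra hcon
  rw [not_le] at hcon
  have hd0 : deriv G 0 ≠ 0 := by rw [hd]; exact_mod_cast ha.ne'
  obtain ⟨b, hb4, hba⟩ : ∃ b : ℝ, 4 < b ∧ b < a := exists_between hcon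
  obtain ⟨η, hη, h4⟩ : ∃ η : ℝ, 0 < η ∧ 4 * (1 + η) < b := ⟨(b - 4) / 8, by linarith, by linarith⟩
  obtain ⟨t0, ⟨ht00, ht01⟩, hdisc⟩ := TT_disc G hG hG0 a ha hd b (by linarith) hba
  obtain ⟨t0', ht0', htau⟩ := tau_le b η hη h4
  obtain ⟨ta, hta0, htat0, htat0'⟩ : ∃ ta : ℝ, 0 < ta ∧ ta ≤ t0 ∧ ta ≤ t0' :=
    ⟨min t0 t0', lt_min ht00 ht0', min_le_left _ _, min_le_right _ _⟩
  have hta1 : ta < 1 := lt_of_le_of_lt htat0 ht01
  have htau' := htau ta ⟨hta0, htat0'⟩
  obtain ⟨c, hc⟩ : ∃ c, c = (1 + η) * ta := ⟨_, rfl⟩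
  rw [← hc] at htau'
  have hc1 : c < 1 := htau'.1
  have hc0 : 0 < c := by rw [hc]; positivity
  have hcomp : ∀ s, tau c s ≤ TT G ta s := by
    intro s
    rcases le_total |s| (b * ta) with h | h
    · exact ((htau'.2 s).1 h).trans (hdisc ta ⟨hta0, htat0⟩ s h)
    · rw [(htau'.2 s).2 h]; exact TT_nonneg G hG hd0 ta hta0 hta1 s
  have key : ∀ tb, ta ≤ tb → tb < 1 → Real.log (tb / ta) ≤ Real.log (1 / c) := by
    intro tb hab htb1
    have htb0 : 0 < tb := lt_of_lt_of_le hta0 hab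
    obtain ⟨B0, hB0⟩ := xx_bdd G hG tb htb0 htb1
    have hB0pos : 0 < B0 := lt_of_le_of_lt (abs_nonneg _) (hB0 0 (by simpa using htb0.le) 0)
    have keyB : ∀ B, B0 ≤ B → Real.log (tb / ta) ≤ Real.log (1 / c) + 2 / (1 + Real.exp B) := by
      intro B hBB
      have hBpos : 0 < B := lt_of_lt_of_le hB0pos hBB
      have hB : ∀ t : ℝ, |t| ≤ tb → ∀ α, |xx G t α| < B := fun t ht α =>
        lt_of_lt_of_le (hB0 t ht α) hBB
      have hk := kTT G hG hd0 hM tb B htb0 htb1 hBpos hB
      have hlow := total_lower G hG hG0 a ha hd ta tb B hta0 hab htb1 (by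
        intro t ht α
        apply hB
        rw [abs_of_nonneg (hta0.le.trans ht.1)]; exact ht.2)
      have hstrip := strip_area c hc0 hc1 B hBpos
      have hca : Continuous (fun s => TT G ta s) := TT_cont1 G hG hd0 ta hta0 hta1
      have hcb : Continuous (fun s => TT G tb s) := TT_cont1 G hG hd0 tb htb0 htb1
      have hpa := TT_zero_pos G hG hG0 a ha hd ta hta0 hta1
      have hpb := TT_zero_pos G hG hG0 a ha hd tb htb0 htb1
      have hpt := tau_zero_pos c hc0
      have hup : ∫ s in (-B)..B, ∫ u in (TT G ta s)..(TT G tb s), Ph s u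
          ≤ ∫ s in (-B)..B, ((∫ u in (tau c s)..Real.pi, Ph s u)
            + (kap s * TT G tb s - kap s * Real.pi)) := by
        apply intervalIntegral.integral_mono_on (by linarith)
          ((inner_cont _ _ hca hcb hpa hpb).intervalIntegrable _ _)
        · apply Continuous.intervalIntegrable
          exact (inner_cont _ _ (tau_cont c) continuous_const hpt Real.pi_pos).add
            ((kap_cont.mul hcb).sub (kap_cont.mul continuous_const))
        · intro s _
          have h := inner_up s (TT G ta s) (TT G tb s) (tau c s) (hcomp s) (by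
            by_cases hs : s = 0
            · subst hs; exact Or.inr ⟨hpa, hpb, hpt⟩
            · exact Or.inl hs)
          linarith [h, mul_sub (kap s) (TT G tb s) Real.pi]
      have i1 : IntervalIntegrable (fun s => ∫ u in (tau c s)..Real.pi, Ph s u) volume (-B) B :=
        (inner_cont _ _ (tau_cont c) continuous_const hpt Real.pi_pos).intervalIntegrable _ _
      have i2 : IntervalIntegrable (fun s => kap s * TT G tb s) volume (-B) B :=
        (kap_cont.mul hcb).intervalIntegrable _ _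
      have i3 : IntervalIntegrable (fun s => kap s * Real.pi) volume (-B) B :=
        (kap_cont.mul continuous_const).intervalIntegrable _ _
      have hsplit : ∫ s in (-B)..B, ((∫ u in (tau c s)..Real.pi, Ph s u)
            + (kap s * TT G tb s - kap s * Real.pi))
          = (∫ s in (-B)..B, ∫ u in (tau c s)..Real.pi, Ph s u)
            + ((∫ s in (-B)..B, kap s * TT G tb s) - (1 - 2 / (1 + Real.exp B)) * Real.pi) := by
        rw [intervalIntegral.integral_add i1 (i2.sub i3), intervalIntegral.integral_sub i2 i3,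
          intervalIntegral.integral_mul_const, kap_int]
      rw [hsplit] at hup
      have hpi := Real.pi_pos
      have h5 : 2 * Real.pi * Real.log (tb / ta)
          ≤ 2 * Real.pi * (Real.log (1 / c) + 2 / (1 + Real.exp B)) := by
        nlinarith [hlow, hup, hstrip, hk]
      exact le_of_mul_le_mul_left h5 (by positivity)
    have hlim : Tendsto (fun B : ℝ => Real.log (1 / c) + 2 / (1 + Real.exp B)) atTop
        (𝓝 (Real.log (1 / c) + 0)) := by
      apply Tendsto.const_add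
      apply Tendsto.div_atTop tendsto_const_nhds
      exact tendsto_atTop_add_const_left _ _ Real.tendsto_exp_atTop
    rw [add_zero] at hlim
    exact ge_of_tendsto hlim (by
      filter_upwards [eventually_ge_atTop B0] with B hB using keyB B hB)
  obtain ⟨tb, htb, htb1⟩ : ∃ tb : ℝ, max ta (1 / (1 + η)) < tb ∧ tb < 1 := by
    apply exists_between
    apply max_lt hta1
    rw [div_lt_one (by linarith)]; linarith
  have hab : ta ≤ tb := (le_max_left _ _).trans htb.le
  have htb0 : 0 < tb := lt_of_lt_of_le hta0 hab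
  have h1 := key tb hab htb1
  have h2 := (Real.log_le_log_iff (by positivity) (by positivity)).1 h1
  have h3 : 1 / (1 + η) < tb := lt_of_le_of_lt (le_max_right _ _) htb
  rw [div_lt_iff₀ (by linarith)] at h3
  rw [div_le_div_iff₀ hta0 hc0, hc] at h2
  nlinarith

/-! ### AsmA -/

theorem lemmaA (g : ℂ → ℂ) (hg : DifferentiableOn ℂ g (Metric.ball 0 1))
    (hne : ∀ z ∈ Metric.ball (0 : ℂ) 1, g z ≠ 0) (hmean : AMC g) :
    ‖deriv g 0‖ ≤ 4 * ‖g 0‖ := by
  have h00 : (0 : ℂ) ∈ Metric.ball (0 : ℂ) 1 := by simp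
  have hg0 : g 0 ≠ 0 := hne 0 h00
  by_cases hd0 : deriv g 0 = 0
  · rw [hd0, norm_zero]; positivity
  set p : ℂ := (g 0)⁻¹ * deriv g 0 with hp
  have hp0 : p ≠ 0 := mul_ne_zero (inv_ne_zero hg0) hd0
  have hpn : 0 < ‖p‖ := norm_pos_iff.2 hp0
  have hpc : (‖p‖ : ℂ) ≠ 0 := by exact_mod_cast hpn.ne'
  obtain ⟨u, hu1, hup⟩ : ∃ u : ℂ, ‖u‖ = 1 ∧ p * u = (‖p‖ : ℂ) := by
    refine ⟨(‖p‖ : ℂ) / p, ?_, ?_⟩
    · rw [norm_div, Complex.norm_real, norm_norm, div_self hpn.ne']
    · field_simp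
  set g1 : ℂ → ℂ := fun z => (g 0)⁻¹ * g (u * z) with hg1
  have hmaps : ∀ z ∈ Metric.ball (0 : ℂ) 1, u * z ∈ Metric.ball (0 : ℂ) 1 := by
    intro z hz
    simpa [hu1] using hz
  have hg1d : DifferentiableOn ℂ g1 (Metric.ball 0 1) := by
    apply DifferentiableOn.const_mul
    exact hg.comp ((differentiable_id.const_mul u).differentiableOn) hmaps
  have hg1m : AMC g1 := AMC_comp g hmean _ u (inv_ne_zero hg0) hu1
  have hg1n : ∀ z ∈ Metric.ball (0 : ℂ) 1, g1 z ≠ 0 := fun z hz =>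
    mul_ne_zero (inv_ne_zero hg0) (hne _ (hmaps z hz))
  have hg10 : g1 0 = 1 := by simp [hg1, hg0]
  have hgat : HasDerivAt g (deriv g 0) (u * 0) := by
    rw [mul_zero]
    exact (hg.differentiableAt (Metric.isOpen_ball.mem_nhds h00)).hasDerivAt
  have hg1' : HasDerivAt g1 (‖p‖ : ℂ) 0 := by
    have h1 : HasDerivAt (fun z : ℂ => u * z) u 0 := by
      simpa using (hasDerivAt_id (0 : ℂ)).const_mul u
    have h2 := (hgat.comp (0 : ℂ) h1).const_mul (g 0)⁻¹
    have h3 : (g 0)⁻¹ * (deriv g 0 * u) = (‖p‖ : ℂ) := by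
      rw [← hup, hp]; ring
    rw [h3] at h2
    exact h2
  obtain ⟨G, hG, hG0, hexp⟩ := exists_log g1 hg1d hg1n hg10
  have hGat : HasDerivAt G (deriv G 0) 0 :=
    (hG.differentiableAt (Metric.isOpen_ball.mem_nhds h00)).hasDerivAt
  have hGd : deriv G 0 = ((‖p‖ : ℝ) : ℂ) := by
    have h1 : HasDerivAt (fun z => Complex.exp (G z)) (Complex.exp (G 0) * deriv G 0) 0 :=
      hGat.cexp
    have h2 : (fun z => Complex.exp (G z)) =ᶠ[𝓝 0] g1 := by
      filter_upwards [Metric.isOpen_ball.mem_nhds h00] with z hz using hexp z hz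
    have h3 := h1.congr_of_eventuallyEq h2.symm
    have h4 := h3.unique hg1'
    rw [hG0, Complex.exp_zero, one_mul] at h4
    exact h4
  have hM : ∀ t1 t2 : ℝ, 0 < t1 → t1 ≤ t2 → t2 < 1 → ∫ r in t1..t2, AA G kap r / r ≤ 2 * Real.pi := by
    intro t1 t2 h1 h12 h2
    have := (polar_AA G hG t1 t2 h1 h12 h2).trans (kap_area g1 G hg1d hg1m hG hexp)
    exact (ENNReal.ofReal_le_ofReal_iff (by positivity)).1 this
  have h4 := lemmaA_log G hG hG0 ‖p‖ hpn hGd hM
  have h5 : ‖deriv g 0‖ = ‖p‖ * ‖g 0‖ := by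
    rw [hp, norm_mul, norm_inv]
    field_simp
  rw [h5]
  exact mul_le_mul_of_nonneg_right h4 (norm_nonneg _)

/-! ### Ld -/

theorem logderiv (f : ℂ → ℂ) (hf : DifferentiableOn ℂ f (Metric.ball 0 1)) (h0 : f 0 = 0)
    (hd : deriv f 0 = 1) (hmean : AMC f) (r : ℝ) (hr0 : 0 < r) (hr1 : r < 1) :
    ‖deriv f (r : ℂ)‖ ≤ (1 + r) / (r * (1 - r)) * ‖f (r : ℂ)‖ := by
  obtain ⟨ω, hω, hmap, hinj, hω0, hωd⟩ := slit_map r hr0 hr1
  have hg : DifferentiableOn ℂ (fun z => f (ω z)) (Metric.ball 0 1) :=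
    hf.comp hω (fun z hz => (hmap z hz).1)
  have hne : ∀ z ∈ Metric.ball (0 : ℂ) 1, (fun z => f (ω z)) z ≠ 0 := fun z hz h =>
    (hmap z hz).2 (only_zero f hf h0 hd hmean _ (hmap z hz).1 h)
  have hAM : AMC (fun z => f (ω z)) := by
    intro R hR
    refine le_trans (lintegral_mono fun w => ?_) (hmean R hR)
    refine ENat.toENNReal_le.2 ?_
    refine Set.encard_le_encard_of_injOn (f := ω) ?_ ?_
    · intro z hz
      exact ⟨(hmap z hz.1).1, hz.2⟩
    · exact hinj.mono fun z hz => hz.1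
  have hA := lemmaA _ hg hne hAM
  have h0b : (0 : ℂ) ∈ Metric.ball (0 : ℂ) 1 := Metric.mem_ball_self one_pos
  have hd1 : DifferentiableAt ℂ ω 0 := hω.differentiableAt (Metric.isOpen_ball.mem_nhds h0b)
  have hd2 : DifferentiableAt ℂ f (ω 0) :=
    hf.differentiableAt (Metric.isOpen_ball.mem_nhds (hmap 0 h0b).1)
  have hder : deriv (fun z => f (ω z)) 0 = deriv f (ω 0) * deriv ω 0 :=
    deriv_comp (0 : ℂ) hd2 hd1
  have hc : 0 < 4 * r * (1 - r) / (1 + r) := by
    have : 0 < 1 - r := by linarith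
    positivity
  rw [hder, norm_mul, hωd, hω0, Complex.norm_real, Real.norm_of_nonneg hc.le] at hA
  have h1r : 0 < 1 - r := by linarith
  have h2r : 0 < 1 + r := by linarith
  have h3 : ‖deriv f (r : ℂ)‖ ≤ 4 * ‖f (r : ℂ)‖ / (4 * r * (1 - r) / (1 + r)) := by
    rw [le_div_iff₀ hc]
    exact hA
  refine h3.trans (le_of_eq ?_)
  field_simp

/-! ### Asmm -/

theorem main_thm (f : ℂ → ℂ) (hf : DifferentiableOn ℂ f (Metric.ball 0 1)) (h0 : f 0 = 0)
    (hd : deriv f 0 = 1) (hmean : AMC f) (z : ℂ) (hz : z ∈ Metric.ball (0 : ℂ) 1) :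
    ‖f z‖ ≤ ‖z‖ / (1 - ‖z‖) ^ 2 := by
  by_cases hz0 : z = 0
  · subst hz0; simp [h0]
  have hr0 : 0 < ‖z‖ := norm_pos_iff.2 hz0
  have hr1 : ‖z‖ < 1 := by simpa using hz
  have hne : (‖z‖ : ℂ) ≠ 0 := by exact_mod_cast hr0.ne'
  obtain ⟨u, hu1, huz⟩ : ∃ u : ℂ, ‖u‖ = 1 ∧ u * (‖z‖ : ℂ) = z := by
    refine ⟨z / (‖z‖ : ℂ), ?_, ?_⟩
    · rw [norm_div, Complex.norm_real, norm_norm, div_self hr0.ne']
    · field_simp
  obtain ⟨hF, hF0, hFd, hFm⟩ := rotate f hf h0 hd hmean u hu1
  have := growth_real _ hF hF0 hFd (only_zero _ hF hF0 hFd hFm)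
    (fun r h1 h2 => logderiv _ hF hF0 hFd hFm r h1 h2) ‖z‖ hr0 hr1
  simpa [huz, hu1] using this

end AM287
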