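import Pool.Agent.Helper287.AM.Base

set_option autoImplicit false
set_option linter.all false

open MeasureTheory Set Filter Topology

namespace AM287

/-! ### Stripin -/

theorem tau_cont (c : ℝ) : Continuous (tau c) := by
  unfold tau
  exact continuous_const.mul (Real.continuous_arccos.comp (continuous_const.mul
    (Real.continuous_cosh.comp (continuous_id.div_const 2))))

theorem strip_in_aux_cont (s τ : ℝ) (hτ : 0 ≤ τ) (hs : s ≠ 0 ∨ 0 < τ) :
    ContinuousOn (fun u => Ph s u) (Icc τ Real.pi) := by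
  have hden : ∀ u ∈ Icc τ Real.pi, 4 * (Real.sinh (s / 2) ^ 2 + sg u ^ 2) ≠ 0 := by
    intro u hu
    rcases hs with h | h
    · have h1 : Real.sinh (s / 2) ≠ 0 := by
        rw [Ne, Real.sinh_eq_zero]
        intro h2
        exact h (by linarith)
      have h2 : 0 < Real.sinh (s / 2) ^ 2 := by positivity
      have h3 := sq_nonneg (sg u)
      have : 0 < 4 * (Real.sinh (s / 2) ^ 2 + sg u ^ 2) := by linarith
      exact this.ne'
    · have h1 : 0 < sg u := by
        unfold sg
        rw [min_eq_left hu.2]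
        exact Real.sin_pos_of_pos_of_lt_pi (by linarith [hu.1]) (by linarith [hu.2, Real.pi_pos])
      have h2 : 0 < sg u ^ 2 := by positivity
      have h3 := sq_nonneg (Real.sinh (s / 2))
      have : 0 < 4 * (Real.sinh (s / 2) ^ 2 + sg u ^ 2) := by linarith
      exact this.ne'
  unfold Ph
  refine ContinuousOn.div continuousOn_const ?_ hden
  refine Continuous.continuousOn ?_
  unfold sg
  exact continuous_const.mul (continuous_const.add ((Real.continuous_sin.comp
    ((continuous_id.min continuous_const).div_const 2)).pow 2))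

theorem strip_in_aux_set (vc C τ : ℝ) (hvc0 : 0 < vc) (hC0 : 0 < C)
    (hτ : τ = 2 * Real.arccos (vc * C)) :
    (fun u => Real.cos (u / 2) / C) '' Ioo τ Real.pi = {v | v * C < 1} ∩ Ioo 0 vc := by
  have hτ0 : 0 ≤ τ := by
    rw [hτ]
    have := Real.arccos_nonneg (vc * C)
    linarith
  ext v
  constructor
  · rintro ⟨u, ⟨hu1, hu2⟩, rfl⟩
    have h1 : 0 < Real.cos (u / 2) := Real.cos_pos_of_mem_Ioo ⟨by linarith, by linarith⟩
    have h2 : Real.cos (u / 2) < 1 := by
      by_contra hcon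
      push Not at hcon
      have h3 : Real.cos (u / 2) = 1 := le_antisymm (Real.cos_le_one _) hcon
      have h4 : Real.arccos (Real.cos (u / 2)) = u / 2 :=
        Real.arccos_cos (by linarith) (by linarith)
      rw [h3, Real.arccos_one] at h4
      linarith
    have h3 : Real.cos (u / 2) < vc * C := by
      by_contra hcon
      push Not at hcon
      have h4 := Real.arccos_le_arccos hcon
      rw [Real.arccos_cos (by linarith) (by linarith)] at h4
      rw [hτ] at hu1
      linarith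
    refine ⟨?_, ?_, ?_⟩
    · show Real.cos (u / 2) / C * C < 1
      rw [div_mul_cancel₀ _ hC0.ne']
      exact h2
    · positivity
    · show Real.cos (u / 2) / C < vc
      rw [div_lt_iff₀ hC0]
      exact h3
  · rintro ⟨hv, hv0, hv1⟩
    have hv' : v * C < 1 := hv
    have hvC : 0 < v * C := mul_pos hv0 hC0
    have hlt : v * C < vc * C := mul_lt_mul_of_pos_right hv1 hC0
    refine ⟨2 * Real.arccos (v * C), ⟨?_, ?_⟩, ?_⟩
    · rw [hτ]
      have h1 : Real.arccos (vc * C) < Real.arccos (v * C) := by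
        by_cases h : vc * C ≤ 1
        · exact Real.strictAntiOn_arccos ⟨by linarith, hv'.le⟩ ⟨by linarith, h⟩ hlt
        · push Not at h
          rw [Real.arccos_of_one_le h.le]
          exact Real.arccos_pos.2 hv'
      linarith
    · have h1 := Real.arccos_lt_pi_div_two.2 hvC
      linarith
    · show Real.cos (2 * Real.arccos (v * C) / 2) / C = v
      rw [mul_div_cancel_left₀ _ (two_ne_zero' ℝ), Real.cos_arccos (by linarith) hv'.le,
        mul_div_assoc, div_self hC0.ne', mul_one]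

theorem strip_in (c : ℝ) (hc0 : 0 < c) (hc1 : c < 1) (s : ℝ) :
    ENNReal.ofReal (∫ u in (tau c s)..Real.pi, Ph s u)
      = ∫⁻ v in Ioo (0 : ℝ) ((1 - c ^ 2) / (1 + c ^ 2)), if v * Real.cosh (s / 2) < 1 then
          ENNReal.ofReal (1 / (2 * (1 - v ^ 2)) *
            (1 / (Real.cosh (s / 2) * Real.sqrt (1 - v ^ 2 * Real.cosh (s / 2) ^ 2)))) else 0 := by
  have hvc0 : 0 < (1 - c ^ 2) / (1 + c ^ 2) := div_pos (by nlinarith) (by positivity)
  have hvc1 : (1 - c ^ 2) / (1 + c ^ 2) < 1 := by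
    rw [div_lt_one (by positivity)]
    nlinarith
  have hτ : tau c s = 2 * Real.arccos ((1 - c ^ 2) / (1 + c ^ 2) * Real.cosh (s / 2)) := rfl
  obtain ⟨vc, hvc⟩ : ∃ vc, vc = (1 - c ^ 2) / (1 + c ^ 2) := ⟨_, rfl⟩
  obtain ⟨C, hC⟩ : ∃ C, C = Real.cosh (s / 2) := ⟨_, rfl⟩
  obtain ⟨τ, hτd⟩ : ∃ τ, τ = tau c s := ⟨_, rfl⟩
  rw [← hvc, ← hC, ← hτd] at hτ
  rw [← hvc] at hvc0 hvc1
  rw [← hvc, ← hC, ← hτd]
  have hC1 : 1 ≤ C := by rw [hC]; exact Real.one_le_cosh _
  have hC0 : 0 < C := by linarith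
  have hτ0 : 0 ≤ τ := by
    rw [hτ]
    have := Real.arccos_nonneg (vc * C)
    linarith
  have hτπ : τ < Real.pi := by
    rw [hτ]
    have : Real.arccos (vc * C) < Real.pi / 2 := Real.arccos_lt_pi_div_two.2 (by positivity)
    linarith
  have hor : s ≠ 0 ∨ 0 < τ := by
    by_cases h : s = 0
    · right
      rw [hτ]
      have h1 : C = 1 := by rw [hC, h]; simp
      rw [h1, mul_one]
      have := Real.arccos_pos.2 hvc1
      linarith
    · exact Or.inl h
  have hcont := strip_in_aux_cont s τ hτ0 hor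
  have hPh : ∀ u, 0 ≤ Ph s u := fun u => by unfold Ph; positivity
  have hint : IntegrableOn (fun u => Ph s u) (Ioo τ Real.pi) volume :=
    (hcont.integrableOn_compact isCompact_Icc).mono_set Ioo_subset_Icc_self
  rw [intervalIntegral.integral_of_le hτπ.le, integral_Ioc_eq_integral_Ioo,
    ofReal_integral_eq_lintegral_ofReal hint (Filter.Eventually.of_forall hPh)]
  have hms : MeasurableSet {v : ℝ | v * C < 1} :=
    measurableSet_lt (measurable_id.mul_const C) measurable_const
  obtain ⟨F, hF⟩ : ∃ F : ℝ → ENNReal, F = fun v => ENNReal.ofReal (1 / (2 * (1 - v ^ 2)) *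
            (1 / (C * Real.sqrt (1 - v ^ 2 * C ^ 2)))) := ⟨_, rfl⟩
  have hR : (fun v : ℝ => if v * C < 1 then ENNReal.ofReal (1 / (2 * (1 - v ^ 2)) *
            (1 / (C * Real.sqrt (1 - v ^ 2 * C ^ 2)))) else 0) =
      {v : ℝ | v * C < 1}.indicator F := by
    funext v
    rw [hF]
    by_cases h : v * C < 1
    · rw [if_pos h, Set.indicator_of_mem (show v ∈ {v : ℝ | v * C < 1} from h)]
    · rw [if_neg h, Set.indicator_of_notMem (show v ∉ {v : ℝ | v * C < 1} from h)]
  rw [hR, setLIntegral_indicator hms, ← strip_in_aux_set vc C τ hvc0 hC0 hτ,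
    lintegral_image_eq_lintegral_abs_deriv_mul (f' := fun u => -Real.sin (u / 2) * (1 / 2) / C)
      measurableSet_Ioo]
  · refine setLIntegral_congr_fun measurableSet_Ioo ?_
    intro u hu
    obtain ⟨hu1, hu2⟩ := hu
    rw [hF]
    show ENNReal.ofReal (Ph s u) = ENNReal.ofReal |-Real.sin (u / 2) * (1 / 2) / C| *
      ENNReal.ofReal (1 / (2 * (1 - (Real.cos (u / 2) / C) ^ 2)) *
            (1 / (C * Real.sqrt (1 - (Real.cos (u / 2) / C) ^ 2 * C ^ 2))))
    rw [← ENNReal.ofReal_mul (abs_nonneg _)]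
    congr 1
    have hsin : 0 < Real.sin (u / 2) :=
      Real.sin_pos_of_pos_of_lt_pi (by linarith) (by linarith [Real.pi_pos])
    have hcs := Real.sin_sq_add_cos_sq (u / 2)
    have e1 : 1 - (Real.cos (u / 2) / C) ^ 2 * C ^ 2 = Real.sin (u / 2) ^ 2 := by
      rw [div_pow, div_mul_cancel₀ _ (pow_ne_zero 2 hC0.ne')]
      linarith
    have e2 : |-Real.sin (u / 2) * (1 / 2) / C| = Real.sin (u / 2) * (1 / 2) / C := by
      rw [abs_div, abs_mul, abs_neg, abs_of_pos hsin, abs_of_pos hC0,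
        abs_of_pos (by norm_num : (0 : ℝ) < 1 / 2)]
    rw [e1, Real.sqrt_sq hsin.le, e2]
    have e3 : Ph s u = 1 / (4 * (C ^ 2 - Real.cos (u / 2) ^ 2)) := by
      unfold Ph sg
      rw [min_eq_left hu2.le]
      have h1 := Real.cosh_sq (s / 2)
      rw [← hC] at h1
      congr 2
      linarith
    rw [e3]
    have hcos1 : Real.cos (u / 2) ^ 2 < C ^ 2 := by nlinarith
    have hne : C ^ 2 - Real.cos (u / 2) ^ 2 ≠ 0 := by linarith
    have e4 : 1 - (Real.cos (u / 2) / C) ^ 2 = (C ^ 2 - Real.cos (u / 2) ^ 2) / C ^ 2 := by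
      rw [div_pow]
      field_simp
    rw [e4]
    field_simp
    norm_num
  · intro u hu
    have h1 : HasDerivAt (fun u : ℝ => u / 2) (1 / 2) u := (hasDerivAt_id u).div_const 2
    exact ((h1.cos).div_const C).hasDerivWithinAt
  · intro a ha b hb hab
    have h1 : Real.cos (a / 2) / C = Real.cos (b / 2) / C := hab
    rw [div_left_inj' hC0.ne'] at h1
    have h2 := Real.injOn_cos ⟨by linarith [ha.1], by linarith [ha.2, Real.pi_pos]⟩
      ⟨by linarith [hb.1], by linarith [hb.2, Real.pi_pos]⟩ h1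
    linarith

/-! ### Stripout -/

/-- antiderivative -/
noncomputable def stA (ρ s : ℝ) : ℝ := 2 * Real.arcsin (Real.sinh (s / 2) / Real.cosh (s / 2) / ρ)

theorem stA_range (v : ℝ) (hv0 : 0 < v) (hv1 : v < 1) (s : ℝ) (hs : v * Real.cosh (s / 2) < 1) :
    0 < 1 - v ^ 2 * Real.cosh (s / 2) ^ 2 ∧
    (Real.sinh (s / 2) / Real.cosh (s / 2) / Real.sqrt (1 - v ^ 2)) ^ 2 =
      1 - (1 - v ^ 2 * Real.cosh (s / 2) ^ 2) / (Real.cosh (s / 2) * Real.sqrt (1 - v ^ 2)) ^ 2 := by
  have hc := Real.cosh_pos (s / 2)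
  have hsq : Real.sinh (s / 2) ^ 2 = Real.cosh (s / 2) ^ 2 - 1 := by
    have := Real.cosh_sq (s / 2); linarith
  have hρ2 : 0 < 1 - v ^ 2 := by nlinarith
  have hρ : 0 < Real.sqrt (1 - v ^ 2) := Real.sqrt_pos.mpr hρ2
  have hρs : Real.sqrt (1 - v ^ 2) ^ 2 = 1 - v ^ 2 := Real.sq_sqrt hρ2.le
  constructor
  · have h1 : 0 < v * Real.cosh (s / 2) := mul_pos hv0 hc
    nlinarith
  · rw [div_pow, div_pow, mul_pow, hsq, hρs]
    field_simp
    ring

theorem strip_out (v : ℝ) (hv0 : 0 < v) (hv1 : v < 1) :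
    ∫⁻ s : ℝ, (if v * Real.cosh (s / 2) < 1 then
      ENNReal.ofReal (1 / (Real.cosh (s / 2) * Real.sqrt (1 - v ^ 2 * Real.cosh (s / 2) ^ 2))) else 0)
      ≤ ENNReal.ofReal (2 * Real.pi) := by
  have hρ2 : 0 < 1 - v ^ 2 := by nlinarith
  set ρ := Real.sqrt (1 - v ^ 2) with hρdef
  have hρ : 0 < ρ := Real.sqrt_pos.mpr hρ2
  have hρs : ρ ^ 2 = 1 - v ^ 2 := Real.sq_sqrt hρ2.le
  set S : Set ℝ := {s | v * Real.cosh (s / 2) < 1} with hS
  have hSm : MeasurableSet S := by
    apply IsOpen.measurableSet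
    apply isOpen_lt _ continuous_const
    exact continuous_const.mul (Real.continuous_cosh.comp (continuous_id.div_const 2))
  have hin : ∀ s ∈ S, (Real.sinh (s / 2) / Real.cosh (s / 2) / ρ) ^ 2 < 1 := by
    intro s hs
    obtain ⟨h1, h2⟩ := stA_range v hv0 hv1 s hs
    rw [h2]
    have hc := Real.cosh_pos (s / 2)
    have : 0 < (1 - v ^ 2 * Real.cosh (s / 2) ^ 2) / (Real.cosh (s / 2) * ρ) ^ 2 := by positivity
    linarith
  have hin2 : ∀ s ∈ S, Real.sinh (s / 2) / Real.cosh (s / 2) / ρ ∈ Icc (-1 : ℝ) 1 := by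
    intro s hs
    have := hin s hs
    have h3 := abs_lt_of_sq_lt_sq (show (Real.sinh (s / 2) / Real.cosh (s / 2) / ρ) ^ 2 < 1 ^ 2 by simpa using this) zero_le_one
    rw [abs_lt] at h3
    exact ⟨h3.1.le, h3.2.le⟩
  have hderiv : ∀ s ∈ S, HasDerivWithinAt (stA ρ)
      (1 / (Real.cosh (s / 2) * Real.sqrt (1 - v ^ 2 * Real.cosh (s / 2) ^ 2))) S s := by
    intro s hs
    apply HasDerivAt.hasDerivWithinAt
    obtain ⟨h1, h2⟩ := stA_range v hv0 hv1 s hs
    have hc := Real.cosh_pos (s / 2)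
    have hd : HasDerivAt (fun s : ℝ => s / 2) (1 / 2) s := (hasDerivAt_id s).div_const 2
    have hsh : HasDerivAt (fun s : ℝ => Real.sinh (s / 2)) (Real.cosh (s / 2) * (1 / 2)) s := hd.sinh
    have hch : HasDerivAt (fun s : ℝ => Real.cosh (s / 2)) (Real.sinh (s / 2) * (1 / 2)) s := hd.cosh
    have hq := (hsh.div hch hc.ne').div_const ρ
    have hne1 : Real.sinh (s / 2) / Real.cosh (s / 2) / ρ ≠ -1 := by
      intro h; have := hin s hs; rw [h] at this; norm_num at this
    have hne2 : Real.sinh (s / 2) / Real.cosh (s / 2) / ρ ≠ 1 := by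
      intro h; have := hin s hs; rw [h] at this; norm_num at this
    have ha := (Real.hasDerivAt_arcsin hne1 hne2).comp s hq
    have hA := ha.const_mul 2
    have e1 : Real.sqrt (1 - (Real.sinh (s / 2) / Real.cosh (s / 2) / ρ) ^ 2) =
        Real.sqrt (1 - v ^ 2 * Real.cosh (s / 2) ^ 2) / (Real.cosh (s / 2) * ρ) := by
      rw [h2, sub_sub_cancel, Real.sqrt_div h1.le, Real.sqrt_sq (by positivity)]
    have hR : 0 < Real.sqrt (1 - v ^ 2 * Real.cosh (s / 2) ^ 2) := Real.sqrt_pos.mpr h1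
    have hsq : Real.sinh (s / 2) ^ 2 = Real.cosh (s / 2) ^ 2 - 1 := by
      have := Real.cosh_sq (s / 2); linarith
    have e2 : Real.cosh (s / 2) * (1 / 2) * Real.cosh (s / 2) -
        Real.sinh (s / 2) * (Real.sinh (s / 2) * (1 / 2)) = 1 / 2 := by
      have : Real.cosh (s / 2) * (1 / 2) * Real.cosh (s / 2) -
        Real.sinh (s / 2) * (Real.sinh (s / 2) * (1 / 2)) =
          (Real.cosh (s / 2) ^ 2 - Real.sinh (s / 2) ^ 2) / 2 := by ring
      rw [this, hsq]; ring
    have hA' : HasDerivAt (stA ρ) (2 *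
      (1 / Real.sqrt (1 - (Real.sinh (s / 2) / Real.cosh (s / 2) / ρ) ^ 2) *
        ((Real.cosh (s / 2) * (1 / 2) * Real.cosh (s / 2) - Real.sinh (s / 2) * (Real.sinh (s / 2) * (1 / 2))) /
            Real.cosh (s / 2) ^ 2 /
          ρ))) s := hA
    rw [e1, e2] at hA'
    have hval : 2 * (1 / (Real.sqrt (1 - v ^ 2 * Real.cosh (s / 2) ^ 2) / (Real.cosh (s / 2) * ρ)) *
        (1 / 2 / Real.cosh (s / 2) ^ 2 / ρ)) =
        1 / (Real.cosh (s / 2) * Real.sqrt (1 - v ^ 2 * Real.cosh (s / 2) ^ 2)) := by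
      field_simp
    rw [hval] at hA'
    exact hA'
  have hinj : InjOn (stA ρ) S := by
    intro a ha b hb hab
    unfold stA at hab
    have h1 : Real.arcsin (Real.sinh (a / 2) / Real.cosh (a / 2) / ρ) =
        Real.arcsin (Real.sinh (b / 2) / Real.cosh (b / 2) / ρ) := by linarith
    have h2 := Real.injOn_arcsin (hin2 a ha) (hin2 b hb) h1
    have hca := Real.cosh_pos (a / 2)
    have hcb := Real.cosh_pos (b / 2)
    have h3 : Real.sinh (a / 2) * Real.cosh (b / 2) = Real.sinh (b / 2) * Real.cosh (a / 2) := by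
      field_simp at h2
      linarith
    have h4 : Real.sinh (a / 2 - b / 2) = 0 := by
      rw [Real.sinh_sub]; linarith
    rw [Real.sinh_eq_zero] at h4
    linarith
  have hind : (fun s : ℝ => (if v * Real.cosh (s / 2) < 1 then
      ENNReal.ofReal (1 / (Real.cosh (s / 2) * Real.sqrt (1 - v ^ 2 * Real.cosh (s / 2) ^ 2))) else 0))
      = S.indicator (fun s => ENNReal.ofReal (1 / (Real.cosh (s / 2) *
        Real.sqrt (1 - v ^ 2 * Real.cosh (s / 2) ^ 2)))) := by
    funext s
    by_cases h : v * Real.cosh (s / 2) < 1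
    · rw [if_pos h, Set.indicator_of_mem (show s ∈ S from h)]
    · rw [if_neg h, Set.indicator_of_notMem (show s ∉ S from h)]
  rw [hind, lintegral_indicator hSm]
  have himg := lintegral_image_eq_lintegral_abs_deriv_mul hSm hderiv hinj (fun _ => (1 : ENNReal))
  have heq : ∫⁻ s in S, ENNReal.ofReal (1 / (Real.cosh (s / 2) *
        Real.sqrt (1 - v ^ 2 * Real.cosh (s / 2) ^ 2))) = ∫⁻ x in (stA ρ) '' S, (1 : ENNReal) := by
    rw [himg]
    apply setLIntegral_congr_fun hSm
    intro s hs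
    have hc := Real.cosh_pos (s / 2)
    simp only [mul_one]
    rw [abs_of_nonneg (by positivity)]
  rw [heq]
  have hsub : (stA ρ) '' S ⊆ Icc (-Real.pi) Real.pi := by
    rintro _ ⟨s, _, rfl⟩
    unfold stA
    have h1 := Real.neg_pi_div_two_le_arcsin (Real.sinh (s / 2) / Real.cosh (s / 2) / ρ)
    have h2 := Real.arcsin_le_pi_div_two (Real.sinh (s / 2) / Real.cosh (s / 2) / ρ)
    constructor <;> linarith
  rw [lintegral_const, one_mul, Measure.restrict_apply_univ]
  calc volume ((stA ρ) '' S) ≤ volume (Icc (-Real.pi) Real.pi) := measure_mono hsub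
    _ = ENNReal.ofReal (2 * Real.pi) := by
      rw [Real.volume_Icc]; congr 1; ring

/-! ### Strip -/

theorem strip_area (c : ℝ) (hc0 : 0 < c) (hc1 : c < 1) (B : ℝ) (hB : 0 < B) :
    2 * ∫ s in (-B)..B, ∫ u in (tau c s)..Real.pi, Ph s u ≤ 2 * Real.pi * Real.log (1 / c) := by
  set w : ℝ := (1 - c ^ 2) / (1 + c ^ 2) with hw
  have hc2 : c ^ 2 < 1 := by nlinarith
  have hc2' : 0 < c ^ 2 := by positivity
  have hw0 : 0 < w := by rw [hw]; apply div_pos <;> linarith
  have hw1 : w < 1 := by rw [hw, div_lt_one (by positivity)]; linarith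
  have hlog0 : 0 ≤ Real.log (1 / c) := by
    apply Real.log_nonneg
    rw [le_div_iff₀ hc0]; linarith
  set inn : ℝ → ℝ := fun s => ∫ u in (tau c s)..Real.pi, Ph s u with hinn
  have htau : ∀ s, tau c s ≤ Real.pi := by
    intro s
    unfold tau
    have h1 : 0 ≤ (1 - c ^ 2) / (1 + c ^ 2) * Real.cosh (s / 2) :=
      mul_nonneg hw0.le (Real.cosh_pos _).le
    have := (Real.arccos_le_pi_div_two).mpr h1
    linarith
  have hPh : ∀ s u, 0 ≤ Ph s u := by
    intro s u; unfold Ph; positivity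
  have hinn0 : ∀ s, 0 ≤ inn s := fun s =>
    intervalIntegral.integral_nonneg (htau s) (fun u _ => hPh s u)
  have htau0 : 0 < tau c 0 := by
    unfold tau
    rw [zero_div, Real.cosh_zero, mul_one]
    have := Real.arccos_pos.mpr hw1
    rw [hw] at this
    linarith
  have hinnc : Continuous inn := inner_cont (tau c) (fun _ => Real.pi) (tau_cont c)
    continuous_const htau0 Real.pi_pos
  -- the kernel
  set g : ℝ → ℝ → ENNReal := fun s v => if v * Real.cosh (s / 2) < 1 then
      ENNReal.ofReal (1 / (Real.cosh (s / 2) * Real.sqrt (1 - v ^ 2 * Real.cosh (s / 2) ^ 2)))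
      else 0 with hg
  have hgm : Measurable (fun p : ℝ × ℝ => ENNReal.ofReal (1 / (2 * (1 - p.2 ^ 2))) * g p.1 p.2) := by
    have h1 : Measurable (fun p : ℝ × ℝ => ENNReal.ofReal (1 / (2 * (1 - p.2 ^ 2)))) := by
      fun_prop
    apply h1.mul
    apply Measurable.ite
    · apply measurableSet_lt
      · apply Measurable.mul measurable_snd
        exact Real.measurable_cosh.comp (measurable_fst.div_const 2)
      · exact measurable_const
    · have hc : Measurable (fun p : ℝ × ℝ => Real.cosh (p.1 / 2)) :=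
        Real.measurable_cosh.comp (measurable_fst.div_const 2)
      apply ENNReal.measurable_ofReal.comp
      apply Measurable.div measurable_const
      apply hc.mul
      apply Measurable.sqrt
      exact measurable_const.sub ((measurable_snd.pow_const 2).mul (hc.pow_const 2))
    · exact measurable_const
  have hstep : ∀ s, ENNReal.ofReal (inn s) =
      ∫⁻ v in Ioo (0 : ℝ) w, ENNReal.ofReal (1 / (2 * (1 - v ^ 2))) * g s v := by
    intro s
    rw [hinn]
    simp only
    rw [strip_in c hc0 hc1 s]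
    apply setLIntegral_congr_fun measurableSet_Ioo
    intro v hv
    simp only [hg]
    have hv1 : v < 1 := lt_trans hv.2 hw1
    have hv2 : v ^ 2 < 1 := by nlinarith [hv.1]
    split_ifs
    · rw [ENNReal.ofReal_mul]
      apply one_div_nonneg.mpr
      nlinarith
    · simp
  have hF : ∫⁻ s, ENNReal.ofReal (inn s) ≤ ENNReal.ofReal (Real.pi * Real.log (1 / c)) := by
    calc ∫⁻ s, ENNReal.ofReal (inn s)
        = ∫⁻ s, ∫⁻ v in Ioo (0 : ℝ) w, ENNReal.ofReal (1 / (2 * (1 - v ^ 2))) * g s v :=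
          lintegral_congr hstep
      _ = ∫⁻ v in Ioo (0 : ℝ) w, ∫⁻ s, ENNReal.ofReal (1 / (2 * (1 - v ^ 2))) * g s v := by
          apply lintegral_lintegral_swap
          exact hgm.aemeasurable
      _ ≤ ∫⁻ v in Ioo (0 : ℝ) w, ENNReal.ofReal (1 / (2 * (1 - v ^ 2)) * (2 * Real.pi)) := by
          apply setLIntegral_mono_ae' measurableSet_Ioo
          filter_upwards with v hv
          have hv1 : v < 1 := lt_trans hv.2 hw1
          have hv2 : v ^ 2 < 1 := by nlinarith [hv.1]
          rw [lintegral_const_mul' _ _ ENNReal.ofReal_ne_top, ENNReal.ofReal_mul]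
          · exact mul_le_mul_right (strip_out v hv.1 hv1) _
          · apply one_div_nonneg.mpr; nlinarith
      _ = ENNReal.ofReal (∫ v in Ioo (0 : ℝ) w, 1 / (2 * (1 - v ^ 2)) * (2 * Real.pi)) := by
          rw [ofReal_integral_eq_lintegral_ofReal]
          · have hco : ContinuousOn (fun v : ℝ => 1 / (2 * (1 - v ^ 2)) * (2 * Real.pi))
                (Icc 0 w) := by
              apply ContinuousOn.mul _ continuousOn_const
              apply ContinuousOn.div continuousOn_const
              · fun_prop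
              · intro v hv
                have : v ^ 2 < 1 := by nlinarith [hv.1, hv.2]
                apply ne_of_gt; nlinarith
            exact (hco.integrableOn_Icc).mono_set Ioo_subset_Icc_self
          · rw [Filter.EventuallyLE, ae_restrict_iff' measurableSet_Ioo]
            filter_upwards with v hv
            have hv1 : v < 1 := lt_trans hv.2 hw1
            have hv2 : v ^ 2 < 1 := by nlinarith [hv.1]
            simp only [Pi.zero_apply]
            apply mul_nonneg
            · apply one_div_nonneg.mpr; nlinarith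
            · positivity
      _ = ENNReal.ofReal (Real.pi * Real.log (1 / c)) := by
          congr 1
          rw [← integral_Ioc_eq_integral_Ioo, ← intervalIntegral.integral_of_le hw0.le]
          have hder : ∀ v ∈ uIcc 0 w, HasDerivAt (fun v : ℝ => (Real.pi / 2) *
              (Real.log (1 + v) - Real.log (1 - v))) (1 / (2 * (1 - v ^ 2)) * (2 * Real.pi)) v := by
            intro v hv
            rw [uIcc_of_le hw0.le] at hv
            have h1 : (1 + v) ≠ 0 := by apply ne_of_gt; linarith [hv.1]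
            have h2 : (1 - v) ≠ 0 := by apply ne_of_gt; linarith [hv.2]
            have h3 : (1 - v ^ 2) ≠ 0 := by
              have : (1 - v ^ 2) = (1 + v) * (1 - v) := by ring
              rw [this]; exact mul_ne_zero h1 h2
            have d1 : HasDerivAt (fun v : ℝ => Real.log (1 + v)) (1 / (1 + v)) v := by
              have := ((hasDerivAt_id v).const_add 1).log h1
              simpa using this
            have d2 : HasDerivAt (fun v : ℝ => Real.log (1 - v)) (-1 / (1 - v)) v := by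
              have := ((hasDerivAt_id v).const_sub 1).log h2
              simpa using this
            have d3 := (d1.sub d2).const_mul (Real.pi / 2)
            have e : 1 / (2 * (1 - v ^ 2)) * (2 * Real.pi) =
                Real.pi / 2 * (1 / (1 + v) - -1 / (1 - v)) := by
              have h4 : (1 - v ^ 2) = (1 + v) * (1 - v) := by ring
              rw [h4]
              field_simp
              ring
            rw [e]
            exact d3
          have hint : IntervalIntegrable (fun v : ℝ => 1 / (2 * (1 - v ^ 2)) * (2 * Real.pi))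
              volume 0 w := by
            apply ContinuousOn.intervalIntegrable
            rw [uIcc_of_le hw0.le]
            apply ContinuousOn.mul _ continuousOn_const
            apply ContinuousOn.div continuousOn_const
            · fun_prop
            · intro v hv
              have : v ^ 2 < 1 := by nlinarith [hv.1, hv.2]
              apply ne_of_gt; nlinarith
          rw [intervalIntegral.integral_eq_sub_of_hasDerivAt hder hint]
          simp only [add_zero, sub_zero, Real.log_one, sub_self, mul_zero]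
          have e1 : 1 + w = 2 / (1 + c ^ 2) := by rw [hw]; field_simp; ring
          have e2 : 1 - w = 2 / (1 + c ^ 2) * c ^ 2 := by rw [hw]; field_simp; ring
          rw [e2, Real.log_mul (by positivity) (by positivity), ← e1, Real.log_pow, one_div,
            Real.log_inv]
          push_cast
          ring
  have hmain : ∫ s in (-B)..B, inn s ≤ Real.pi * Real.log (1 / c) := by
    rw [intervalIntegral.integral_of_le (by linarith)]
    rw [integral_eq_lintegral_of_nonneg_ae (Filter.Eventually.of_forall hinn0)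
      hinnc.aestronglyMeasurable]
    apply ENNReal.toReal_le_of_le_ofReal (by positivity)
    exact (setLIntegral_le_lintegral _ _).trans hF
  have : ∫ s in (-B)..B, ∫ u in (tau c s)..Real.pi, Ph s u = ∫ s in (-B)..B, inn s := rfl
  rw [this]
  linarith

/-! ### Taule -/

lemma AM_cosh_lower (X : ℝ) : 1 + X ^ 2 / 2 ≤ Real.cosh X := by
  have h1 : Real.cosh X = 1 + 2 * Real.sinh (X / 2) ^ 2 := by
    have h2 : X = 2 * (X / 2) := by ring
    have h3 := Real.cosh_two_mul (X / 2)
    have h4 := Real.cosh_sq (X / 2)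
    rw [← h2] at h3
    linarith
  have h5 : (X / 2) ^ 2 ≤ Real.sinh (X / 2) ^ 2 := by
    rcases le_total 0 (X / 2) with h | h
    · exact pow_le_pow_left₀ h (Real.self_le_sinh_iff.2 h) 2
    · have h6 : 0 ≤ -(X / 2) := by linarith
      have h7 := pow_le_pow_left₀ h6 (Real.self_le_sinh_iff.2 h6) 2
      rw [Real.sinh_neg] at h7
      nlinarith
  rw [h1]
  nlinarith

lemma AM_cos_le (b c t X Y : ℝ) (hc0 : 0 ≤ c) (hY1 : |Y| ≤ 1)
    (hXY : X ^ 2 + Y ^ 2 = (b * t / 2) ^ 2)
    (hmain : (5 / 96) * (b * t / 2) ^ 4 + 2 * c ^ 2 + c ^ 2 * (b * t / 2) ^ 2 ≤ (b * t / 2) ^ 2 / 2) :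
    Real.cos Y ≤ (1 - c ^ 2) / (1 + c ^ 2) * Real.cosh X := by
  have hb := (abs_le.1 (Real.cos_bound hY1)).2
  have hY4 : |Y| ^ 4 = (Y ^ 2) ^ 2 := by rw [← sq_abs Y]; ring
  rw [hY4] at hb
  have hX0 : 0 ≤ X ^ 2 := sq_nonneg X
  have hY0 : 0 ≤ Y ^ 2 := sq_nonneg Y
  have hR : Y ^ 2 ≤ (b * t / 2) ^ 2 := by linarith
  have hRX : X ^ 2 ≤ (b * t / 2) ^ 2 := by linarith
  have h4 : (Y ^ 2) ^ 2 ≤ (b * t / 2) ^ 4 := by
    have := pow_le_pow_left₀ hY0 hR 2
    calc (Y ^ 2) ^ 2 ≤ ((b * t / 2) ^ 2) ^ 2 := this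
      _ = (b * t / 2) ^ 4 := by ring
  have hc2 : c ^ 2 * X ^ 2 ≤ c ^ 2 * (b * t / 2) ^ 2 := mul_le_mul_of_nonneg_left hRX (sq_nonneg c)
  have h5 : Real.cos Y ≤ (1 - 2 * c ^ 2) * (1 + X ^ 2 / 2) := by nlinarith
  have hden : 0 < 1 + c ^ 2 := by positivity
  have hk : 1 - 2 * c ^ 2 ≤ (1 - c ^ 2) / (1 + c ^ 2) := by
    rw [le_div_iff₀ hden]; nlinarith [sq_nonneg (c ^ 2)]
  have hcos_pos : 0 ≤ Real.cos Y := by
    apply Real.cos_nonneg_of_mem_Icc
    constructor
    · have := (abs_le.1 hY1).1; linarith [Real.pi_gt_three]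
    · have := (abs_le.1 hY1).2; linarith [Real.pi_gt_three]
  have h6 : 0 < 1 + X ^ 2 / 2 := by positivity
  have h7 : (1 - 2 * c ^ 2) * (1 + X ^ 2 / 2) ≤ (1 - c ^ 2) / (1 + c ^ 2) * (1 + X ^ 2 / 2) :=
    mul_le_mul_of_nonneg_right hk h6.le
  have hk0 : 0 ≤ (1 - c ^ 2) / (1 + c ^ 2) := by
    by_contra hneg
    push Not at hneg
    have := mul_neg_of_neg_of_pos hneg h6
    linarith
  have h8 : (1 - c ^ 2) / (1 + c ^ 2) * (1 + X ^ 2 / 2) ≤ (1 - c ^ 2) / (1 + c ^ 2) * Real.cosh X :=
    mul_le_mul_of_nonneg_left (AM_cosh_lower X) hk0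
  linarith

theorem tau_le (b η : ℝ) (hη : 0 < η) (hb : 4 * (1 + η) < b) :
    ∃ t0 > 0, ∀ t ∈ Ioc 0 t0, (1 + η) * t < 1 ∧ ∀ s, 
      (|s| ≤ b * t → tau ((1 + η) * t) s ≤ Real.sqrt (b ^ 2 * t ^ 2 - s ^ 2)) ∧
      (b * t ≤ |s| → tau ((1 + η) * t) s = 0) := by
  have hb0 : 0 < b := by linarith
  have hη1 : 0 < 1 + η := by linarith
  set DD : ℝ := b ^ 2 / 8 - 2 * (1 + η) ^ 2 with hDD
  set EE : ℝ := (5 / 1536) * b ^ 4 + (1 + η) ^ 2 * b ^ 2 / 4 with hEE
  have hD : 0 < DD := by rw [hDD]; nlinarith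
  have hE : 0 < EE := by rw [hEE]; positivity
  refine ⟨min (min (1 / (2 * (1 + η))) (1 / b)) (min 1 (DD / EE)), ?_, ?_⟩
  · have : 0 < DD / EE := div_pos hD hE
    positivity
  intro t ht
  obtain ⟨ht0, ht1⟩ := ht
  have a1 : t ≤ 1 / (2 * (1 + η)) := ht1.trans ((min_le_left _ _).trans (min_le_left _ _))
  have a2 : t ≤ 1 / b := ht1.trans ((min_le_left _ _).trans (min_le_right _ _))
  have a3 : t ≤ 1 := ht1.trans ((min_le_right _ _).trans (min_le_left _ _))
  have a4 : t ≤ DD / EE := ht1.trans ((min_le_right _ _).trans (min_le_right _ _))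
  have hc1 : (1 + η) * t < 1 := by
    rw [le_div_iff₀ (by positivity)] at a1
    linarith
  have hbt : b * t ≤ 1 := by
    rw [le_div_iff₀ hb0] at a2; linarith
  have hE4 : EE * t ≤ DD := by
    rw [le_div_iff₀ hE] at a4; linarith
  have hmain : (5 / 96) * (b * t / 2) ^ 4 + 2 * ((1 + η) * t) ^ 2 +
      ((1 + η) * t) ^ 2 * (b * t / 2) ^ 2 ≤ (b * t / 2) ^ 2 / 2 := by
    have h1 : EE * t ^ 2 ≤ DD := by
      have : t ^ 2 ≤ t := by nlinarith
      nlinarith
    have h2 : t ^ 2 * (EE * t ^ 2) ≤ t ^ 2 * DD := mul_le_mul_of_nonneg_left h1 (sq_nonneg t)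
    rw [hDD, hEE] at h2
    nlinarith
  have hc0 : 0 ≤ (1 + η) * t := by positivity
  have hbt0 : 0 < b * t := by positivity
  refine ⟨hc1, fun s => ⟨fun hs => ?_, fun hs => ?_⟩⟩
  · have hs2 : s ^ 2 ≤ b ^ 2 * t ^ 2 := by
      have := pow_le_pow_left₀ (abs_nonneg s) hs 2
      rw [sq_abs] at this
      calc s ^ 2 ≤ (b * t) ^ 2 := this
        _ = _ := by ring
    have hnn : 0 ≤ b ^ 2 * t ^ 2 - s ^ 2 := by linarith
    set u := Real.sqrt (b ^ 2 * t ^ 2 - s ^ 2) with hu
    have hu0 : 0 ≤ u := Real.sqrt_nonneg _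
    have husq : u ^ 2 = b ^ 2 * t ^ 2 - s ^ 2 := Real.sq_sqrt hnn
    have hu1 : u ≤ 1 := by
      have h3 : u ^ 2 ≤ 1 := by
        rw [husq]
        have : b ^ 2 * t ^ 2 ≤ 1 := by
          have := pow_le_pow_left₀ hbt0.le hbt 2
          calc b ^ 2 * t ^ 2 = (b * t) ^ 2 := by ring
            _ ≤ 1 := by simpa using this
        nlinarith [sq_nonneg s]
      nlinarith
    have h1 : Real.cos (u / 2) ≤ (1 - ((1 + η) * t) ^ 2) / (1 + ((1 + η) * t) ^ 2) *
        Real.cosh (s / 2) := by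
      apply AM_cos_le b ((1 + η) * t) t (s / 2) (u / 2) hc0
      · rw [abs_of_nonneg (by positivity)]; linarith
      · rw [div_pow u, husq]; ring
      · exact hmain
    have h2 : Real.arccos ((1 - ((1 + η) * t) ^ 2) / (1 + ((1 + η) * t) ^ 2) * Real.cosh (s / 2)) ≤
        u / 2 := by
      have h3 := Real.arccos_le_arccos h1
      rw [Real.arccos_cos (by positivity) (by linarith [Real.pi_gt_three])] at h3
      exact h3
    unfold tau
    linarith
  · have h1 : Real.cos 0 ≤ (1 - ((1 + η) * t) ^ 2) / (1 + ((1 + η) * t) ^ 2) *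
        Real.cosh (b * t / 2) := by
      apply AM_cos_le b ((1 + η) * t) t (b * t / 2) 0 hc0
      · simp
      · ring
      · exact hmain
    rw [Real.cos_zero] at h1
    have h2 : Real.cosh (b * t / 2) ≤ Real.cosh (s / 2) := by
      rw [Real.cosh_le_cosh, abs_of_nonneg (by positivity : 0 ≤ b * t / 2), abs_div]
      simp only [abs_two]
      linarith
    have hk0 : 0 ≤ (1 - ((1 + η) * t) ^ 2) / (1 + ((1 + η) * t) ^ 2) := by
      apply div_nonneg
      · nlinarith
      · positivity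
    have h3 := mul_le_mul_of_nonneg_left h2 hk0
    unfold tau
    rw [Real.arccos_eq_zero.2 (h1.trans h3), mul_zero]

end AM287
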